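import Pool.Agent.Lib_helper27.V.Link

/-!
# Uniform formulas

`DF` is the type of first-order formulas with numbered variables. A formula defined uniformly for
all types of parameters is the interpretation of such a formula, which gives at once all
congruence statements for it.
-/

namespace Pool.Agent.Lib_helper27

universe u v

/-- formulas with numbered variables -/
inductive DF : Type
  | mem (i j : ℕ) : DF
  | eq (i j : ℕ) : DF
  | neg (φ : DF) : DF
  | and (φ ψ : DF) : DF
  | all (φ : DF) : DF

/-- change the value at `k` -/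
def upd {U : Type v} (e : ℕ → U) (k : ℕ) (x : U) : ℕ → U := fun i => if i = k then x else e i

/-- interpretation in a context of length `k` -/
def DF.to {U : Type v} : DF → ℕ → (ℕ → U) → Fml U
  | .mem i j, _, e => .mem (e i) (e j)
  | .eq i j, _, e => .eq (e i) (e j)
  | .neg φ, k, e => .neg (φ.to k e)
  | .and φ ψ, k, e => .and (φ.to k e) (ψ.to k e)
  | .all φ, k, e => .all fun x => φ.to (k + 1) (upd e k x)

/-- the numbered formula of a formula whose parameters are numbers `< k` -/
def cv : Fml ℕ → ℕ → DF
  | .mem i j, _ => .mem i j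
  | .eq i j, _ => .eq i j
  | .neg φ, k => .neg (cv φ k)
  | .and φ ψ, k => .and (cv φ k) (cv ψ k)
  | .all φ, k => .all (cv (φ k) (k + 1))

/-- environments -/
def env {U : Type v} : List U → U → ℕ → U
  | [], d, _ => d
  | x :: l, d, n => Nat.rec x (fun n _ => env l d n) n

theorem DF.rel {U : Type v} {r : U → U → Prop} (hr : ∀ x, r x x) (φ : DF) (k : ℕ) (e e' : ℕ → U)
    (h : ∀ i, r (e i) (e' i)) : Fml.Rel r (φ.to k e) (φ.to k e') := by
  induction φ generalizing k e e' with
  | mem i j => exact .mem (h i) (h j)
  | eq i j => exact .eq (h i) (h j)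
  | neg φ ih => exact .neg (ih k e e' h)
  | and φ ψ ih1 ih2 => exact .and (ih1 k e e' h) (ih2 k e e' h)
  | all φ ih =>
    refine .all fun x => ih _ _ _ fun i => ?_
    unfold upd
    by_cases hi : i = k
    · rw [if_pos hi, if_pos hi]
      exact hr x
    · rw [if_neg hi, if_neg hi]
      exact h i

namespace V

open Fml

variable {P : Type u} [Preorder P]

theorem DF.lk [Nonempty P] (φ : DF) (k : ℕ) (e : ℕ → Name P) :
    Lk (φ.to k fun i => π (e i)) (φ.to k e) := by
  induction φ generalizing k e with
  | mem i j => exact .mem _ _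
  | eq i j => exact .eq _ _
  | neg φ ih => exact .neg (ih k e)
  | and φ ψ ih1 ih2 => exact .and (ih1 k e) (ih2 k e)
  | all φ ih =>
    refine Lk.all (fun t => ?_) ?_
    · have h1 : upd (fun i => π (e i)) k (π t) = fun i => π (upd e k t i) := by
        funext i
        unfold upd
        split_ifs <;> rfl
      rw [h1]
      exact ih _ _
    · intro p x y h
      refine DF.rel (fun z => feq_refl z p) φ (k + 1) _ _ fun i => ?_
      unfold upd
      by_cases hi : i = k
      · rw [if_pos hi, if_pos hi]
        exact h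
      · rw [if_neg hi, if_neg hi]
        exact feq_refl _ _

theorem lk_env1 [Nonempty P] (φ : DF) (a : Name P) :
    Lk (φ.to 1 (env [] (π a))) (φ.to 1 (env [] a)) := by
  have h : (fun i => π (env [] a i)) = env [] (π a) := by
    funext i
    rfl
  rw [← h]
  exact DF.lk φ 1 _

theorem lk_env2 [Nonempty P] (φ : DF) (a b : Name P) :
    Lk (φ.to 2 (env [π a] (π b))) (φ.to 2 (env [a] b)) := by
  have h : (fun i => π (env [a] b i)) = env [π a] (π b) := by
    funext i
    rcases i with _ | i <;> rfl
  rw [← h]
  exact DF.lk φ 2 _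

theorem lk_env3 [Nonempty P] (φ : DF) (a b c : Name P) :
    Lk (φ.to 3 (env [π a, π b] (π c))) (φ.to 3 (env [a, b] c)) := by
  have h : (fun i => π (env [a, b] c i)) = env [π a, π b] (π c) := by
    funext i
    rcases i with _ | _ | i <;> rfl
  rw [← h]
  exact DF.lk φ 3 _

theorem lk_env4 [Nonempty P] (φ : DF) (a b c d : Name P) :
    Lk (φ.to 4 (env [π a, π b, π c] (π d))) (φ.to 4 (env [a, b, c] d)) := by
  have h : (fun i => π (env [a, b, c] d i)) = env [π a, π b, π c] (π d) := by
    funext i
    rcases i with _ | _ | _ | i <;> rfl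
  rw [← h]
  exact DF.lk φ 4 _

theorem lk_env5 [Nonempty P] (φ : DF) (a b c d f : Name P) :
    Lk (φ.to 5 (env [π a, π b, π c, π d] (π f))) (φ.to 5 (env [a, b, c, d] f)) := by
  have h : (fun i => π (env [a, b, c, d] f i)) = env [π a, π b, π c, π d] (π f) := by
    funext i
    rcases i with _ | _ | _ | _ | i <;> rfl
  rw [← h]
  exact DF.lk φ 5 _

end V

namespace V

open Fml

theorem rel_env {U : Type v} {r : U → U → Prop} {l l' : List U} {d d' : U}
    (h : List.Forall₂ r l l') (hd : r d d') : ∀ i, r (env l d i) (env l' d' i) := by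
  induction h with
  | nil => exact fun _ => hd
  | cons h _ ih =>
    rintro (_ | i)
    · exact h
    · exact ih i

theorem fc_uni {P : Type u} [Preorder P] (φ : DF) (n : ℕ) {l l' : List (Name P)} {d d' : Name P}
    {p q : P} (h : List.Forall₂ (fun x y => feq x y p) l l') (hd : feq d d' p) (hq : q ≤ p) :
    Fc q (φ.to n (env l d)) ↔ Fc q (φ.to n (env l' d')) :=
  fc_congr (DF.rel (fun z => feq_refl z p) φ n _ _ (rel_env h hd)) hq

/-- congruence of a formula in one parameter -/
theorem congr1_uni {P : Type u} [Preorder P] (φ : DF) (n : ℕ) {g : Name P → List (Name P)}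
    {e : Name P → Name P} (h : ∀ p x y, feq x y p → List.Forall₂ (fun x y => feq x y p) (g x) (g y))
    (he : ∀ p x y, feq x y p → feq (e x) (e y) p) : Congr1 fun x => φ.to n (env (g x) (e x)) :=
  fun p x y hxy => DF.rel (fun z => feq_refl z p) φ n _ _ (rel_env (h p x y hxy) (he p x y hxy))

end V

end Pool.Agent.Lib_helper27
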