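import Pool.Agent.Lib_helper27.Q.SysF
import Pool.Agent.Lib_helper27.Statement

/-!
# The name of the Cohen poset, for distributive forcing
-/

set_option linter.unusedSectionVars false
set_option linter.unusedTactic false
set_option linter.unreachableTactic false

namespace Pool.Agent.Lib_helper27.Q

open Fml V Cardinal

section gen

variable {P : Type} [Preorder P] {ι : Type}

theorem fc_ball_mkAll {x : ι → Name P} {φ : Name P → Fml (Name P)} (hφ : Congr1 φ) {p : P} :
    Fc p (ball (mkAll ι x) φ) ↔ ∀ i, Fc p (φ (x i)) := by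
  constructor
  · intro h i
    exact (forces_ball nf_basic).1 h (x i) p le_rfl (fmem_mkAll_of i)
  · intro h
    refine (forces_ball nf_basic).2 fun z q hq hz => ?_
    refine Forces.dense nf_basic ?_
    refine (fmem_mkAll.1 hz).imp ?_
    rintro r hr ⟨i, he⟩
    exact (fc_congr (hφ r z _ he) le_rfl).2 (Forces.mono nf_basic (hr.trans hq) (h i))

theorem fc_bex_mkAll {x : ι → Name P} {φ : Name P → Fml (Name P)} (hφ : Congr1 φ) {p : P} :
    Fc p (bex (mkAll ι x) φ) ↔ Loc p fun r => ∃ i, Fc r (φ (x i)) := by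
  rw [Fc, forces_bex]
  constructor
  · intro h
    refine h.bind ?_
    rintro q _ ⟨z, hz, hz'⟩
    refine (fmem_mkAll.1 hz).imp ?_
    rintro r hr ⟨i, he⟩
    exact ⟨i, (fc_congr (hφ r z _ he) le_rfl).1 (Forces.mono nf_basic hr hz')⟩
  · intro h
    refine h.imp ?_
    rintro r _ ⟨i, hi⟩
    exact ⟨_, fmem_mkAll_of i, hi⟩

end gen

section names

variable (P : Type) [Preorder P]

/-- the names of `0` and `1` -/
def bnm (b : Bool) : Name P := cond b (mkPair mkEmpty mkEmpty) mkEmpty

/-- finite partial functions from `ℕ` to `2` -/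
def Fn : Type := {s : Finset (ℕ × Bool) // ∀ n b b', (n, b) ∈ s → (n, b') ∈ s → b = b'}

/-- the name of the pair `(n, b)` -/
noncomputable def pnm (x : ℕ × Bool) : Name P := mkOPair (onm P x.1) (bnm P x.2)

/-- the name of a set of pairs -/
noncomputable def snm (s : Set (ℕ × Bool)) : Name P := mkAll {x // x ∈ s} fun x => pnm P x.1

/-- the name of a finite partial function -/
noncomputable def cnm (s : Fn) : Name P := snm P {x | x ∈ s.1}

/-- the name of the Cohen poset -/
noncomputable def call : Name P := mkAll Fn (cnm P)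

variable {P}

theorem bnm_inj {b b' : Bool} {p : P} (h : feq (bnm P b) (bnm P b') p) : b = b' := by
  cases b <;> cases b'
  · rfl
  · have h1 : fmem mkEmpty (bnm P true) p := fmem_pair_left _ _ p
    exact (not_fmem_mkEmpty (fmem_congr_right (feq_symm h) h1)).elim
  · have h1 : fmem mkEmpty (bnm P true) p := fmem_pair_left _ _ p
    exact (not_fmem_mkEmpty (fmem_congr_right h h1)).elim
  · rfl

theorem pnm_inj {x y : ℕ × Bool} {p : P} (h : feq (pnm P x) (pnm P y) p) : x = y := by
  obtain ⟨h1, h2⟩ := opair_inj h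
  exact Prod.ext (onm_inj h1) (bnm_inj h2)

theorem fmem_snm {s : Set (ℕ × Bool)} {x : ℕ × Bool} {p : P} :
    fmem (pnm P x) (snm P s) p ↔ x ∈ s := by
  constructor
  · intro h
    obtain ⟨q, _, y, hy⟩ := (fmem_mkAll.1 h).exists
    rw [pnm_inj hy]
    exact y.2
  · intro h
    exact fmem_mkAll_of (⟨x, h⟩ : {x // x ∈ s})

theorem fmem_snm' {s : Set (ℕ × Bool)} {z : Name P} {p : P} :
    fmem z (snm P s) p ↔ Loc p fun r => ∃ x, x ∈ s ∧ feq z (pnm P x) r := by
  refine fmem_mkAll.trans ⟨fun h => h.imp ?_, fun h => h.imp ?_⟩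
  · rintro r _ ⟨⟨x, hx⟩, h⟩
    exact ⟨x, hx, h⟩
  · rintro r _ ⟨x, hx, h⟩
    exact ⟨⟨x, hx⟩, h⟩

theorem snm_sub {s t : Set (ℕ × Bool)} {p : P} :
    Fc p (isSubset (snm P s) (snm P t)) ↔ s ⊆ t := by
  refine (fc_ball_mkAll (φ := fun z => mem z (snm P t))
    (fun p x y h => .mem h (feq_refl _ _))).trans ?_
  constructor
  · intro h x hx
    exact fmem_snm.1 (h ⟨x, hx⟩)
  · intro h x
    exact fmem_snm.2 (h x.2)

theorem isTwo_name (p : P) : Fc p (isTwo (mkPair (bnm P false) (bnm P true))) := by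
  refine forces_ex.2 (Loc.pure fun q _ => ⟨bnm P false, ?_⟩)
  refine forces_ex.2 (Loc.pure fun r _ => ⟨bnm P true, ?_, ?_, ?_⟩)
  · intro y s _ h
    exact not_fmem_mkEmpty h
  · exact fc_upair_iff.2 (feq_refl _ _)
  · exact fc_upair_iff.2 (feq_refl _ _)

theorem fmem_two {z : Name P} {p : P} : fmem z (mkPair (bnm P false) (bnm P true)) p ↔
    Loc p fun r => ∃ b, feq z (bnm P b) r := by
  rw [fmem_mkPair, Fc, forces_or]
  constructor
  · intro h
    refine h.imp ?_
    rintro r _ (h | h)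
    · exact ⟨false, h⟩
    · exact ⟨true, h⟩
  · intro h
    refine h.imp ?_
    rintro r _ ⟨b, h⟩
    cases b
    · exact Or.inl h
    · exact Or.inr h

end names

section main

variable {P : Type} [Preorder P]

theorem fc_isInj_of {ι : Type} {d v : ι → Name P} {a b : Name P} {p : P}
    (h1 : ∀ i r, fmem (d i) a r ∧ fmem (v i) b r)
    (h2 : ∀ x q, q ≤ p → fmem x a q → Loc q fun r => ∃ i, feq x (d i) r)
    (h3 : ∀ i j r, feq (d i) (d j) r → i = j) (h4 : ∀ i j r, feq (v i) (v j) r → i = j) :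
    Fc p (isInj (mkFn ι d v fun _ _ => True) a b) := by
  have hQ : Down (P := P) (fun (_ : ι) _ => True) := down_true
  refine fc_isInj hQ (fc_isFunc hQ (fun i r _ _ => h1 i r) ?_ ?_) ?_
  · intro x q hq hx
    exact (h2 x q hq hx).imp fun r _ ⟨i, hi⟩ => ⟨i, trivial, hi⟩
  · intro i j r _ _ _ h
    rw [h3 i j r h]
    exact feq_refl _ _
  · intro i j r _ _ _ h
    rw [h4 i j r h]
    exact feq_refl _ _

/-- check names of finite partial functions are finite partial functions -/
theorem fc_finPart (s : Fn) (p : P) :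
    Fc p (isFinPartFun (oall P ℕ) (mkPair (bnm P false) (bnm P true)) (cnm P s)) := by
  classical
  refine ⟨?_, ?_, ?_⟩
  · refine (forces_ball nf_basic).2 fun z q hq hz => ?_
    refine forces_bex.2 ((fmem_snm'.1 hz).imp ?_)
    rintro r hr ⟨⟨n, b⟩, hx, he⟩
    refine ⟨onm P n, onm_mem_oall n r, ?_⟩
    refine forces_bex.2 (Loc.pure fun u hu => ⟨bnm P b, ?_, ?_⟩)
    · exact fmem_two.2 (Loc.pure fun _ _ => ⟨b, feq_refl _ _⟩)
    · exact fc_opair_iff.2 (feq_mono hu he)
  · intro n i j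
    refine (forces_imp nf_basic).2 fun q hq h => ?_
    refine feq_dense ?_
    have key : ∀ (n i : Name P) (q : P), Fc q (app (cnm P s) n i) → Loc q fun r =>
        ∃ m b, (m, b) ∈ s.1 ∧ feq n (onm P m) r ∧ feq i (bnm P b) r := by
      intro n i q h
      refine (forces_bex.1 h).bind ?_
      rintro r _ ⟨z, hz, hz'⟩
      refine (fmem_snm'.1 hz).imp ?_
      rintro u hu ⟨⟨m, b⟩, hx, he⟩
      have h5 := opair_inj (feq_trans (feq_symm (fc_opair_iff.1 (Forces.mono nf_basic hu hz'))) he)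
      exact ⟨m, b, hx, h5.1, h5.2⟩
    refine (key n i q h.1).bind ?_
    rintro r hr ⟨m, b, hx, h1, h2⟩
    refine (key n j r (Forces.mono nf_basic hr h.2)).imp ?_
    rintro u hu ⟨m', b', hx', h1', h2'⟩
    obtain rfl := onm_inj (feq_trans (feq_symm (feq_mono hu h1)) h1')
    obtain rfl := s.2 m b b' hx hx'
    exact feq_trans (feq_mono hu h2) (feq_symm h2')
  · refine forces_bex.2 (Loc.pure fun q _ => ⟨onm P s.1.card, onm_mem_oall _ q, ?_⟩)
    refine forces_ex.2 (Loc.pure fun r _ => ?_)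
    let e := s.1.equivFin
    refine ⟨mkFn {x // x ∈ s.1} (fun x => pnm P x.1) (fun x => onm P (e x : ℕ)) fun _ _ => True,
      fc_isInj_of ?_ ?_ ?_ ?_⟩
    · intro x u
      exact ⟨fmem_snm.2 x.2, onm_mem (e x).2 u⟩
    · intro x u _ hx
      refine (fmem_snm'.1 hx).imp ?_
      rintro v _ ⟨y, hy, he⟩
      exact ⟨⟨y, hy⟩, he⟩
    · intro x y u h
      exact Subtype.ext (pnm_inj h)
    · intro x y u h
      exact e.injective (Fin.ext (onm_inj h))

/-- For distributive forcing, every finite partial function in the extension is a check name. -/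
theorem fc_finPart_conv (hP : Distr P) {f : Name P} {p : P}
    (hf : Fc p (isFinPartFun (oall P ℕ) (mkPair (bnm P false) (bnm P true)) f)) :
    Loc p fun r => ∃ s : Fn, feq f (cnm P s) r := by
  classical
  intro p0 hp0
  obtain ⟨h1, h2, h3⟩ := Forces.mono nf_basic hp0 hf
  obtain ⟨p1, hp1, k, hk, h4⟩ := (forces_bex.1 h3).exists
  obtain ⟨p2, hp2, g, hg⟩ := (forces_ex.1 h4).exists
  obtain ⟨p3, hp3, n, hn⟩ := (fmem_oall.1 (fmem_mono hp2 hk)).exists
  have hg3 : Fc p3 (isInj g f (onm P n)) :=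
    (fc_congr (Fml.Rel.isInj (fun x => feq_refl x p3) (feq_refl _ _) (feq_refl _ _) hn) le_rfl).1
      (Forces.mono nf_basic hp3 hg)
  have hcard : #(ℕ × Bool) ≤ aleph 1 := by
    refine (Cardinal.mk_le_aleph0).trans aleph0_le_aleph1
  -- decide membership
  obtain ⟨p4, hp4, h5⟩ := hP.family hcard (fun x : ℕ × Bool => {r : P | fmem (pnm P x) f r ∨
      ∀ q ≤ r, ¬ fmem (pnm P x) f q})
    (fun x r => by
      by_cases h : ∃ q ≤ r, fmem (pnm P x) f q
      · obtain ⟨q, hq, h⟩ := h
        exact ⟨q, hq, Or.inl h⟩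
      · push Not at h
        exact ⟨r, le_rfl, Or.inr h⟩)
    (fun x r hr q hq => by
      rcases hr with h | h
      · exact Or.inl (fmem_mono hq h)
      · exact Or.inr fun u hu => h u (hu.trans hq)) p3
  let s : Set (ℕ × Bool) := {x | fmem (pnm P x) f p4}
  -- decide the injection
  have hcard' : #(s × Fin n) ≤ aleph 1 :=
    (Cardinal.mk_le_aleph0).trans aleph0_le_aleph1
  obtain ⟨p5, hp5, h6⟩ : ∃ q ≤ p4, ∀ x : s × Fin n, Fc q (app g (pnm P x.1.1) (onm P (x.2 : ℕ))) ∨
      ∀ u ≤ q, ¬ Fc u (app g (pnm P x.1.1) (onm P (x.2 : ℕ))) := by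
    by_cases hne : Nonempty (s × Fin n)
    · exact hP.family hcard' (fun x => {q : P | Fc q (app g (pnm P x.1.1) (onm P (x.2 : ℕ))) ∨
        ∀ u ≤ q, ¬ Fc u (app g (pnm P x.1.1) (onm P (x.2 : ℕ)))})
        (fun x r => by
          by_cases h : ∃ q ≤ r, Fc q (app g (pnm P x.1.1) (onm P (x.2 : ℕ)))
          · obtain ⟨q, hq, h⟩ := h
            exact ⟨q, hq, Or.inl h⟩
          · push Not at h
            exact ⟨r, le_rfl, Or.inr h⟩)
        (fun x r hr q hq => by
          rcases hr with h | h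
          · exact Or.inl (Forces.mono nf_basic hq h)
          · exact Or.inr fun u hu => h u (hu.trans hq)) p4
    · exact ⟨p4, le_rfl, fun x => (hne ⟨x⟩).elim⟩
  have hle3 : p5 ≤ p3 := hp5.trans hp4
  have hg5 := Forces.mono nf_basic hle3 hg3
  have h7 : ∀ x : s, ∃ l : Fin n, Fc p5 (app g (pnm P x.1) (onm P (l : ℕ))) := by
    intro x
    obtain ⟨q, hq, y, hy, hy'⟩ := (func_total hg5.1 (fmem_mono hp5 x.2)).exists
    obtain ⟨r, hr, l, hl, he⟩ := (fmem_onm.1 hy).exists
    have h8 : Fc r (app g (pnm P x.1) (onm P l)) :=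
      app_congr' (feq_refl _ _) he (Forces.mono nf_basic hr hy')
    refine ⟨⟨l, hl⟩, ?_⟩
    rcases h6 (x, ⟨l, hl⟩) with h9 | h9
    · exact h9
    · exact (h9 r (hr.trans hq) h8).elim
  choose e he using h7
  have hinj : Function.Injective e := by
    intro x y hxy
    have h8 := he x
    rw [hxy] at h8
    exact Subtype.ext (pnm_inj (inj_single hg5 h8 (he y)))
  have hfin : s.Finite := Finite.of_injective e hinj
  have happ : ∀ x ∈ s, Fc p4 (app f (onm P x.1) (bnm P x.2)) := by
    intro x hx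
    exact forces_bex.2 (Loc.pure fun q hq => ⟨_, fmem_mono hq hx, fc_opair_iff.2 (feq_refl _ _)⟩)
  have hle0 : p4 ≤ p0 := hp4.trans (hp3.trans (hp2.trans hp1))
  refine ⟨p5, hp5.trans hle0, ⟨hfin.toFinset, ?_⟩, feq_ext fun z q hq => ?_⟩
  · intro m b b' hb hb'
    rw [Set.Finite.mem_toFinset] at hb hb'
    have h8 := happ _ hb
    have h9 := happ _ hb'
    exact bnm_inj ((forces_imp nf_basic).1 (h2 (onm P m) (bnm P b) (bnm P b')) p4 hle0 ⟨h8, h9⟩)
  · refine Iff.trans ?_ fmem_snm'.symm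
    constructor
    · intro hz
      refine (forces_bex.1 ((forces_ball nf_basic).1 h1 z q (hq.trans (hp5.trans hle0)) hz)).bind ?_
      rintro r hr ⟨a, ha, h8⟩
      refine (forces_bex.1 h8).bind ?_
      rintro u hu ⟨c, hc, h9⟩
      refine ((fmem_oall.1 (fmem_mono hu ha)).bind ?_)
      rintro v hv ⟨m, hm⟩
      refine (fmem_two.1 (fmem_mono hv hc)).imp ?_
      rintro w hw ⟨b, hb⟩
      have hzp : feq z (pnm P (m, b)) w :=
        feq_trans (feq_mono (hw.trans hv) (fc_opair_iff.1 h9)) (feq_opair_congr (feq_mono hw hm) hb)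
      have hwq : w ≤ q := hw.trans (hv.trans (hu.trans hr))
      have hin : fmem (pnm P (m, b)) f w := fmem_congr_left hzp (fmem_mono hwq hz)
      refine ⟨(m, b), ?_, hzp⟩
      show (m, b) ∈ hfin.toFinset
      rw [Set.Finite.mem_toFinset]
      rcases h5 (m, b) with h | h
      · exact h
      · exact (h w (hwq.trans (hq.trans hp5)) hin).elim
    · intro hz
      refine fmem_dense (hz.imp ?_)
      rintro r hr ⟨x, hx, he⟩
      have hx' : x ∈ hfin.toFinset := hx
      rw [Set.Finite.mem_toFinset] at hx'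
      exact fmem_congr_left (feq_symm he) (fmem_mono ((hr.trans hq).trans hp5) hx')

theorem fc_cohen (hP : Distr P) (p : P) : Fc p (isCohenPoset (call P)) := by
  refine forces_ex.2 (Loc.pure fun q _ => ⟨oall P ℕ, ?_⟩)
  refine forces_ex.2 (Loc.pure fun r _ => ⟨mkPair (bnm P false) (bnm P true), omega_isOmega r,
    isTwo_name r, ?_⟩)
  intro f
  refine (forces_iff nf_basic).2 fun u hu => ?_
  constructor
  · intro h
    refine Forces.dense nf_basic ((fmem_mkAll.1 h).imp ?_)
    rintro v hv ⟨s, hs⟩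
    exact (fc_uni (cv (isFinPartFun 0 1 2) 3) 3
      (l := [oall P ℕ, mkPair (bnm P false) (bnm P true)])
      (l' := [oall P ℕ, mkPair (bnm P false) (bnm P true)])
      (.cons (feq_refl _ _) (.cons (feq_refl _ _) .nil)) hs le_rfl).2 (fc_finPart s v)
  · intro h
    refine fmem_mkAll.2 (fc_finPart_conv hP h)

end main

end Pool.Agent.Lib_helper27.Q
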