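import Pool.Agent.Lib_helper27.Q.Stmt

/-!
# Systems of tree relations indexed by conditions: the formulas
-/

namespace Pool.Agent.Lib_helper27.Fml

universe v

variable {U : Type v}

/-- `(((γ, i), (δ, j)), p) ∈ S` -/
def app5 (S γ i δ j p : U) : Fml U :=
  ex fun x => ex fun y => ex fun z =>
    and (isOPair x γ i) (and (isOPair y δ j) (and (isOPair z x y) (app S z p)))

/-- relations go up -/
def csA (S K L C : U) : Fml U :=
  ball L fun γ => ball K fun i => ball L fun δ => ball K fun j => ball C fun p =>
    imp (app5 S γ i δ j p) (mem γ δ)

/-- transitivity -/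
def csB (S K L C : U) : Fml U :=
  ball L fun γ => ball K fun i => ball L fun δ => ball K fun j => ball L fun ε => ball K fun k =>
    ball C fun p => imp (and (app5 S γ i δ j p) (app5 S δ j ε k p)) (app5 S γ i ε k p)

/-- predecessors are comparable -/
def csC (S K L C : U) : Fml U :=
  ball L fun γ => ball K fun i => ball L fun δ => ball K fun j => ball L fun ε => ball K fun k =>
    ball C fun p => imp (and (mem γ δ) (and (app5 S γ i ε k p) (app5 S δ j ε k p)))
      (app5 S γ i δ j p)

/-- predecessors are unique -/
def csD (S K L C : U) : Fml U :=
  ball L fun γ => ball K fun i => ball K fun j => ball L fun ε => ball K fun k => ball C fun p =>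
    imp (and (app5 S γ i ε k p) (app5 S γ j ε k p)) (eq i j)

/-- existence of predecessors -/
def csE (S K L C : U) : Fml U :=
  ball L fun δ => ball K fun j => ball δ fun γ => ball C fun p => bex C fun q =>
    and (isSubset p q) (bex K fun i => app5 S γ i δ j q)

/-- monotonicity -/
def csF (S K L C : U) : Fml U :=
  ball L fun γ => ball K fun i => ball L fun δ => ball K fun j => ball C fun p => ball C fun q =>
    imp (and (isSubset p q) (app5 S γ i δ j p)) (app5 S γ i δ j q)

/-- regularity -/
def csG (S K L C : U) : Fml U :=
  ball L fun γ => ball K fun i => ball L fun δ => ball K fun j => ball C fun p =>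
    imp (ball C fun q => imp (isSubset p q) (bex C fun r => and (isSubset q r)
      (app5 S γ i δ j r))) (app5 S γ i δ j p)

/-- `b` meets unboundedly many levels and is linearly ordered by the relation at `p` -/
def csHb (S K L p b : U) : Fml U :=
  and (ball L fun ε => bex L fun γ => and (neg (mem γ ε)) (bex K fun i => app b γ i))
    (ball L fun γ => ball L fun δ => ball K fun i => ball K fun j =>
      imp (and (mem γ δ) (and (app b γ i) (app b δ j))) (app5 S γ i δ j p))

/-- there are no branches -/
def csH (S K L C : U) : Fml U := neg (bex C fun p => ex fun b => csHb S K L p b)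

/-- `S` is a system of tree relations on `L × K`, indexed by the elements of `C` -/
def isCSys (S K L C : U) : Fml U :=
  and (csA S K L C) (and (csB S K L C) (and (csC S K L C) (and (csD S K L C) (and (csE S K L C)
    (and (csF S K L C) (and (csG S K L C) (csH S K L C)))))))

end Pool.Agent.Lib_helper27.Fml
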