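import Pool.Agent.Lib_helper27.Q.Clo

/-!
# No cofinal branch through the generic tree of names
-/

namespace Pool.Agent.Lib_helper27.Q

open Set Cardinal

/-- stage of the construction -/
structure KSt (t0 : Cnd) (Br : Om2 → Om1 → Cnd → Prop) : Type where
  t : Cnd
  γ : Om2
  i : Om1
  le : t ≤ t0
  ht : γ ≤ t.ht
  br : Br γ i t

theorem kill (t0 : Cnd) (V0 : Set Cs) (hV0 : IsOpen V0) (hne : V0.Nonempty)
    (Br : Om2 → Om1 → Cnd → Prop)
    (mono : ∀ γ i t t', t' ≤ t → Br γ i t → Br γ i t')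
    (unb : ∀ t ≤ t0, ∀ ε, ∃ t' ≤ t, ∃ γ, ε ≤ γ ∧ ∃ i, Br γ i t')
    (coh : ∀ t ≤ t0, ∀ γ δ i j, γ < δ → δ ≤ t.ht → Br γ i t → Br δ j t → ∀ c ∈ V0, ∀ ξ < γ,
      t.z γ i c ξ = t.z δ j c ξ) : False := by
  classical
  have step : ∀ s : KSt t0 Br, ∃ s' : KSt t0 Br, s'.t ≤ s.t ∧ s.t.ht < s'.γ := by
    intro s
    obtain ⟨ε, hε⟩ := exists_gt s.t.ht
    obtain ⟨t', ht', γ, hγ, i, hi⟩ := unb s.t s.le ε
    obtain ⟨t'', ht'', h1, _⟩ := exists_ext_gt t' γ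
    exact ⟨⟨t'', γ, i, ht''.trans (ht'.trans s.le), h1.le, mono _ _ _ _ ht'' hi⟩,
      ht''.trans ht', hε.trans_le hγ⟩
  have start : Nonempty (KSt t0 Br) := by
    obtain ⟨t', ht', γ, _, i, hi⟩ := unb t0 le_rfl t0.ht
    obtain ⟨t'', ht'', h1, _⟩ := exists_ext_gt t' γ
    exact ⟨⟨t'', γ, i, ht''.trans ht', h1.le, mono _ _ _ _ ht'' hi⟩⟩
  choose nx hnx using step
  obtain ⟨s0⟩ := start
  let S : ℕ → KSt t0 Br := fun n => Nat.rec s0 (fun _ s => nx s) n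
  have hS : ∀ n, S (n + 1) = nx (S n) := fun n => rfl
  have hle1 : ∀ n, (S (n + 1)).t ≤ (S n).t := fun n => hS n ▸ (hnx (S n)).1
  have hlt1 : ∀ n, (S n).t.ht < (S (n + 1)).γ := fun n => hS n ▸ (hnx (S n)).2
  have hle : ∀ m n, m ≤ n → (S n).t ≤ (S m).t := by
    intro m n hmn
    induction n, hmn using Nat.le_induction with
    | base => exact le_rfl
    | succ n _ ih => exact (hle1 n).trans ih
  have hγ1 : ∀ n, (S n).γ < (S (n + 1)).γ := fun n => (S n).ht.trans_lt (hlt1 n)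
  -- the new branch
  let C : ℕ → Nm := fun n => Nat.rec ((S 0).t.z (S 0).γ (S 0).i) (fun n x =>
    flipAt (S n).γ (glue (S n).γ x ((S (n + 1)).t.z (S (n + 1)).γ (S (n + 1)).i))) n
  have hC : ∀ n, C (n + 1) = flipAt (S n).γ (glue (S n).γ (C n)
    ((S (n + 1)).t.z (S (n + 1)).γ (S (n + 1)).i)) := fun n => rfl
  have hCin : ∀ n, LocIn (S n).γ ((S n).t.z (S n).γ) (C n) := by
    intro n
    induction n with
    | zero => exact locIn_self _ _ _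
    | succ n ih =>
      rw [hC]
      refine (S (n + 1)).t.flp _ (S (n + 1)).ht _ (hγ1 n) _ ?_
      refine (S (n + 1)).t.rep _ _ (hγ1 n).le (S (n + 1)).ht _ _ ?_ (locIn_self _ _ _)
      rw [(hle1 n).2 _ (S n).ht]
      exact ih
  have hCe1 : ∀ n, ∀ c, ∀ ξ < (S n).γ, C (n + 1) c ξ = C n c ξ := by
    intro n c ξ hξ
    rw [hC, flipAt_ne hξ.ne, glue_lt hξ]
  have hγm : ∀ m n, m ≤ n → (S m).γ ≤ (S n).γ := by
    intro m n hmn
    induction n, hmn using Nat.le_induction with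
    | base => exact le_rfl
    | succ n _ ih => exact ih.trans (hγ1 n).le
  have hCe : ∀ m n, m ≤ n → ∀ c, ∀ ξ < (S m).γ, C n c ξ = C m c ξ := by
    intro m n hmn c ξ hξ
    induction n, hmn using Nat.le_induction with
    | base => rfl
    | succ n hmn ih => rw [hCe1 n c ξ (hξ.trans_le (hγm m n hmn)), ih]
  have hcohC : ∀ i j, ∀ c, ∀ ξ, ξ < (S i).γ → ξ < (S j).γ → C i c ξ = C j c ξ := by
    intro i j c ξ hi hj
    rcases le_total i j with h | h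
    · exact (hCe i j h c ξ hi).symm
    · exact hCe j i h c ξ hj
  set Cω : Nm := unionNm (fun n => (S n).γ) C with hCω
  have hCωe : ∀ n c ξ, ξ < (S n).γ → Cω c ξ = C n c ξ := fun n c ξ hξ =>
    unionNm_eq (h := fun n => (S n).γ) (x := C) hcohC hξ c
  obtain ⟨s, h1, h2, h3, h4, h5⟩ := exists_limit (ι := ℕ) mk_nat_le (fun n => (S n).t)
    (fun i j γ hi hj => by
      rcases le_total i j with h | h
      · exact ((hle i j h).2 γ hi).symm
      · exact (hle j i h).2 γ hj)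
    (fun n => ⟨n + 1, (hlt1 n).trans_le (S (n + 1)).ht⟩)
    (fun _ => Cω)
    (fun _ n => by
      rw [← (hle1 n).2 _ le_rfl]
      refine (S (n + 1)).t.res _ (S (n + 1)).γ (hlt1 n).le (S (n + 1)).ht _ ?_
      exact (hCin (n + 1)).congr fun c ξ hξ => hCωe (n + 1) c ξ hξ)
  have hs0 : s ≤ t0 := (h1 0).trans (S 0).le
  obtain ⟨t', ht', γ', hγ', i', hi'⟩ := unb s hs0 s.ht
  obtain ⟨t'', ht'', hg, _⟩ := exists_ext_gt t' γ'
  have hi'' := mono _ _ _ _ ht'' hi'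
  have ht''s : t'' ≤ s := ht''.trans ht'
  have htop : Top s (t''.z γ' i') := by
    have := t''.res s.ht γ' hγ' hg.le _ (locIn_self _ _ i')
    rw [ht''s.2 _ le_rfl] at this
    exact this
  obtain ⟨V, hVU, hV, ⟨c, hc⟩, γ, hγ, _, hk⟩ := h5 _ htop V0 hV0 hne
  obtain ⟨n, hn⟩ := h3 γ hγ
  have hξ1 : (S (n + 1)).γ < s.ht := (S (n + 1)).ht.trans_lt (h2 (n + 1))
  have hξ2 : γ ≤ (S (n + 1)).γ := (hn.trans (hlt1 n)).le
  have e1 := hk c hc (S (n + 1)).γ hξ1 hξ2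
  rw [hCωe (n + 2) c _ (hγ1 (n + 1)), hC (n + 1), flipAt_self, glue_ge le_rfl] at e1
  have hbr : Br (S (n + 2)).γ (S (n + 2)).i t'' := mono _ _ _ _ (ht''s.trans (h1 (n + 2))) (S (n + 2)).br
  have hlt2 : (S (n + 2)).γ < γ' := ((S (n + 2)).ht.trans_lt (h2 (n + 2))).trans_le hγ'
  have e2 := coh t'' (ht''s.trans hs0) _ _ _ _ hlt2 hg.le hbr hi'' c (hVU hc) _ (hγ1 (n + 1))
  rw [(ht''s.trans (h1 (n + 2))).2 _ (S (n + 2)).ht] at e2
  rw [← e2] at e1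
  exact absurd e1 (by simp)

end Pool.Agent.Lib_helper27.Q
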