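import Pool.Agent.Lib_helper27.Q.Fus

/-!
# The fusion argument, continued
-/

namespace Pool.Agent.Lib_helper27.Q

open Set Cardinal

section

variable {t0 : Cnd} {x0 : Nm} {B : Om2 → Om1 → Cnd → Nm → Prop} (hB : BD t0 x0 B)

include hB in
/-- one step of the fusion -/
theorem fus_list {e : Set Cs} {tr : Cnd} {xr : Nm} (htr : tr ≤ t0) (hxr : Ext' t0.ht xr x0)
    (hg : Good B e tr xr) {t : Cnd} (ht : t ≤ tr) (l : List Nm)
    (hl : ∀ x ∈ l, Top t x ∧ Ext' tr.ht x xr) :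
    ∃ t' ≤ t, t.ht < t'.ht ∧ ∃ w0 w1, Top t' w0 ∧ Top t' w1 ∧
      (∀ c ∉ e, ∀ ξ < t'.ht, t.ht ≤ ξ → w0 c ξ = w1 c ξ) ∧
      ∀ x ∈ l, Diff B t' (glue t.ht x w0) (glue t.ht x w1) := by
  induction l with
  | nil =>
    obtain ⟨t', ht', _, h2⟩ := exists_ext_gt t t.ht
    obtain ⟨w, hw⟩ := exists_top t'
    exact ⟨t', ht', h2, w, w, hw, hw, fun _ _ _ _ _ => rfl, fun x hx => absurd hx List.not_mem_nil⟩
  | cons x l ih =>
    obtain ⟨t1, ht1, hlt1, w0, w1, hw0, hw1, hoff, hdiff⟩ := ih fun y hy => hl y (List.mem_cons_of_mem _ hy)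
    obtain ⟨hxt, hxe⟩ := hl x List.mem_cons_self
    have hy0 : Top t1 (glue t.ht x w0) := hxt.lift ht1 w0 hw0
    have hy1 : Top t1 (glue t.ht x w1) := hxt.lift ht1 w1 hw1
    have hey0 : Ext' tr.ht (glue t.ht x w0) xr := (ext'_glue t.ht x w0).trans hxe ht.1
    have hey1 : Ext' tr.ht (glue t.ht x w1) xr := (ext'_glue t.ht x w1).trans hxe ht.1
    obtain ⟨t3, ht3, v0, v1, hv0, hv1, hev0, hev1, hvoff, γ, i0, i1, hi, hb0, hb1⟩ :=
      hg t1 (ht1.trans ht) _ hy0 hey0
    have hy1' : Top t3 (glue t1.ht (glue t.ht x w1) v0) := hy1.lift ht3 v0 hv0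
    have h03 : t3 ≤ t0 := ht3.trans (ht1.trans (ht.trans htr))
    have hey1' : Ext' t0.ht (glue t1.ht (glue t.ht x w1) v0) x0 :=
      ((ext'_glue t1.ht (glue t.ht x w1) v0).trans hey1 (ht.1.trans ht1.1)).trans hxr htr.1
    obtain ⟨t4, ht4, τ, hτ, heτ, i', hb'⟩ := hB.tot h03 hy1' hey1' γ
    -- choose the first name
    obtain ⟨v, ik, hv, hev, hvo, hne, hbk⟩ : ∃ v ik, Top t3 v ∧ Ext' t1.ht v (glue t.ht x w0) ∧
        (∀ c ∉ e, ∀ ξ < t3.ht, v c ξ = v0 c ξ) ∧ ik ≠ i' ∧ B γ ik t3 v := by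
      by_cases h : i0 = i'
      · exact ⟨v1, i1, hv1, hev1, fun c hc ξ hξ => (hvoff c hc ξ hξ).symm,
          fun h' => hi (h.trans h'.symm), hb1⟩
      · exact ⟨v0, i0, hv0, hev0, fun _ _ _ _ => rfl, h, hb0⟩
    have hlt3 : t1.ht ≤ t3.ht := ht3.1
    have hlt4 : t3.ht ≤ t4.ht := ht4.1
    have hW0 : Top t4 (glue t1.ht w0 (glue t3.ht v τ)) := hw0.lift (ht4.trans ht3) _ (hv.lift ht4 τ hτ)
    have hW1 : Top t4 (glue t1.ht w1 (glue t3.ht v0 τ)) :=
      hw1.lift (ht4.trans ht3) _ (hv0.lift ht4 τ hτ)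
    refine ⟨t4, (ht4.trans ht3).trans ht1, hlt1.trans_le (hlt3.trans hlt4), _, _, hW0, hW1, ?_, ?_⟩
    · intro c hc ξ hξ hξt
      rcases lt_or_ge ξ t1.ht with h | h
      · rw [glue_lt h, glue_lt h]
        exact hoff c hc ξ h hξt
      · rw [glue_ge h, glue_ge h]
        rcases lt_or_ge ξ t3.ht with h' | h'
        · rw [glue_lt h', glue_lt h']
          exact hvo c hc ξ h'
        · rw [glue_ge h', glue_ge h']
    · intro y hy
      rcases List.mem_cons.1 hy with rfl | hy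
      · refine ⟨γ, ik, i', hne, ?_, ?_⟩
        · refine hB.mono hbk ht4 (hxt.lift ((ht4.trans ht3).trans ht1) _ hW0) ?_
          intro c ξ hξ
          rcases lt_or_ge ξ t.ht with h | h
          · rw [glue_lt h, hev c ξ (h.trans_le ht1.1), glue_lt h]
          · rw [glue_ge h]
            rcases lt_or_ge ξ t1.ht with h' | h'
            · rw [glue_lt h', hev c ξ h', glue_ge h]
            · rw [glue_ge h', glue_lt hξ]
        · refine hB.mono hb' le_rfl (hxt.lift ((ht4.trans ht3).trans ht1) _ hW1) ?_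
          intro c ξ hξ
          rcases lt_or_ge ξ t.ht with h | h
          · rw [glue_lt h, heτ c ξ (h.trans_le (ht1.1.trans hlt3)), glue_lt (h.trans_le ht1.1),
              glue_lt h]
          · rw [glue_ge h]
            rcases lt_or_ge ξ t1.ht with h' | h'
            · rw [glue_lt h', heτ c ξ (h'.trans_le hlt3), glue_lt h', glue_ge h]
            · rw [glue_ge h']
              rcases lt_or_ge ξ t3.ht with h'' | h''
              · rw [glue_lt h'', heτ c ξ h'', glue_ge h']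
              · rw [glue_ge h'']
      · have hyt := (hl y (List.mem_cons_of_mem _ hy)).1
        refine Diff.mono hB (hdiff y hy) (ht4.trans ht3) (hyt.lift ((ht4.trans ht3).trans ht1) _ hW0)
          (hyt.lift ((ht4.trans ht3).trans ht1) _ hW1) ?_ ?_
        · intro c ξ hξ
          rcases lt_or_ge ξ t.ht with h | h
          · rw [glue_lt h, glue_lt h]
          · rw [glue_ge h, glue_ge h, glue_lt hξ]
        · intro c ξ hξ
          rcases lt_or_ge ξ t.ht with h | h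
          · rw [glue_lt h, glue_lt h]
          · rw [glue_ge h, glue_ge h, glue_lt hξ]

/-- stages of the fusion -/
structure FSt (tr : Cnd) (xr : Nm) (B : Om2 → Om1 → Cnd → Nm → Prop) (r : Cs) (n : ℕ) : Type where
  t : Cnd
  X : Cs → Nm
  le : t ≤ tr
  top : ∀ f, Top t (X f)
  ext : ∀ f, Ext' tr.ht (X f) xr
  dep : ∀ f g : Cs, (∀ k < n, f k = g k) → X f = X g
  am : ∀ m ≤ n, ∀ f g : Cs, (∀ k < m, f k = g k) → ∀ c, c ∉ cyl r (m + 1) → c ∈ cyl r m →
    ∀ ξ < t.ht, X f c ξ = X g c ξ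
  diff : ∀ f g : Cs, (∃ k < n, f k ≠ g k) → Diff B t (X f) (X g)

/-- extend a finite sequence by `false` -/
def pad {n : ℕ} (s : Fin n → Bool) : Cs := fun k => if h : k < n then s ⟨k, h⟩ else false

theorem pad_lt {n : ℕ} (f : Cs) {k : ℕ} (hk : k < n) : pad (fun i : Fin n => f i) k = f k := by
  simp [pad, hk]

include hB in
theorem fus_step {tr : Cnd} {xr : Nm} (htr : tr ≤ t0) (hxr : Ext' t0.ht xr x0) {r : Cs}
    (hg : ∀ n, Good B (cyl r n) tr xr) {n : ℕ} (s : FSt tr xr B r n) :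
    ∃ s' : FSt tr xr B r (n + 1), s'.t ≤ s.t ∧ s.t.ht < s'.t.ht ∧ ∀ f, Ext' s.t.ht (s'.X f) (s.X f) := by
  classical
  obtain ⟨t', ht', hlt, w0, w1, hw0, hw1, hoff, hdiff⟩ := fus_list hB htr hxr (hg (n + 1)) s.le
    ((Finset.univ : Finset (Fin n → Bool)).toList.map fun σ => s.X (pad σ)) (by
      intro x hx
      obtain ⟨σ, _, rfl⟩ := List.mem_map.1 hx
      exact ⟨s.top _, s.ext _⟩)
  have hX : ∀ f : Cs, s.X f = s.X (pad fun i : Fin n => f i) := fun f =>
    s.dep _ _ fun k hk => (pad_lt f hk).symm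
  have hd : ∀ f : Cs, Diff B t' (glue s.t.ht (s.X f) w0) (glue s.t.ht (s.X f) w1) := by
    intro f
    rw [hX f]
    exact hdiff _ (List.mem_map.2 ⟨_, by simp, rfl⟩)
  let W : Bool → Nm := fun b => if b then w1 else w0
  have hW : ∀ b, Top t' (W b) := fun b => by cases b <;> simp [W, hw0, hw1]
  have hWoff : ∀ b b', ∀ c ∉ cyl r (n + 1), ∀ ξ < t'.ht, s.t.ht ≤ ξ → W b c ξ = W b' c ξ := by
    intro b b' c hc ξ h1 h2
    cases b <;> cases b' <;> simp only [W, if_true, if_false, Bool.false_eq_true]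
    · exact hoff c hc ξ h1 h2
    · exact (hoff c hc ξ h1 h2).symm
  refine ⟨⟨t', fun f => glue s.t.ht (s.X f) (W (f n)), ht'.trans s.le,
    fun f => (s.top f).lift ht' _ (hW _), fun f => (ext'_glue _ _ _).trans (s.ext f) s.le.1,
    ?_, ?_, ?_⟩, ht', hlt, fun f => ext'_glue _ _ _⟩
  · intro f g h
    have h1 : s.X f = s.X g := s.dep f g fun k hk => h k (hk.trans (Nat.lt_succ_self n))
    simp only [h1, h n (Nat.lt_succ_self n)]
  · intro m hm f g h c hc1 hc2 ξ hξ
    rcases Nat.lt_succ_iff_lt_or_eq.1 (Nat.lt_succ_of_le hm) with hlt' | rfl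
    · have hmn : m ≤ n := Nat.lt_succ_iff.1 hlt'
      rcases lt_or_ge ξ s.t.ht with h1 | h1
      · simp only [glue_lt h1]
        exact s.am m hmn f g h c hc1 hc2 ξ h1
      · simp only [glue_ge h1]
        exact hWoff _ _ c (fun hcc => hc1 (cyl_anti r (Nat.succ_le_succ hmn) hcc)) ξ hξ h1
    · have h1 : s.X f = s.X g := s.dep f g fun k hk => h k (hk.trans (Nat.lt_succ_self n))
      simp only [h1, h n (Nat.lt_succ_self n)]
  · rintro f g ⟨k, hk, hfg⟩
    by_cases hex : ∃ k < n, f k ≠ g k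
    · exact Diff.mono hB (s.diff f g hex) ht' ((s.top f).lift ht' _ (hW _))
        ((s.top g).lift ht' _ (hW _)) (ext'_glue _ _ _) (ext'_glue _ _ _)
    · push Not at hex
      have hkn : k = n := by
        rcases Nat.lt_succ_iff_lt_or_eq.1 hk with h | h
        · exact (hfg (hex k h)).elim
        · exact h
      subst hkn
      have h1 : s.X f = s.X g := s.dep f g hex
      simp only [h1]
      cases hf : f k <;> cases hgk : g k
      · exact (hfg (hf.trans hgk.symm)).elim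
      · simp only [W, if_true, if_false, Bool.false_eq_true]
        exact hd g
      · simp only [W, if_true, if_false, Bool.false_eq_true]
        exact (hd g).symm
      · exact (hfg (hf.trans hgk.symm)).elim

include hB in
/-- **The fusion theorem.** -/
theorem fusion (h2 : aleph 2 ≤ (2 : Cardinal.{0}) ^ ℵ₀) : ∃ (t : Cnd) (x y : Nm) (γ γ' : Om2)
    (i j k : Om1), t ≤ t0 ∧ γ < γ' ∧ j ≠ k ∧ B γ j t x ∧ B γ k t y ∧ B γ' i t x ∧ B γ' i t y := by
  classical
  obtain ⟨tr, htr, xr, hxr, hexr, r, hg⟩ := exists_real hB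
  have start : FSt tr xr B r 0 := by
    refine ⟨tr, fun _ => xr, le_rfl, fun _ => hxr, fun _ => Ext'.refl _ _, fun _ _ _ => rfl,
      fun _ _ _ _ _ _ _ _ _ _ => rfl, ?_⟩
    rintro f g ⟨k, hk, _⟩
    exact absurd hk (Nat.not_lt_zero k)
  choose nx hnx1 hnx2 hnx3 using fun n (s : FSt tr xr B r n) => fus_step hB htr hexr hg s
  let S : ∀ n, FSt tr xr B r n := fun n => Nat.rec start (fun n s => nx n s) n
  have hS : ∀ n, S (n + 1) = nx n (S n) := fun n => rfl
  have hle1 : ∀ n, (S (n + 1)).t ≤ (S n).t := fun n => hS n ▸ hnx1 n (S n)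
  have hlt1 : ∀ n, (S n).t.ht < (S (n + 1)).t.ht := fun n => hS n ▸ hnx2 n (S n)
  have hex1 : ∀ n f, Ext' (S n).t.ht ((S (n + 1)).X f) ((S n).X f) := fun n => hS n ▸ hnx3 n (S n)
  have hle : ∀ m n, m ≤ n → (S n).t ≤ (S m).t := by
    intro m n hmn
    induction n, hmn using Nat.le_induction with
    | base => exact le_rfl
    | succ n _ ih => exact (hle1 n).trans ih
  have hex : ∀ m n, m ≤ n → ∀ f, Ext' (S m).t.ht ((S n).X f) ((S m).X f) := by
    intro m n hmn f
    induction n, hmn using Nat.le_induction with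
    | base => exact Ext'.refl _ _
    | succ n hmn ih => exact (hex1 n f).trans ih (hle m n hmn).1
  have hcoh : ∀ f : Cs, ∀ i j, ∀ c, ∀ ξ, ξ < (S i).t.ht → ξ < (S j).t.ht →
      (S i).X f c ξ = (S j).X f c ξ := by
    intro f i j c ξ hi hj
    rcases le_total i j with h | h
    · exact (hex i j h f c ξ hi).symm
    · exact hex j i h f c ξ hj
  let Xω : Cs → Nm := fun f => unionNm (fun n => (S n).t.ht) fun n => (S n).X f
  have hXω : ∀ f n c ξ, ξ < (S n).t.ht → Xω f c ξ = (S n).X f c ξ := fun f n c ξ hξ =>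
    unionNm_eq (h := fun n => (S n).t.ht) (x := fun n => (S n).X f) (hcoh f) hξ c
  -- generators of the top level
  let I := Σ n : ℕ, (Fin n → Bool)
  have hI : #(range fun p : I => Xω (pad p.2)) ≤ aleph 1 :=
    (mk_range_le.trans (mk_le_aleph0 (α := I))).trans aleph0_le_aleph1
  obtain ⟨β, hβ⟩ := exists_enum hI ⟨_, ⟨0, Fin.elim0⟩, rfl⟩
  have hβ1 : ∀ j, ∃ f, β j = Xω f := by
    intro j
    have : β j ∈ range β := ⟨j, rfl⟩
    rw [hβ] at this
    obtain ⟨p, hp⟩ := this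
    exact ⟨_, hp.symm⟩
  have hβ2 : ∀ n (f : Cs), ∃ j, β j = Xω (pad fun i : Fin n => f i) := by
    intro n f
    have : Xω (pad fun i : Fin n => f i) ∈ range β := by
      rw [hβ]
      exact ⟨⟨n, _⟩, rfl⟩
    exact this
  obtain ⟨s, h1, hs2, h3, h4, _⟩ := exists_limit (ι := ℕ) mk_nat_le (fun n => (S n).t)
    (fun i j γ hi hj => by
      rcases le_total i j with h | h
      · exact ((hle i j h).2 γ hi).symm
      · exact (hle j i h).2 γ hj)
    (fun n => ⟨n + 1, hlt1 n⟩) β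
    (fun j n => by
      obtain ⟨f, hf⟩ := hβ1 j
      rw [hf]
      exact ((S n).top f).congr fun c ξ hξ => hXω f n c ξ hξ)
  have hs0 : s ≤ t0 := ((h1 0).trans (S 0).le).trans htr
  have htop : ∀ f, Top s (Xω f) := by
    intro f
    refine h4 _ fun U hU hne => ?_
    -- a point of `U` different from `r`
    have hpt : ∃ c ∈ U, c ≠ r := by
      by_contra hcon
      push Not at hcon
      obtain ⟨c0, hc0⟩ := hne
      have hrU : r ∈ U := hcon c0 hc0 ▸ hc0
      obtain ⟨I, u, hu, hsub⟩ := isOpen_pi_iff.1 hU r hrU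
      obtain ⟨k, hk⟩ := Infinite.exists_notMem_finset I
      have : Function.update r k (!(r k)) ∈ U := by
        refine hsub fun a ha => ?_
        have hne : a ≠ k := fun h => hk (h ▸ Finset.mem_coe.1 ha)
        rw [Function.update_of_ne hne]
        exact (hu a ha).2
      have h5 := hcon _ this
      have h6 := congrFun h5 k
      rw [Function.update_self] at h6
      exact absurd h6 (by simp)
    obtain ⟨c, hcU, hcr⟩ := hpt
    have hex : ∃ k, c k ≠ r k := by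
      by_contra hcon
      push Not at hcon
      exact hcr (funext hcon)
    let m := Nat.find hex
    have hm1 : c ∈ cyl r m := fun k hk => by
      by_contra hcon
      exact Nat.find_min hex hk hcon
    have hm2 : c ∉ cyl r (m + 1) := fun h => Nat.find_spec hex (h m (Nat.lt_succ_self m))
    obtain ⟨j, hj⟩ := hβ2 m f
    refine ⟨U ∩ (cyl r m ∩ (cyl r (m + 1))ᶜ), inter_subset_left,
      hU.inter ((isClopen_cyl r m).isOpen.inter (isClopen_cyl r (m + 1)).compl.isOpen),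
      ⟨c, hcU, hm1, hm2⟩, j, ?_⟩
    intro c' hc' ξ hξ
    obtain ⟨n, hn⟩ := h3 ξ hξ
    have hn' : ξ < (S (max m n)).t.ht := hn.trans_le (hle n _ (le_max_right _ _)).1
    rw [hj, hXω f _ c' ξ hn', hXω _ _ c' ξ hn']
    exact (S (max m n)).am m (le_max_left _ _) _ _ (fun k hk => (pad_lt f hk).symm) c' hc'.2.2
      hc'.2.1 ξ hn'
  -- bound for the levels at which the branches are separated
  have hdiff : ∀ p : Σ n : ℕ, (Fin n → Bool) × (Fin n → Bool), ∃ γ : Om2,
      (∃ k < p.1, pad p.2.1 k ≠ pad p.2.2 k) → ∃ i j, i ≠ j ∧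
        B γ i (S p.1).t ((S p.1).X (pad p.2.1)) ∧ B γ j (S p.1).t ((S p.1).X (pad p.2.2)) := by
    rintro ⟨n, σ, σ'⟩
    by_cases h : ∃ k < n, pad σ k ≠ pad σ' k
    · obtain ⟨γ, i, j, h1, h2, h3⟩ := (S n).diff _ _ h
      exact ⟨γ, fun _ => ⟨i, j, h1, h2, h3⟩⟩
    · exact ⟨Classical.arbitrary Om2, fun h' => (h h').elim⟩
  choose G hG using hdiff
  obtain ⟨γ', hγ'⟩ := om2_bdd_range (ι := Σ n : ℕ, (Fin n → Bool) × (Fin n → Bool))
    ((mk_le_aleph0).trans aleph0_le_aleph1) G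
  have hsep : ∀ f g : Cs, f ≠ g → ∃ γ < γ', ∃ i j, i ≠ j ∧ B γ i s (Xω f) ∧ B γ j s (Xω g) := by
    intro f g hfg
    have hex : ∃ k, f k ≠ g k := by
      by_contra hcon
      push Not at hcon
      exact hfg (funext hcon)
    obtain ⟨k, hk⟩ := hex
    let n := k + 1
    have hpf : ∀ f : Cs, (S n).X f = (S n).X (pad fun i : Fin n => f i) := fun f =>
      (S n).dep _ _ fun k hk => (pad_lt f hk).symm
    obtain ⟨i, j, hij, hb1, hb2⟩ := hG ⟨n, fun i => f i, fun i => g i⟩ ⟨k, Nat.lt_succ_self k, by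
      rw [pad_lt f (Nat.lt_succ_self k), pad_lt g (Nat.lt_succ_self k)]
      exact hk⟩
    refine ⟨_, hγ' ⟨n, fun i => f i, fun i => g i⟩, i, j, hij, ?_, ?_⟩
    · refine hB.mono hb1 (h1 n) (htop f) fun c ξ hξ => ?_
      rw [hXω f n c ξ hξ]
      exact congrArg (fun x : Nm => x c ξ) (hpf f)
    · refine hB.mono hb2 (h1 n) (htop g) fun c ξ hξ => ?_
      rw [hXω g n c ξ hξ]
      exact congrArg (fun x : Nm => x c ξ) (hpf g)
  -- the function `f ↦` value of the branch at level `γ'`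
  let F : Cs → Om1 → Cnd → Prop := fun f i t' => t' ≤ s ∧ ∃ x', Top t' x' ∧ Ext' s.ht x' (Xω f) ∧
    B γ' i t' x'
  have hext0 : ∀ f, Ext' t0.ht (Xω f) x0 := by
    intro f c ξ hξ
    have hξ0 : ξ < (S 0).t.ht := hξ.trans_le (htr.1.trans (S 0).le.1)
    rw [hXω f 0 c ξ hξ0, (S 0).ext f c ξ (hξ.trans_le htr.1)]
    exact hexr c ξ hξ
  have hFmono : ∀ f i t' t'', t'' ≤ t' → F f i t' → F f i t'' := by
    rintro f i t' t'' ht'' ⟨h1, x', hx', he, hb⟩
    obtain ⟨y, hy⟩ := exists_top t''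
    refine ⟨ht''.trans h1, glue t'.ht x' y, hx'.lift ht'' y hy,
      (ext'_glue _ _ _).trans he h1.1, hB.mono hb ht'' (hx'.lift ht'' y hy) (ext'_glue _ _ _)⟩
  have hFtot : ∀ f t', t' ≤ s → ∃ t'' ≤ t', ∃ i, F f i t'' := by
    intro f t' ht'
    obtain ⟨y, hy⟩ := exists_top t'
    have h5 : Top t' (glue s.ht (Xω f) y) := (htop f).lift ht' y hy
    obtain ⟨t'', ht'', x', hx', he, i, hb⟩ := hB.tot (ht'.trans hs0) h5
      ((ext'_glue _ _ _).trans (hext0 f) hs0.1) γ'
    exact ⟨t'', ht'', i, ht''.trans ht', x', hx', he.trans (ext'_glue _ _ _) ht'.1, hb⟩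
  by_cases hfin : ∃ f g i t', f ≠ g ∧ F f i t' ∧ F g i t'
  · obtain ⟨f, g, i, t', hfg, ⟨hts, x', hx', hex', hbx⟩, ⟨_, y', hy', hey', hby⟩⟩ := hfin
    obtain ⟨γ, hγ, j, k, hjk, hbj, hbk⟩ := hsep f g hfg
    exact ⟨t', x', y', γ, γ', i, j, k, hts.trans hs0, hγ, hjk, hB.mono hbj hts hx' hex',
      hB.mono hbk hts hy' hey', hbx, hby⟩
  · exfalso
    push Not at hfin
    obtain ⟨t1, ht1, hE⟩ := distr_Cnd (fun i => {t | (∃ f, F f i t) ∨ ∀ t' ≤ t, ¬ ∃ f, F f i t'})
      (fun i t => by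
        by_cases h : ∃ t' ≤ t, ∃ f, F f i t'
        · obtain ⟨t', ht', h⟩ := h
          exact ⟨t', ht', Or.inl h⟩
        · push Not at h
          exact ⟨t, le_rfl, Or.inr fun t' ht' ⟨f, hf⟩ => h t' ht' f hf⟩)
      (fun i t ht t' ht' => by
        rcases ht with ⟨f, hf⟩ | h
        · exact Or.inl ⟨f, hFmono f i t t' ht' hf⟩
        · exact Or.inr fun t'' ht'' => h t'' (ht''.trans ht')) s
    have hsel : ∀ i, ∃ f : Cs, (∃ g, F g i t1) → F f i t1 := by
      intro i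
      by_cases h : ∃ g, F g i t1
      · obtain ⟨g, hg⟩ := h
        exact ⟨g, fun _ => hg⟩
      · exact ⟨r, fun h' => (h h').elim⟩
    choose φ hφ using hsel
    have hns : ¬ Function.Surjective φ := by
      intro hsurj
      have h5 := mk_le_of_surjective hsurj
      rw [mk_om1] at h5
      have h6 : #Cs = (2 : Cardinal.{0}) ^ ℵ₀ := by simp
      rw [h6] at h5
      have h7 := h2.trans h5
      rw [aleph2_eq] at h7
      exact absurd h7 (not_le.2 (Order.lt_succ _))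
    unfold Function.Surjective at hns
    push Not at hns
    obtain ⟨f, hf⟩ := hns
    obtain ⟨t2, ht2, i, hFi⟩ := hFtot f t1 ht1
    rcases hE i with h5 | h5
    · have h6 := hφ i h5
      exact hfin (φ i) f i t2 (hf i) (hFmono _ _ _ _ ht2 h6) hFi
    · exact h5 t2 ht2 ⟨f, hFi⟩

end

end Pool.Agent.Lib_helper27.Q
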