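import Pool.Agent.Lib_helper27.Q.Stmt
import Pool.Agent.Lib_helper27.Sem

/-!
# Normal form of an `ω₂`-Aronszajn tree, in a model of ZFC
-/

set_option linter.unusedSectionVars false
set_option linter.unusedVariables false

namespace Pool.Agent.Lib_helper27

universe u v w v'

open Fml

namespace ST

variable {M : Type u} [SetStr M] [ZFC M]

theorem holds_app4 {S γ i δ j : M} :
    Holds (EE M) (app4 S γ i δ j) ↔ opair (opair γ i) (opair δ j) ∈ S := by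
  unfold app4
  simp only [holds_ex, holds_and, holds_opair, holds_app]
  constructor
  · rintro ⟨x, y, rfl, rfl, h⟩
    exact h
  · intro h
    exact ⟨_, _, rfl, rfl, h⟩

/-- relation -/
abbrev R4 (S γ i δ j : M) : Prop := opair (opair γ i) (opair δ j) ∈ S

theorem holds_isSys {S K L : M} : Holds (EE M) (isSys S K L) ↔
    (∀ γ, γ ∈ L → ∀ i, i ∈ K → ∀ δ, δ ∈ L → ∀ j, j ∈ K → R4 S γ i δ j → γ ∈ δ) ∧
    (∀ γ, γ ∈ L → ∀ i, i ∈ K → ∀ δ, δ ∈ L → ∀ j, j ∈ K → ∀ ε, ε ∈ L → ∀ k, k ∈ K →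
      R4 S γ i δ j ∧ R4 S δ j ε k → R4 S γ i ε k) ∧
    (∀ γ, γ ∈ L → ∀ i, i ∈ K → ∀ δ, δ ∈ L → ∀ j, j ∈ K → ∀ ε, ε ∈ L → ∀ k, k ∈ K →
      γ ∈ δ ∧ R4 S γ i ε k ∧ R4 S δ j ε k → R4 S γ i δ j) ∧
    (∀ γ, γ ∈ L → ∀ i, i ∈ K → ∀ j, j ∈ K → ∀ ε, ε ∈ L → ∀ k, k ∈ K →
      R4 S γ i ε k ∧ R4 S γ j ε k → i = j) ∧
    (∀ δ, δ ∈ L → ∃ j, j ∈ K ∧ ∀ γ, γ ∈ δ → ∃ i, i ∈ K ∧ R4 S γ i δ j) := by
  unfold isSys R4
  simp only [holds_and, holds_ball, holds_bex, holds_imp, holds_app4, holds_mem, holds_eq, mem_def]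

theorem holds_isBr {S K L b : M} : Holds (EE M) (isBr S K L b) ↔
    ((∀ z, z ∈ b → ∃ x, x ∈ L ∧ ∃ y, y ∈ K ∧ z = opair x y) ∧
    (∀ x, x ∈ L → ∃ y, y ∈ K ∧ opair x y ∈ b) ∧
    (∀ x y y', opair x y ∈ b ∧ opair x y' ∈ b → y = y')) ∧
    (∀ γ, γ ∈ L → ∀ δ, δ ∈ L → ∀ i, i ∈ K → ∀ j, j ∈ K →
      γ ∈ δ ∧ opair γ i ∈ b ∧ opair δ j ∈ b → R4 S γ i δ j) := by
  unfold isBr R4
  simp only [holds_and, holds_ball, holds_imp, holds_app4, holds_mem, mem_def, holds_isFunc,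
    holds_app]

/-- the tree axioms, semantically -/
structure TreeM (T R : M) : Prop where
  sub : ∀ z, z ∈ R → ∃ x, x ∈ T ∧ ∃ y, y ∈ T ∧ z = opair x y
  irr : ∀ x, x ∈ T → ¬ opair x x ∈ R
  tr : ∀ x, x ∈ T → ∀ y, y ∈ T → ∀ z, z ∈ T → opair x y ∈ R ∧ opair y z ∈ R → opair x z ∈ R
  lin : ∀ t, t ∈ T → ∀ x, x ∈ T → ∀ y, y ∈ T → opair x t ∈ R ∧ opair y t ∈ R →
    opair x y ∈ R ∨ x = y ∨ opair y x ∈ R
  wf : ∀ t, t ∈ T → ∀ A : M, (∀ x, x ∈ A → x ∈ T ∧ opair x t ∈ R) ∧ (∃ x, x ∈ A) →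
    ∃ x, x ∈ A ∧ ∀ y, y ∈ A → x = y ∨ opair x y ∈ R

theorem holds_isTree {T R : M} : Holds (EE M) (isTree T R) ↔ TreeM T R := by
  unfold isTree
  simp only [holds_and, holds_ball, holds_bex, holds_imp, holds_opair, holds_app, holds_neg,
    holds_or, holds_all, holds_ex, holds_mem, holds_eq, mem_def]
  constructor
  · rintro ⟨h1, h2, h3, h4⟩
    exact ⟨h1, h2, h3, fun t ht => (h4 t ht).1, fun t ht => (h4 t ht).2⟩
  · rintro ⟨h1, h2, h3, h4, h5⟩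
    exact ⟨h1, h2, h3, fun t ht => ⟨h4 t ht, h5 t ht⟩⟩

theorem holds_isHeight {T R k h : M} : Holds (EE M) (isHeight T R k h) ↔
    ((∀ z, z ∈ h → ∃ x, x ∈ T ∧ ∃ y, y ∈ k ∧ z = opair x y) ∧
    (∀ x, x ∈ T → ∃ y, y ∈ k ∧ opair x y ∈ h) ∧
    (∀ x y y', opair x y ∈ h ∧ opair x y' ∈ h → y = y')) ∧
    (∀ t, t ∈ T → ∀ d, opair t d ∈ h → ∀ c, c ∈ d ↔ ∃ s, s ∈ T ∧ opair s t ∈ R ∧ opair s c ∈ h) ∧
    (∀ a, a ∈ k → ∃ t, t ∈ T ∧ opair t a ∈ h) := by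
  unfold isHeight
  simp only [holds_and, holds_ball, holds_bex, holds_imp, holds_app, holds_iff, holds_all,
    holds_mem, mem_def, holds_isFunc]

theorem holds_isCofBranch {T R k h B : M} : Holds (EE M) (isCofBranch T R k h B) ↔
    (∀ x, x ∈ B → x ∈ T) ∧
    (∀ x, x ∈ B → ∀ y, y ∈ B → opair x y ∈ R ∨ x = y ∨ opair y x ∈ R) ∧
    (∀ a, a ∈ k → ∃ t, t ∈ B ∧ opair t a ∈ h) := by
  unfold isCofBranch
  simp only [holds_and, holds_ball, holds_bex, holds_app, holds_or, holds_eq, mem_def,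
    holds_isSubset]

theorem holds_levelInj {T h K a : M} : Holds (EE M) (levelInj T h K a) ↔
    ∃ S : M, (∀ t, t ∈ S ↔ t ∈ T ∧ opair t a ∈ h) ∧ Inj S K := by
  unfold levelInj Inj
  simp only [holds_and, holds_ex, holds_all, holds_iff, holds_mem, mem_def, holds_app, holds_isInj]

theorem holds_isAronszajn {K L T R h : M} : Holds (EE M) (isAronszajn K L T R h) ↔
    TreeM T R ∧ Holds (EE M) (isHeight T R L h) ∧ (∀ a, a ∈ L → ∃ S : M,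
      (∀ t, t ∈ S ↔ t ∈ T ∧ opair t a ∈ h) ∧ Inj S K) ∧
      ¬ ∃ B, Holds (EE M) (isCofBranch T R L h B) := by
  unfold isAronszajn
  simp only [holds_and, holds_isTree, holds_ball, holds_levelInj, holds_neg, holds_ex, mem_def]

/-- least ordinal not injecting -/
abbrev Hart (a b : M) : Prop := IsOrd b ∧ ¬ Inj b a ∧ ∀ c, c ∈ b → Inj c a

theorem Hart.unique {a b b' : M} (h : Hart a b) (h' : Hart a b') : b = b' := by
  rcases h.1.tri' h'.1 with h1 | h1 | h1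
  · exact (h.2.1 (h'.2.2 b h1)).elim
  · exact h1
  · exact (h'.2.1 (h.2.2 b' h1)).elim

theorem holds_aronszajn : Holds (EE M) (aronszajn : Fml M) ↔ ∃ K L : M, Hart omega K ∧ Hart K L ∧
    ∃ T R h, Holds (EE M) (isAronszajn K L T R h) := by
  unfold aronszajn
  simp only [holds_and, holds_ex, holds_isOmega, holds_isHartogs]
  constructor
  · rintro ⟨W, K, L, rfl, h1, h2, T, R, h, h3⟩
    exact ⟨K, L, h1, h2, T, R, h, h3⟩
  · rintro ⟨K, L, h1, h2, T, R, h, h3⟩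
    exact ⟨omega, K, L, rfl, h1, h2, T, R, h, h3⟩

theorem Hart.infOrd {b : M} (h : Hart omega b) : InfOrd b := by
  rcases h.1.inf_or_nat with h1 | h1
  · exact h1
  · exact (h.2.1 (Inj.of_subset fun x hx => isOrd_omega.trans h1 hx)).elim

theorem Hart.mem {a b : M} (ha : IsOrd a) (h : Hart a b) : a ∈ b := by
  rcases ha.tri' h.1 with h1 | h1 | h1
  · exact h1
  · exact (h.2.1 (h1 ▸ Inj.refl _)).elim
  · exact (h.2.1 (Inj.of_subset fun x hx => ha.trans h1 hx)).elim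

theorem Hart.succ_mem {a b : M} (ha : InfOrd a) (h : Hart a b) {γ : M} (hγ : γ ∈ b) :
    succ γ ∈ b := by
  have hab := h.mem ha.1
  have hγo := h.1.mem hγ
  rcases (IsOrd.succ hγo).tri' h.1 with h1 | h1 | h1
  · exact h1
  · exfalso
    rcases hγo.inf_or_nat with h2 | h2
    · exact h.2.1 (h1 ▸ h2.succ_inj.trans (h.2.2 γ hγ))
    · have h3 : a ∈ succ γ := h1 ▸ hab
      have h4 : a ∈ (omega : M) := by
        rcases mem_succ.1 h3 with h5 | h5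
        · exact isOrd_omega.trans h2 h5
        · exact h5 ▸ h2
      exact mem_irrefl a (ha.2 a h4)
  · exfalso
    rcases mem_succ.1 h1 with h2 | h2
    · exact mem_asymm h2 hγ
    · exact mem_irrefl γ (h2 ▸ hγ)

theorem Hart.infOrd' {a b : M} (ha : InfOrd a) (h : Hart a b) : InfOrd b :=
  ⟨h.1, fun x hx => h.1.trans (h.mem ha.1) (ha.2 x hx)⟩

section stepA

variable {K L T R h : M}

/-- An Aronszajn tree gives a tree relation without branches. -/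
theorem norm_sys (hK : InfOrd K) (hKL : Hart K L) (hA : Holds (EE M) (isAronszajn K L T R h)) :
    ∃ S : M, Holds (EE M) (isSys S K L) ∧ ¬ ∃ b, Holds (EE M) (isBr S K L b) := by
  rw [holds_isAronszajn] at hA
  obtain ⟨hT, hh, hlev, hnb⟩ := hA
  obtain ⟨⟨hh1, hh2, hh3⟩, hh4, hh5⟩ := holds_isHeight.1 hh
  have hgt : ∀ t, t ∈ T → fapp h t ∈ L ∧ opair t (fapp h t) ∈ h := by
    intro t ht
    obtain ⟨y, hy, hty⟩ := hh2 t ht
    have : fapp h t = y := iota_eq hty fun z hz => hh3 t z y ⟨hz, hty⟩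
    rw [this]
    exact ⟨hy, hty⟩
  have hgt' : ∀ t a, opair t a ∈ h → fapp h t = a := fun t a hta =>
    iota_eq hta fun z hz => hh3 t z a ⟨hz, hta⟩
  have hmemT : ∀ t a, opair t a ∈ h → t ∈ T := by
    intro t a hta
    obtain ⟨x, hx, y, _, he⟩ := hh1 _ hta
    rw [(opair_inj.1 he).1]
    exact hx
  have hsm : ∀ a : M, Small (fun t => t ∈ T ∧ opair t a ∈ h) := fun a =>
    small_sep (D := fun t => opair t a ∈ h) (by fun_prop) T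
  have hlv : Dbl M (fun a : M => comp (fun t => t ∈ T ∧ opair t a ∈ h)) :=
    dbl_comp hsm (by fun_prop)
  obtain ⟨φ, hφ, hφ'⟩ := choice_fun (M := M)
    (R := fun a f => IsInjSet f (comp (fun t => t ∈ T ∧ opair t a ∈ h)) K)
    (by
      have : Dbl M (fun z : M × M => comp (fun t => t ∈ T ∧ opair t z.1 ∈ h)) :=
        Dbl.comp (f := fun z : M × M => z.1)
          (g := fun a : M => comp (fun t => t ∈ T ∧ opair t a ∈ h)) (by fun_prop) hlv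
      fun_prop)
    (a := L) (b := power (prod T K)) (by
      intro a ha
      obtain ⟨S, hS, f, hf⟩ := hlev a ha
      have hSe : comp (fun t => t ∈ T ∧ opair t a ∈ h) = S := (comp_eq_iff (hsm a)).2 hS
      refine ⟨f, ?_, by rw [hSe]; exact hf⟩
      rw [mem_power]
      intro z hz
      obtain ⟨x, hx, y, hy, rfl⟩ := hf.1.1 z hz
      exact opair_mem_prod.2 ⟨((hS x).1 hx).1, hy⟩)
  have hmlv : ∀ a t, t ∈ comp (fun t => t ∈ T ∧ opair t a ∈ h) ↔ t ∈ T ∧ opair t a ∈ h :=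
    fun a t => mem_comp (hsm a)
  -- index of a node
  let idx : M → M := fun t => fapp (φ (fapp h t)) t
  have hidx : Dbl M idx := by
    have := hφ
    fun_prop
  have hidxK : ∀ t, t ∈ T → idx t ∈ K := by
    intro t ht
    obtain ⟨h1, h2⟩ := hgt t ht
    exact (hφ' _ h1).2.fapp_mem ((hmlv _ _).2 ⟨ht, h2⟩)
  have hidxI : ∀ s, s ∈ T → ∀ t, t ∈ T → fapp h s = fapp h t → idx s = idx t → s = t := by
    intro s hs t ht he hi
    obtain ⟨h1, h2⟩ := hgt t ht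
    obtain ⟨h3, h4⟩ := hgt s hs
    have h5 : fapp (φ (fapp h t)) s = fapp (φ (fapp h t)) t := by
      have h6 : fapp (φ (fapp h s)) s = fapp (φ (fapp h t)) t := hi
      rwa [he] at h6
    rw [he] at h4
    exact (hφ' _ h1).2.fapp_inj ((hmlv _ _).2 ⟨hs, h4⟩) ((hmlv _ _).2 ⟨ht, h2⟩) h5
  have hSsm : Small (fun z : M => ∃ s t, s ∈ T ∧ t ∈ T ∧ opair s t ∈ R ∧
      z = opair (opair (fapp h s) (idx s)) (opair (fapp h t) (idx t))) := by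
    refine small_of_subset (by fun_prop) (prod (prod L K) (prod L K)) ?_
    rintro z ⟨s, t, hs, ht, _, rfl⟩
    exact opair_mem_prod.2 ⟨opair_mem_prod.2 ⟨(hgt s hs).1, hidxK s hs⟩,
      opair_mem_prod.2 ⟨(hgt t ht).1, hidxK t ht⟩⟩
  obtain ⟨S, hS⟩ := hSsm
  have hR4 : ∀ γ i δ j, R4 S γ i δ j ↔ ∃ s t, s ∈ T ∧ t ∈ T ∧ opair s t ∈ R ∧ fapp h s = γ ∧
      idx s = i ∧ fapp h t = δ ∧ idx t = j := by
    intro γ i δ j
    rw [R4, hS]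
    constructor
    · rintro ⟨s, t, hs, ht, hst, he⟩
      obtain ⟨he1, he2⟩ := opair_inj.1 he
      obtain ⟨he3, he4⟩ := opair_inj.1 he1
      obtain ⟨he5, he6⟩ := opair_inj.1 he2
      exact ⟨s, t, hs, ht, hst, he3.symm, he4.symm, he5.symm, he6.symm⟩
    · rintro ⟨s, t, hs, ht, hst, rfl, rfl, rfl, rfl⟩
      exact ⟨s, t, hs, ht, hst, rfl⟩
  have hlt : ∀ s t, s ∈ T → t ∈ T → opair s t ∈ R → fapp h s ∈ fapp h t := by
    intro s t hs ht hst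
    exact (hh4 t ht _ (hgt t ht).2 _).2 ⟨s, hs, hst, (hgt s hs).2⟩
  have hpred : ∀ t, t ∈ T → ∀ γ, γ ∈ fapp h t → ∃ s, s ∈ T ∧ opair s t ∈ R ∧ fapp h s = γ := by
    intro t ht γ hγ
    obtain ⟨s, hs, hst, hsγ⟩ := (hh4 t ht _ (hgt t ht).2 γ).1 hγ
    exact ⟨s, hs, hst, hgt' _ _ hsγ⟩
  have hlin : ∀ s t u, s ∈ T → t ∈ T → u ∈ T → opair s u ∈ R → opair t u ∈ R →
      fapp h s ∈ fapp h t → opair s t ∈ R := by
    intro s t u hs ht hu h1 h2 h3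
    rcases hT.lin u hu s hs t ht ⟨h1, h2⟩ with h4 | h4 | h4
    · exact h4
    · subst h4
      exact (mem_irrefl _ h3).elim
    · exact (mem_asymm h3 (hlt t s ht hs h4)).elim
  have heq : ∀ s t u, s ∈ T → t ∈ T → u ∈ T → opair s u ∈ R → opair t u ∈ R →
      fapp h s = fapp h t → s = t := by
    intro s t u hs ht hu h1 h2 h3
    rcases hT.lin u hu s hs t ht ⟨h1, h2⟩ with h4 | h4 | h4
    · exact (mem_irrefl (fapp h t) (h3 ▸ hlt s t hs ht h4)).elim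
    · exact h4
    · exact (mem_irrefl (fapp h t) (h3 ▸ hlt t s ht hs h4)).elim
  refine ⟨S, holds_isSys.2 ⟨?_, ?_, ?_, ?_, ?_⟩, ?_⟩
  · intro γ _ i _ δ _ j _ h1
    obtain ⟨s, t, hs, ht, hst, rfl, _, rfl, _⟩ := (hR4 _ _ _ _).1 h1
    exact hlt s t hs ht hst
  · rintro γ _ i _ δ _ j _ ε _ k _ ⟨h1, h2⟩
    obtain ⟨s, t, hs, ht, hst, rfl, rfl, e1, e2⟩ := (hR4 _ _ _ _).1 h1
    obtain ⟨t', u, ht', hu, htu, e3, e4, rfl, rfl⟩ := (hR4 _ _ _ _).1 h2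
    have : t = t' := hidxI t ht t' ht' (e1.trans e3.symm) (e2.trans e4.symm)
    subst this
    exact (hR4 _ _ _ _).2 ⟨s, u, hs, hu, hT.tr s hs t ht u hu ⟨hst, htu⟩, rfl, rfl, rfl, rfl⟩
  · rintro γ _ i _ δ _ j _ ε _ k _ ⟨h0, h1, h2⟩
    obtain ⟨s, u, hs, hu, hsu, rfl, rfl, e1, e2⟩ := (hR4 _ _ _ _).1 h1
    obtain ⟨t, u', ht, hu', htu, rfl, rfl, e3, e4⟩ := (hR4 _ _ _ _).1 h2
    have : u = u' := hidxI u hu u' hu' (e1.trans e3.symm) (e2.trans e4.symm)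
    subst this
    exact (hR4 _ _ _ _).2 ⟨s, t, hs, ht, hlin s t u hs ht hu hsu htu h0, rfl, rfl, rfl, rfl⟩
  · rintro γ _ i _ j _ ε _ k _ ⟨h1, h2⟩
    obtain ⟨s, u, hs, hu, hsu, e5, rfl, e1, e2⟩ := (hR4 _ _ _ _).1 h1
    obtain ⟨t, u', ht, hu', htu, e6, rfl, e3, e4⟩ := (hR4 _ _ _ _).1 h2
    have : u = u' := hidxI u hu u' hu' (e1.trans e3.symm) (e2.trans e4.symm)
    subst this
    rw [heq s t u hs ht hu hsu htu (e5.trans e6.symm)]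
  · intro δ hδ
    obtain ⟨t, ht, htδ⟩ := hh5 δ hδ
    have hδ' := hgt' _ _ htδ
    refine ⟨idx t, hidxK t ht, fun γ hγ => ?_⟩
    rw [← hδ'] at hγ
    obtain ⟨s, hs, hst, e⟩ := hpred t ht γ hγ
    exact ⟨idx s, hidxK s hs, (hR4 _ _ _ _).2 ⟨s, t, hs, ht, hst, e, rfl, hδ', rfl⟩⟩
  · rintro ⟨b, hb⟩
    obtain ⟨⟨hb1, hb2, hb3⟩, hb4⟩ := holds_isBr.1 hb
    apply hnb
    obtain ⟨B, hB⟩ := small_sep (M := M) (D := fun t => opair (fapp h t) (idx t) ∈ b)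
      (by fun_prop) T
    -- every level contains a node of `B`
    have hBlev : ∀ γ, γ ∈ L → ∃ t, t ∈ B ∧ fapp h t = γ := by
      intro γ hγ
      obtain ⟨i, hi, hγi⟩ := hb2 γ hγ
      have hsγ := hKL.succ_mem hK hγ
      obtain ⟨j, hj, hδj⟩ := hb2 _ hsγ
      obtain ⟨s, t, hs, ht, hst, e1, e2, _, _⟩ := (hR4 _ _ _ _).1
        (hb4 γ hγ _ hsγ i hi j hj ⟨mem_succ.2 (Or.inr rfl), hγi, hδj⟩)
      exact ⟨s, (hB s).2 ⟨hs, by rw [e1, e2]; exact hγi⟩, e1⟩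
    have hBR : ∀ s t, s ∈ B → t ∈ B → fapp h s ∈ fapp h t → opair s t ∈ R := by
      intro s t hs ht hst
      obtain ⟨hs1, hs2⟩ := (hB s).1 hs
      obtain ⟨ht1, ht2⟩ := (hB t).1 ht
      obtain ⟨s', t', hs', ht', hst', e1, e2, e3, e4⟩ := (hR4 _ _ _ _).1
        (hb4 _ (hgt s hs1).1 _ (hgt t ht1).1 _ (hidxK s hs1) _ (hidxK t ht1) ⟨hst, hs2, ht2⟩)
      rw [← hidxI s' hs' s hs1 e1 e2, ← hidxI t' ht' t ht1 e3 e4]
      exact hst'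
    refine ⟨B, holds_isCofBranch.2 ⟨fun t ht => ((hB t).1 ht).1, ?_, ?_⟩⟩
    · intro s hs t ht
      obtain ⟨hs1, hs2⟩ := (hB s).1 hs
      obtain ⟨ht1, ht2⟩ := (hB t).1 ht
      rcases hKL.1.tri (hgt s hs1).1 (hgt t ht1).1 with h1 | h1 | h1
      · exact Or.inl (hBR s t hs ht h1)
      · refine Or.inr (Or.inl (hidxI s hs1 t ht1 h1 ?_))
        rw [h1] at hs2
        exact hb3 _ _ _ ⟨hs2, ht2⟩
      · exact Or.inr (Or.inr (hBR t s ht hs h1))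
    · intro a ha
      obtain ⟨t, ht, e⟩ := hBlev a ha
      refine ⟨t, ht, ?_⟩
      rw [← e]
      exact (hgt t ((hB t).1 ht).1).2

/-- A tree relation has a branch, if the tree property holds. -/
theorem sys_branch {S : M} (hK : Hart omega K) (hKL : Hart K L)
    (hTP : Holds (EE M) (TP2 : Fml M)) (hS : Holds (EE M) (isSys S K L)) :
    ∃ b, Holds (EE M) (isBr S K L b) := by
  by_contra hcon
  rw [TP2, holds_neg, holds_aronszajn] at hTP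
  apply hTP
  obtain ⟨s1, s2, s3, s4, s5⟩ := holds_isSys.1 hS
  -- the nodes
  obtain ⟨T, hT⟩ := small_sep (M := M)
    (D := fun z => ∀ γ, γ ∈ fstp z → ∃ i, i ∈ K ∧ opair (opair γ i) z ∈ S) (by fun_prop) (prod L K)
  have hT' : ∀ δ j, opair δ j ∈ T ↔ (δ ∈ L ∧ j ∈ K) ∧ ∀ γ, γ ∈ δ → ∃ i, i ∈ K ∧ R4 S γ i δ j := by
    intro δ j
    refine (hT _).trans ?_
    simp only [opair_mem_prod, fstp_opair, R4]
  have hTe : ∀ z, z ∈ T → ∃ δ j, z = opair δ j := by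
    intro z hz
    obtain ⟨δ, _, j, _, rfl⟩ := mem_prod.1 ((hT z).1 hz).1
    exact ⟨δ, j, rfl⟩
  obtain ⟨R, hR⟩ := small_sep (M := M) (D := fun z => z ∈ S) (by fun_prop) (prod T T)
  have hR' : ∀ x y, opair x y ∈ R ↔ (x ∈ T ∧ y ∈ T) ∧ opair x y ∈ S := by
    intro x y
    refine (hR _).trans ?_
    simp only [opair_mem_prod]
  have hfst : Dbl M (fun x : M => fstp x) := by fun_prop
  have hh : ∀ x y, opair x y ∈ graph (fstp : M → M) T ↔ x ∈ T ∧ fstp x = y := fun x y =>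
    opair_mem_graph hfst
  have hdown : ∀ γ i δ j, i ∈ K → R4 S γ i δ j → opair δ j ∈ T → γ ∈ δ → opair γ i ∈ T := by
    intro γ i δ j hi hS' hδ hγδ
    obtain ⟨⟨hδL, hj⟩, hδ'⟩ := (hT' _ _).1 hδ
    have hγL := hKL.1.trans hδL hγδ
    refine (hT' _ _).2 ⟨⟨hγL, hi⟩, fun γ' hγ' => ?_⟩
    obtain ⟨i', hi', h1⟩ := hδ' γ' ((hKL.1.mem hδL).trans hγδ hγ')
    exact ⟨i', hi', s3 γ' (hKL.1.trans hγL hγ') i' hi' γ hγL i hi δ hδL j hj ⟨hγ', h1, hS'⟩⟩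
  have hlev : ∀ a, a ∈ L → ∃ t, t ∈ T ∧ fstp t = a := by
    intro a ha
    obtain ⟨j, hj, h1⟩ := s5 a ha
    exact ⟨opair a j, (hT' _ _).2 ⟨⟨ha, hj⟩, h1⟩, fstp_opair _ _⟩
  have hRlt : ∀ x y, opair x y ∈ R → fstp x ∈ fstp y := by
    intro x y hxy
    obtain ⟨⟨hx, hy⟩, h1⟩ := (hR' _ _).1 hxy
    obtain ⟨γ, i, rfl⟩ := hTe x hx
    obtain ⟨δ, j, rfl⟩ := hTe y hy
    obtain ⟨⟨hγ, hi⟩, _⟩ := (hT' _ _).1 hx
    obtain ⟨⟨hδ, hj⟩, _⟩ := (hT' _ _).1 hy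
    rw [fstp_opair, fstp_opair]
    exact s1 γ hγ i hi δ hδ j hj h1
  have hlin : ∀ x y t, x ∈ T → y ∈ T → t ∈ T → opair x t ∈ R → opair y t ∈ R →
      fstp x ∈ fstp y → opair x y ∈ R := by
    intro x y t hx hy ht h1 h2 h3
    refine (hR' _ _).2 ⟨⟨hx, hy⟩, ?_⟩
    obtain ⟨γ, i, rfl⟩ := hTe x hx
    obtain ⟨δ, j, rfl⟩ := hTe y hy
    obtain ⟨ε, k, rfl⟩ := hTe t ht
    obtain ⟨⟨hγ, hi⟩, _⟩ := (hT' _ _).1 hx
    obtain ⟨⟨hδ, hj⟩, _⟩ := (hT' _ _).1 hy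
    obtain ⟨⟨hε, hk⟩, _⟩ := (hT' _ _).1 ht
    rw [fstp_opair, fstp_opair] at h3
    exact s3 γ hγ i hi δ hδ j hj ε hε k hk ⟨h3, ((hR' _ _).1 h1).2, ((hR' _ _).1 h2).2⟩
  have heq : ∀ x y t, x ∈ T → y ∈ T → t ∈ T → opair x t ∈ R → opair y t ∈ R →
      fstp x = fstp y → x = y := by
    intro x y t hx hy ht h1 h2 h3
    obtain ⟨γ, i, rfl⟩ := hTe x hx
    obtain ⟨δ, j, rfl⟩ := hTe y hy
    obtain ⟨ε, k, rfl⟩ := hTe t ht
    obtain ⟨⟨hγ, hi⟩, _⟩ := (hT' _ _).1 hx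
    obtain ⟨⟨hδ, hj⟩, _⟩ := (hT' _ _).1 hy
    obtain ⟨⟨hε, hk⟩, _⟩ := (hT' _ _).1 ht
    rw [fstp_opair, fstp_opair] at h3
    subst h3
    rw [s4 γ hγ i hi j hj ε hε k hk ⟨((hR' _ _).1 h1).2, ((hR' _ _).1 h2).2⟩]
  have hfL : ∀ x, x ∈ T → fstp x ∈ L := by
    intro x hx
    obtain ⟨γ, i, rfl⟩ := hTe x hx
    rw [fstp_opair]
    exact ((hT' _ _).1 hx).1.1
  refine ⟨K, L, hK, hKL, T, R, graph fstp T, ?_⟩
  rw [holds_isAronszajn]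
  refine ⟨⟨?_, ?_, ?_, ?_, ?_⟩, ?_, ?_, ?_⟩
  · intro z hz
    obtain ⟨h1, _⟩ := (hR z).1 hz
    exact mem_prod.1 h1
  · intro x _ h1
    exact mem_irrefl _ (hRlt x x h1)
  · rintro x hx y hy z hz ⟨h1, h2⟩
    refine (hR' _ _).2 ⟨⟨hx, hz⟩, ?_⟩
    obtain ⟨γ, i, rfl⟩ := hTe x hx
    obtain ⟨δ, j, rfl⟩ := hTe y hy
    obtain ⟨ε, k, rfl⟩ := hTe z hz
    obtain ⟨⟨hγ, hi⟩, _⟩ := (hT' _ _).1 hx
    obtain ⟨⟨hδ, hj⟩, _⟩ := (hT' _ _).1 hy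
    obtain ⟨⟨hε, hk⟩, _⟩ := (hT' _ _).1 hz
    exact s2 γ hγ i hi δ hδ j hj ε hε k hk ⟨((hR' _ _).1 h1).2, ((hR' _ _).1 h2).2⟩
  · rintro t ht x hx y hy ⟨h1, h2⟩
    rcases hKL.1.tri (hfL x hx) (hfL y hy) with h3 | h3 | h3
    · exact Or.inl (hlin x y t hx hy ht h1 h2 h3)
    · exact Or.inr (Or.inl (heq x y t hx hy ht h1 h2 h3))
    · exact Or.inr (Or.inr (hlin y x t hy hx ht h2 h1 h3))
  · rintro t ht A ⟨hA, x, hx⟩
    obtain ⟨a, ha, ⟨x0, hx0, hx0a⟩, hmin⟩ := exists_least_of_mem (M := M)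
      (Φ := fun a => ∃ x, x ∈ A ∧ fstp x = a) (by fun_prop) (hfL x (hA x hx).1) ⟨x, hx, rfl⟩
    refine ⟨x0, hx0, fun y hy => ?_⟩
    rcases hKL.1.tri (hfL x0 (hA x0 hx0).1) (hfL y (hA y hy).1) with h3 | h3 | h3
    · exact Or.inr (hlin x0 y t (hA x0 hx0).1 (hA y hy).1 ht (hA x0 hx0).2 (hA y hy).2 h3)
    · exact Or.inl (heq x0 y t (hA x0 hx0).1 (hA y hy).1 ht (hA x0 hx0).2 (hA y hy).2 h3)
    · exact (hmin _ (hfL y (hA y hy).1) (hx0a ▸ h3) ⟨y, hy, rfl⟩).elim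
  · rw [holds_isHeight]
    refine ⟨⟨?_, ?_, ?_⟩, ?_, ?_⟩
    · intro z hz
      obtain ⟨x, hx, rfl⟩ := (mem_graph hfst).1 hz
      exact ⟨x, hx, _, hfL x hx, rfl⟩
    · intro x hx
      exact ⟨fstp x, hfL x hx, (hh _ _).2 ⟨hx, rfl⟩⟩
    · rintro x y y' ⟨h1, h2⟩
      rw [← ((hh _ _).1 h1).2, ← ((hh _ _).1 h2).2]
    · intro t ht d hd c
      obtain ⟨_, rfl⟩ := (hh _ _).1 hd
      constructor
      · intro hc
        obtain ⟨δ, j, rfl⟩ := hTe t ht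
        rw [fstp_opair] at hc
        obtain ⟨⟨hδ, hj⟩, h1⟩ := (hT' _ _).1 ht
        obtain ⟨i, hi, h2⟩ := h1 c hc
        have h3 := hdown c i δ j hi h2 ht hc
        exact ⟨opair c i, h3, (hR' _ _).2 ⟨⟨h3, ht⟩, h2⟩, (hh _ _).2 ⟨h3, fstp_opair _ _⟩⟩
      · rintro ⟨s, hs, hst, hsc⟩
        rw [← ((hh _ _).1 hsc).2]
        exact hRlt s t hst
    · intro a ha
      obtain ⟨t, ht, e⟩ := hlev a ha
      exact ⟨t, ht, (hh _ _).2 ⟨ht, e⟩⟩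
  · intro a ha
    obtain ⟨Sa, hSa⟩ := small_sep (M := M) (D := fun t => opair t a ∈ graph fstp T)
      (by fun_prop) T
    refine ⟨Sa, hSa, Inj.of_fun (φ := sndp) (by fun_prop) ?_ ?_⟩
    · intro x hx
      obtain ⟨γ, i, rfl⟩ := hTe x ((hSa x).1 hx).1
      rw [sndp_opair]
      exact ((hT' _ _).1 ((hSa _).1 hx).1).1.2
    · intro x hx y hy he
      obtain ⟨hx1, hx2⟩ := (hSa x).1 hx
      obtain ⟨hy1, hy2⟩ := (hSa y).1 hy
      have e1 := ((hh _ _).1 hx2).2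
      have e2 := ((hh _ _).1 hy2).2
      obtain ⟨γ, i, rfl⟩ := hTe x hx1
      obtain ⟨δ, j, rfl⟩ := hTe y hy1
      simp only [fstp_opair, sndp_opair] at e1 e2 he
      rw [e1, e2, he]
  · rintro ⟨B, hB⟩
    obtain ⟨hB1, hB2, hB3⟩ := holds_isCofBranch.1 hB
    apply hcon
    have hBR : ∀ x y, x ∈ B → y ∈ B → fstp x ∈ fstp y → opair x y ∈ R := by
      intro x y hx hy hxy
      rcases hB2 x hx y hy with h1 | h1 | h1
      · exact h1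
      · subst h1
        exact (mem_irrefl _ hxy).elim
      · exact (mem_asymm hxy (hRlt y x h1)).elim
    have hBe : ∀ x y, x ∈ B → y ∈ B → fstp x = fstp y → x = y := by
      intro x y hx hy hxy
      rcases hB2 x hx y hy with h1 | h1 | h1
      · exact (mem_irrefl (fstp y) (hxy ▸ hRlt x y h1)).elim
      · exact h1
      · exact (mem_irrefl (fstp y) (hxy ▸ hRlt y x h1)).elim
    refine ⟨B, holds_isBr.2 ⟨⟨?_, ?_, ?_⟩, ?_⟩⟩
    · intro z hz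
      obtain ⟨δ, j, rfl⟩ := hTe z (hB1 z hz)
      obtain ⟨⟨h1, h2⟩, _⟩ := (hT' _ _).1 (hB1 _ hz)
      exact ⟨δ, h1, j, h2, rfl⟩
    · intro a ha
      obtain ⟨t, ht, hta⟩ := hB3 a ha
      have e := ((hh _ _).1 hta).2
      obtain ⟨δ, j, rfl⟩ := hTe t (hB1 t ht)
      rw [fstp_opair] at e
      subst e
      exact ⟨j, ((hT' _ _).1 (hB1 _ ht)).1.2, ht⟩
    · rintro x y y' ⟨h1, h2⟩
      have := hBe _ _ h1 h2 (by rw [fstp_opair, fstp_opair])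
      exact (opair_inj.1 this).2
    · rintro γ _ δ _ i _ j _ ⟨h0, h1, h2⟩
      exact ((hR' _ _).1 (hBR _ _ h1 h2 (by rw [fstp_opair, fstp_opair]; exact h0))).2

end stepA

end ST

end Pool.Agent.Lib_helper27
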