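import Pool.Agent.Lib_helper27.Q.SysF
import Pool.Agent.Lib_helper27.Q.Fus2
import Pool.Agent.Lib_helper27.Q.Norm

/-!
# The extension by `Cnd` satisfies the tree property
-/

set_option linter.unusedSectionVars false

namespace Pool.Agent.Lib_helper27.Q

open Fml V Cardinal Pool.Agent.Lib_helper27.ST

section ext

variable (P : Type) [Preorder P] [Nonempty P]

instance instSetStrExt : SetStr (Ext P) := ⟨extE P⟩

instance instZFCExt : ZFC (Ext P) := ⟨ext_zfc⟩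

variable {P}

theorem lk_tp2 : Lk (TP2 : Fml (Ext P)) (TP2 : Fml (Name P)) := by
  obtain ⟨p⟩ := ‹Nonempty P›
  let a : Name P := oall P ℕ
  exact DF.lk (cv TP2 0) 0 fun _ => a

theorem lk_isSys (S K L : Name P) : Lk (isSys (π S) (π K) (π L)) (isSys S K L) :=
  lk_env3 (cv (isSys 0 1 2) 3) S K L

theorem lk_isBr (S K L b : Name P) : Lk (isBr (π S) (π K) (π L) (π b)) (isBr S K L b) :=
  lk_env4 (cv (isBr 0 1 2 3) 4) S K L b

theorem congr_isBr (S K L : Name P) : Congr1 fun b => isBr S K L b := by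
  intro p x y h
  exact DF.rel (fun z => feq_refl z p) (cv (isBr 0 1 2 3) 4) 4 (env [S, K, L] x) (env [S, K, L] y)
    (rel_env (r := fun x y => feq x y p)
      (.cons (feq_refl _ _) (.cons (feq_refl _ _) (.cons (feq_refl _ _) .nil))) h)

theorem lk_exBr (S K L : Name P) : Lk (neg (ex fun b => isBr (π S) (π K) (π L) b))
    (neg (ex fun b => isBr S K L b)) :=
  (Lk.ex (fun b => lk_isBr S K L b) (congr_isBr S K L)).neg

theorem omega_eq : (omega : Ext P) = π (oall P ℕ) := by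
  have h : Holds (extE P) (isOmega (π (oall P ℕ))) :=
    (los (Lk.isOmega _)).2 (T_of_forces fun p => omega_isOmega p)
  exact (holds_isOmega.1 h).symm

theorem hart_om1 (hP : Distr P) : Hart (omega : Ext P) (π (oall P Om1)) := by
  have h : Holds (extE P) (isHartogs (π (oall P ℕ)) (π (oall P Om1))) :=
    (los (Lk.isHartogs _ _)).2 (T_of_forces fun p => hart1 hP p)
  rw [← omega_eq] at h
  exact holds_isHartogs.1 h

theorem hart_om2 (hP : Distr P) : Hart (π (oall P Om1) : Ext P) (π (oall P Om2)) := by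
  have h : Holds (extE P) (isHartogs (π (oall P Om1)) (π (oall P Om2))) :=
    (los (Lk.isHartogs _ _)).2 (T_of_forces fun p => hart2 hP p)
  exact holds_isHartogs.1 h

/-- If the tree property is forced, then so is the existence of branches. -/
theorem exists_branch (hP : Distr P) (hTP : ∀ p : P, Fc p TP2) {S : Name P}
    (hS : ∀ p, SysF S p) : ∃ (p : P) (b : Name P), BrF S b p := by
  have h1 : Holds (extE P) TP2 := (los lk_tp2).2 (T_of_forces hTP)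
  have h2 : Holds (extE P) (isSys (π S) (π (oall P Om1)) (π (oall P Om2))) :=
    (los (lk_isSys _ _ _)).2 (T_of_forces fun p => fc_isSys.2 (hS p))
  obtain ⟨b, hb⟩ := sys_branch (hart_om1 hP) (hart_om2 hP) h1 h2
  obtain ⟨b, rfl⟩ := π_surj b
  obtain ⟨p, hp⟩ := Filter.Eventually.exists ((los (lk_isBr _ _ _ _)).1 hb)
  exact ⟨p, b, fc_isBr hp⟩

/-- If the tree property fails in the extension, some condition forces a name to be a tree relation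
without branches. -/
theorem exists_counter (hP : Distr P) (hTP : ¬ Holds (extE P) (TP2 : Fml (Ext P))) :
    ∃ (p : P) (S : Name P), SysF S p ∧
      ∀ q ≤ p, ∀ b, ¬ Fc q (isBr S (oall P Om1) (oall P Om2) b) := by
  rw [TP2, holds_neg, not_not] at hTP
  obtain ⟨K, L, hK, hL, T, R, h, hA⟩ := holds_aronszajn.1 hTP
  obtain ⟨S, hS, hS'⟩ := norm_sys hK.infOrd hL hA
  obtain rfl := hK.unique (hart_om1 hP)
  obtain rfl := hL.unique (hart_om2 hP)
  obtain ⟨S, rfl⟩ := π_surj S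
  have h1 := (los (lk_isSys _ _ _)).1 hS
  have h2 : Holds (extE P) (neg (ex fun b => isBr (π S) (π (oall P Om1)) (π (oall P Om2)) b)) := by
    rw [holds_neg, holds_ex]
    exact hS'
  have h3 := (los (lk_exBr _ _ _)).1 h2
  obtain ⟨p, hp, hp'⟩ := Filter.Eventually.exists (T_and.2 ⟨h1, h3⟩)
  refine ⟨p, S, fc_isSys.1 hp, fun q hq b hb => ?_⟩
  exact hp' q hq (forces_ex.2 (Loc.pure fun r hr => ⟨b, Forces.mono nf_basic hr hb⟩))

end ext

section main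

variable {t00 : Cnd} {S : Name Cnd}

variable (t00) in
/-- the conditions `(t, x)` with `t ≤ t00` -/
def DD : Type := {d : DCnd // d.t ≤ t00}

instance instPreorderDD : Preorder (DD t00) := inferInstanceAs (Preorder {d : DCnd // d.t ≤ t00})

theorem DD.le_iff {d e : DD t00} : d ≤ e ↔ d.1 ≤ e.1 := Iff.rfl

theorem dirClosed_DD : DirClosed (DD t00) := by
  intro A hA hne hdir
  obtain ⟨e, he⟩ := dirClosed_DCnd (Subtype.val '' A) (mk_image_le.trans hA) (hne.image _) (by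
    rintro _ ⟨a, ha, rfl⟩ _ ⟨b, hb, rfl⟩
    obtain ⟨c, hc, h1, h2⟩ := hdir a ha b hb
    exact ⟨c.1, ⟨c, hc, rfl⟩, h1, h2⟩)
  obtain ⟨a, ha⟩ := hne
  refine ⟨⟨e, (he a.1 ⟨a, ha, rfl⟩).1.trans a.2⟩, fun b hb => he b.1 ⟨b, hb, rfl⟩⟩

instance instNonemptyDD : Nonempty (DD t00) := by
  obtain ⟨x, hx⟩ := exists_top t00
  exact ⟨⟨⟨t00, x, hx⟩, le_rfl⟩⟩

theorem DD.lift (d : DD t00) {t' : Cnd} (h : t' ≤ d.1.t) : ∃ d' : DD t00, d' ≤ d ∧ d'.1.t = t' := by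
  obtain ⟨d', h1, h2⟩ := exists_lift d.1 h
  exact ⟨⟨d', h2 ▸ h.trans d.2⟩, h1, h2⟩

/-- the index set -/
abbrev Ix : Type := (Om2 × Om1) × (Om2 × Om1)

variable (S t00) in
/-- the name of the tree relation for the larger poset -/
noncomputable def SD : Name (DD t00) :=
  mkFn Ix (fun x => mkOPair (onm _ x.1.1) (onm _ x.1.2)) (fun x => mkOPair (onm _ x.2.1) (onm _ x.2.2))
    fun x d => RR S x.1.1 x.1.2 x.2.1 x.2.2 d.1.t

theorem down_SD : Down (P := DD t00) fun (x : Ix) d => RR S x.1.1 x.1.2 x.2.1 x.2.2 d.1.t :=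
  fun _ _ _ hq h => Forces.mono nf_basic hq.1 h

theorem DD.dense {d : DD t00} {φ : Fml (Name Cnd)} (h : Loc d fun e : DD t00 => Fc e.1.t φ) :
    Fc d.1.t φ := by
  refine Forces.dense nf_basic fun t' ht' => ?_
  obtain ⟨d', h1, h2⟩ := d.lift ht'
  obtain ⟨e, h3, h4⟩ := h d' h1
  exact ⟨e.1.t, h3.1.trans (le_of_eq h2), h4⟩

theorem rr_SD {γ : Om2} {i : Om1} {δ : Om2} {j : Om1} {d : DD t00} :
    RR (SD t00 S) γ i δ j d ↔ RR S γ i δ j d.1.t := by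
  constructor
  · intro h
    refine DD.dense (d := d) ?_
    refine (forces_ex.1 h).bind ?_
    rintro e _ ⟨x, hx⟩
    refine (forces_ex.1 hx).bind ?_
    rintro f hf ⟨y, h1, h2, h3⟩
    refine ((fc_app down_SD).1 h3).imp ?_
    rintro g hg ⟨⟨⟨γ', i'⟩, δ', j'⟩, h4, h5, h6⟩
    have h7 := opair_inj (feq_trans (feq_symm (feq_mono hg (fc_opair_iff.1 h1))) h5)
    have h8 := opair_inj (feq_trans (feq_symm (feq_mono hg (fc_opair_iff.1 h2))) h6)
    obtain rfl := onm_inj h7.1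
    obtain rfl := onm_inj h7.2
    obtain rfl := onm_inj h8.1
    obtain rfl := onm_inj h8.2
    exact h4
  · intro h
    refine forces_ex.2 (Loc.pure fun e he => ⟨mkOPair (onm _ γ) (onm _ i), ?_⟩)
    refine forces_ex.2 (Loc.pure fun f hf => ⟨mkOPair (onm _ δ) (onm _ j), ?_⟩)
    refine ⟨fc_opair_iff.2 (feq_refl _ _), fc_opair_iff.2 (feq_refl _ _), ?_⟩
    refine (fc_app down_SD).2 (Loc.pure fun g hg => ⟨((γ, i), (δ, j)), ?_, feq_refl _ _,
      feq_refl _ _⟩)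
    exact Forces.mono nf_basic ((hg.trans (hf.trans he)).1) h

theorem sysF_SD (hS : SysF S t00) (d : DD t00) : SysF (SD t00 S) d := by
  refine ⟨?_, ?_, ?_, ?_, ?_⟩
  · intro e he γ i δ j h
    exact hS.s1 e.1.t e.2 γ i δ j (rr_SD.1 h)
  · intro e he γ i δ j ε k h h'
    exact rr_SD.2 (hS.s2 e.1.t e.2 γ i δ j ε k (rr_SD.1 h) (rr_SD.1 h'))
  · intro e he γ i δ j ε k hγ h h'
    exact rr_SD.2 (hS.s3 e.1.t e.2 γ i δ j ε k hγ (rr_SD.1 h) (rr_SD.1 h'))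
  · intro e he γ i j ε k h h'
    exact hS.s4 e.1.t e.2 γ i j ε k (rr_SD.1 h) (rr_SD.1 h')
  · intro δ e he
    obtain ⟨t, ht, j, hj⟩ := hS.s5 δ e.1.t e.2
    obtain ⟨f, hf, hft⟩ := e.lift ht
    refine ⟨f, hf, j, fun γ hγ g hg => ?_⟩
    obtain ⟨s, hs, i, hi⟩ := hj γ hγ g.1.t (hg.1.trans (le_of_eq hft))
    obtain ⟨g', hg', hgt⟩ := g.lift hs
    refine ⟨g', hg', i, rr_SD.2 ?_⟩
    rw [hgt]
    exact hi

/-- `(t, x)` is a condition below `d1` which forces that `b` passes through `i` at level `γ` -/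
def BQ (b : Name (DD t00)) (d1 : DD t00) (γ : Om2) (i : Om1) (t : Cnd) (x : Nm) : Prop :=
  ∃ (h : Top t x) (h' : t ≤ t00), (⟨⟨t, x, h⟩, h'⟩ : DD t00) ≤ d1 ∧
    BB b γ i (⟨⟨t, x, h⟩, h'⟩ : DD t00)

theorem bd_BQ {b : Name (DD t00)} {d1 : DD t00} (hb : BrF (SD t00 S) b d1)
    (hno : ∀ q ≤ t00, ∀ b, ¬ Fc q (isBr S (oall Cnd Om1) (oall Cnd Om2) b)) :
    BD d1.1.t d1.1.x (BQ b d1) := by
  have hmono : ∀ {γ i t x t' x'}, BQ b d1 γ i t x → t' ≤ t → Top t' x' → Ext' t.ht x' x →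
      BQ b d1 γ i t' x' := by
    rintro γ i t x t' x' ⟨h1, h2, h3, h4⟩ h5 h6 h7
    have h8 : (⟨⟨t', x', h6⟩, h5.trans h2⟩ : DD t00) ≤ ⟨⟨t, x, h1⟩, h2⟩ := ⟨h5, h7⟩
    exact ⟨h6, h5.trans h2, h8.trans h3, Forces.mono nf_basic h8 h4⟩
  have htot : ∀ {t x}, t ≤ d1.1.t → Top t x → Ext' d1.1.t.ht x d1.1.x → ∀ γ, ∃ t' ≤ t, ∃ x',
      Top t' x' ∧ Ext' t.ht x' x ∧ ∃ i, BQ b d1 γ i t' x' := by
    intro t x ht hx hex γ
    have h1 : (⟨⟨t, x, hx⟩, ht.trans d1.2⟩ : DD t00) ≤ d1 := ⟨ht, hex⟩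
    obtain ⟨e, he, i, hi⟩ := hb.tot γ _ h1
    exact ⟨e.1.t, he.1, e.1.x, e.1.top, he.2, i, e.1.top, e.2, he.trans h1, hi⟩
  refine ⟨d1.1.top, hmono, htot, ?_⟩
  intro t x ht hx hex
  by_contra hcon
  have hN : ∀ t' ≤ t, ∀ x1 x2, Top t' x1 → Top t' x2 → Ext' t.ht x1 x → Ext' t.ht x2 x →
      ∀ γ i j, BQ b d1 γ i t' x1 → BQ b d1 γ j t' x2 → i = j := by
    intro t' ht' x1 x2 h1 h2 h3 h4 γ i j h5 h6
    by_contra hij
    exact hcon ⟨t', ht', x1, x2, h1, h2, h3, h4, γ, i, j, hij, h5, h6⟩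
  let Q : Om2 × Om1 → Cnd → Prop := fun y t' => t' ≤ t ∧ ∃ x', Top t' x' ∧ Ext' t.ht x' x ∧
    BQ b d1 y.1 y.2 t' x'
  have hQ : Down Q := by
    rintro ⟨γ, i⟩ t' t'' h1 ⟨h2, x', h3, h4, h5⟩
    obtain ⟨y, hy⟩ := exists_top t''
    have h6 := h3.lift h1 y hy
    have h7 := ext'_glue t'.ht x' y
    exact ⟨h1.trans h2, _, h6, h7.trans h4 h2.1, hmono h5 h1 h6 h7⟩
  refine hno t (ht.trans d1.2) (brName Q) (fc_isBr_of hQ ?_ ?_ ?_)
  · intro γ t' ht'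
    obtain ⟨y, hy⟩ := exists_top t'
    have h6 := hx.lift ht' y hy
    have h7 := ext'_glue t.ht x y
    obtain ⟨t'', h8, x'', h9, h10, i, h11⟩ := htot (ht'.trans ht) h6 (h7.trans hex ht.1) γ
    exact ⟨t'', h8, i, h8.trans ht', x'', h9, h10.trans h7 ht'.1, h11⟩
  · rintro t' ht' γ i j ⟨h1, x1, h2, h3, h4⟩ ⟨_, x2, h5, h6, h7⟩
    exact hN t' ht' x1 x2 h2 h5 h3 h6 γ i j h4 h7
  · rintro t' ht' γ i δ j hγ ⟨h1, x1, h2, h3, h4⟩ ⟨_, x2, h5, h6, h7⟩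
    refine Forces.dense nf_basic fun t2 ht2 => ?_
    -- lift to `t2`
    obtain ⟨y, hy⟩ := exists_top t2
    have k1 := h2.lift ht2 y hy
    have k2 := ext'_glue t'.ht x1 y
    obtain ⟨t3, l1, x3, l2, l3, j', l4⟩ := htot (t := t2) (ht2.trans (ht'.trans ht)) k1
      (k2.trans (h3.trans hex ht.1) (ht'.trans ht).1) δ
    have m1 : Ext' t'.ht x3 x1 := l3.trans k2 ht2.1
    obtain ⟨y3, hy3⟩ := exists_top t3
    have n1 := h5.lift (l1.trans ht2) y3 hy3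
    have n2 := ext'_glue t'.ht x2 y3
    have n3 := hmono h7 (l1.trans ht2) n1 n2
    have hjj := hN t3 (l1.trans (ht2.trans ht')) _ _ l2 n1 (m1.trans h3 ht'.1)
      (n2.trans h6 ht'.1) δ j' j l4 n3
    subst hjj
    obtain ⟨o1, o2, o3, o4⟩ := hmono h4 (l1.trans ht2) l2 m1
    obtain ⟨_, _, _, o5⟩ := l4
    exact ⟨t3, l1, rr_SD.1 (hb.coh _ o3 γ i δ j' hγ o4 o5)⟩

/-- The extension has the tree property. -/
theorem holds_tp2 (h2 : aleph 2 ≤ (2 : Cardinal.{0}) ^ ℵ₀)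
    (hTP : ∀ (D : Type) [Preorder D], DirClosed D → ∀ p : D, Fc p TP2) :
    Holds (extE Cnd) (TP2 : Fml (Ext Cnd)) := by
  by_contra hcon
  obtain ⟨t00, S, hS, hno⟩ := exists_counter distr_Cnd hcon
  obtain ⟨d1, b, hb⟩ := exists_branch (P := DD t00) dirClosed_DD.distr (hTP _ dirClosed_DD)
    (sysF_SD hS)
  obtain ⟨t, x, y, γ, γ', i, j, k, h1, h3, h4, h5, h6, h7, h8⟩ := fusion (bd_BQ hb hno) h2
  obtain ⟨a1, a2, a3, a4⟩ := h5
  obtain ⟨b1, b2, b3, b4⟩ := h6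
  obtain ⟨_, _, _, a5⟩ := h7
  obtain ⟨_, _, _, b5⟩ := h8
  have c1 := rr_SD.1 (hb.coh _ a3 γ j γ' i h3 a4 a5)
  have c2 := rr_SD.1 (hb.coh _ b3 γ k γ' i h3 b4 b5)
  exact h4 (hS.s4 t a2 γ j k γ' i c1 c2)

end main

end Pool.Agent.Lib_helper27.Q
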