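import Pool.Agent.Lib_helper27.Q.CohP
import Pool.Agent.Lib_helper27.Q.CStmt
import Pool.Agent.Lib_helper27.Q.Kill
import Pool.Agent.Lib_helper27.Q.TPV

/-!
# The system of tree relations added by `Cnd`
-/

set_option linter.unusedSectionVars false
set_option linter.unusedTactic false
set_option linter.unreachableTactic false

namespace Pool.Agent.Lib_helper27.Q

open Fml V Cardinal Set

/-! ### Cohen conditions and open sets -/

/-- the basic open set of a finite partial function -/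
def bo (s : Fn) : Set Cs := {c | ∀ x ∈ s.1, c x.1 = x.2}

theorem bo_open (s : Fn) : IsOpen (bo s) := by
  have h : bo s = ⋂ x ∈ s.1, {c : Cs | c x.1 = x.2} := by
    ext c
    simp [bo]
  rw [h]
  refine isOpen_biInter_finset fun x _ => ?_
  exact (isOpen_discrete ({x.2} : Set Bool)).preimage (continuous_apply (A := fun _ => Bool) x.1)

theorem bo_ne (s : Fn) : (bo s).Nonempty := by
  classical
  refine ⟨fun n => decide ((n, true) ∈ s.1), ?_⟩
  rintro ⟨n, b⟩ hx
  cases b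
  · show decide ((n, true) ∈ s.1) = false
    rw [decide_eq_false_iff_not]
    intro h
    exact absurd (s.2 n true false h hx) (by simp)
  · show decide ((n, true) ∈ s.1) = true
    rw [decide_eq_true_eq]
    exact hx

theorem bo_mono {s t : Fn} (h : s.1 ⊆ t.1) : bo t ⊆ bo s := fun _ hc x hx => hc x (h hx)

theorem exists_bo {U : Set Cs} (hU : IsOpen U) {s : Fn} (h : (U ∩ bo s).Nonempty) :
    ∃ t : Fn, s.1 ⊆ t.1 ∧ bo t ⊆ U := by
  classical
  obtain ⟨c, hcU, hcs⟩ := h
  rw [isOpen_pi_iff] at hU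
  obtain ⟨I, u, hu, hsub⟩ := hU c hcU
  refine ⟨⟨s.1 ∪ I.image fun n => (n, c n), ?_⟩, Finset.subset_union_left, ?_⟩
  · intro n b b' hb hb'
    have key : ∀ b, (n, b) ∈ s.1 ∪ I.image (fun n => (n, c n)) → b = c n := by
      intro b hb
      rw [Finset.mem_union, Finset.mem_image] at hb
      rcases hb with hb | ⟨m, _, hm⟩
      · exact (hcs _ hb).symm
      · rw [Prod.mk.injEq] at hm
        rw [← hm.2, hm.1]
    rw [key b hb, key b' hb']
  · intro d hd
    apply hsub
    intro n hn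
    have h1 : d n = c n := hd (n, c n) (Finset.mem_union_right _ (Finset.mem_image_of_mem _ hn))
    rw [h1]
    exact (hu n hn).2

/-- the relation at a condition -/
structure SS (z : Om2 → Om1 → Nm) (γ : Om2) (i : Om1) (δ : Om2) (j : Om1) (s : Fn) : Prop where
  lt : γ < δ
  eq : ∀ c ∈ bo s, ∀ ξ < γ, z γ i c ξ = z δ j c ξ
  min : ∀ i' < i, ∀ s' : Fn, s.1 ⊆ s'.1 → ¬ ∀ c ∈ bo s', ∀ ξ < γ, z γ i' c ξ = z γ i c ξ

theorem SS.congr {z z' : Om2 → Om1 → Nm} {γ i δ j s} (h : SS z γ i δ j s) (h1 : z' γ = z γ)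
    (h2 : z' δ = z δ) : SS z' γ i δ j s := by
  refine ⟨h.lt, ?_, ?_⟩
  · rw [h1, h2]
    exact h.eq
  · rw [h1]
    exact h.min

theorem SS.trans {z : Om2 → Om1 → Nm} {γ i δ j ε k s} (h : SS z γ i δ j s)
    (h' : SS z δ j ε k s) : SS z γ i ε k s :=
  ⟨h.lt.trans h'.lt, fun c hc ξ hξ => (h.eq c hc ξ hξ).trans (h'.eq c hc ξ (hξ.trans h.lt)), h.min⟩

theorem SS.cmp {z : Om2 → Om1 → Nm} {γ i δ j ε k s} (h0 : γ < δ) (h : SS z γ i ε k s)
    (h' : SS z δ j ε k s) : SS z γ i δ j s :=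
  ⟨h0, fun c hc ξ hξ => (h.eq c hc ξ hξ).trans (h'.eq c hc ξ (hξ.trans h0)).symm, h.min⟩

theorem SS.uniq {z : Om2 → Om1 → Nm} {γ i j ε k s} (h : SS z γ i ε k s)
    (h' : SS z γ j ε k s) : i = j := by
  rcases lt_trichotomy i j with h1 | h1 | h1
  · exact (h'.min i h1 s (Finset.Subset.refl _) fun c hc ξ hξ =>
      (h.eq c hc ξ hξ).trans (h'.eq c hc ξ hξ).symm).elim
  · exact h1
  · exact (h.min j h1 s (Finset.Subset.refl _) fun c hc ξ hξ =>
      (h'.eq c hc ξ hξ).trans (h.eq c hc ξ hξ).symm).elim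

theorem SS.mono {z : Om2 → Om1 → Nm} {γ i δ j s s'} (h : SS z γ i δ j s) (hs : s.1 ⊆ s'.1) :
    SS z γ i δ j s' :=
  ⟨h.lt, fun c hc => h.eq c (bo_mono hs hc), fun i' hi' s'' hs'' =>
    h.min i' hi' s'' (hs.trans hs'')⟩

theorem SS.reg {z : Om2 → Om1 → Nm} {γ i δ j s}
    (h : ∀ s' : Fn, s.1 ⊆ s'.1 → ∃ s'' : Fn, s'.1 ⊆ s''.1 ∧ SS z γ i δ j s'') : SS z γ i δ j s := by
  refine ⟨?_, ?_, ?_⟩
  · obtain ⟨s'', _, h1⟩ := h s (Finset.Subset.refl _)
    exact h1.lt
  · intro c hc ξ hξ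
    by_contra hne
    have hU : IsOpen {c : Cs | z γ i c ξ ≠ z δ j c ξ} := by
      have h1 : Continuous fun c : Cs => z γ i c ξ := (continuous_apply ξ).comp (z γ i).continuous
      have h2 : Continuous fun c : Cs => z δ j c ξ := (continuous_apply ξ).comp (z δ j).continuous
      exact isOpen_ne_fun h1 h2
    obtain ⟨s', hs', hb⟩ := exists_bo hU ⟨c, hne, hc⟩
    obtain ⟨s'', hs'', h1⟩ := h s' hs'
    obtain ⟨d, hd⟩ := bo_ne s''
    exact hb (bo_mono hs'' hd) (h1.eq d hd ξ hξ)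
  · intro i' hi' s' hs' hcon
    obtain ⟨s'', hs'', h1⟩ := h s' hs'
    exact h1.min i' hi' s'' (Finset.Subset.refl _) fun c hc => hcon c (bo_mono hs'' hc)

theorem SS.exists_pred {z : Om2 → Om1 → Nm} {γ δ : Om2} {j : Om1} (s : Fn) (hγ : γ < δ)
    (h : LocIn γ (z γ) (z δ j)) : ∃ s' : Fn, s.1 ⊆ s'.1 ∧ ∃ i, SS z γ i δ j s' := by
  classical
  let I : Set Om1 := {i | ∃ s' : Fn, s.1 ⊆ s'.1 ∧ ∀ c ∈ bo s', ∀ ξ < γ, z γ i c ξ = z δ j c ξ}
  have hI : I.Nonempty := by
    obtain ⟨V, hV, hVo, hVne, i, hi⟩ := h (bo s) (bo_open s) (bo_ne s)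
    obtain ⟨c, hc⟩ := hVne
    obtain ⟨s', hs', hb⟩ := exists_bo hVo ⟨c, hc, hV hc⟩
    exact ⟨i, s', hs', fun c hc ξ hξ => (hi c (hb hc) ξ hξ).symm⟩
  obtain ⟨s', hs', h1⟩ := (wellFounded_lt (α := Om1)).min_mem I hI
  refine ⟨s', hs', (wellFounded_lt (α := Om1)).min I hI, hγ, h1, ?_⟩
  intro i' hi' s'' hs'' hcon
  refine (wellFounded_lt (α := Om1)).not_lt_min I (x := i') ?_ hi'
  exact ⟨s'', hs'.trans hs'', fun c hc ξ hξ =>
    (hcon c hc ξ hξ).trans (h1 c (bo_mono hs'' hc) ξ hξ)⟩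

/-! ### The name -/

/-- the index set -/
abbrev Ix5 : Type := ((Om2 × Om1) × (Om2 × Om1)) × Fn

/-- the condition `t` decides that the relation holds -/
def QS (x : Ix5) (t : Cnd) : Prop :=
  x.1.2.1 ≤ t.ht ∧ SS t.z x.1.1.1 x.1.1.2 x.1.2.1 x.1.2.2 x.2

theorem down_QS : Down QS := by
  rintro ⟨⟨⟨γ, i⟩, δ, j⟩, s⟩ t t' ht ⟨h1, h2⟩
  exact ⟨h1.trans ht.1, h2.congr (ht.2 _ (h2.lt.le.trans h1)) (ht.2 _ h1)⟩

/-- the name of the pair `((γ, i), (δ, j))` -/
noncomputable def qnm (x : (Om2 × Om1) × (Om2 × Om1)) : Name Cnd :=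
  mkOPair (mkOPair (onm _ x.1.1) (onm _ x.1.2)) (mkOPair (onm _ x.2.1) (onm _ x.2.2))

/-- the name of the system -/
noncomputable def SN : Name Cnd := mkFn Ix5 (fun x => qnm x.1) (fun x => cnm Cnd x.2) QS

theorem cnm_inj {s s' : Fn} {t : Cnd} (h : feq (cnm Cnd s) (cnm Cnd s') t) : s = s' := by
  have key : ∀ {s s' : Fn}, feq (cnm Cnd s) (cnm Cnd s') t → s.1 ⊆ s'.1 := by
    intro s s' h x hx
    have h1 : fmem (pnm Cnd x) (cnm Cnd s) t := fmem_snm.2 hx
    exact fmem_snm.1 (fmem_congr_right h h1)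
  exact Subtype.ext (Finset.Subset.antisymm (key h) (key (feq_symm h)))

theorem cnm_sub {s s' : Fn} {t : Cnd} : Fc t (isSubset (cnm Cnd s) (cnm Cnd s')) ↔ s.1 ⊆ s'.1 :=
  snm_sub

/-- the forced relation -/
def RS (γ : Om2) (i : Om1) (δ : Om2) (j : Om1) (s : Fn) (t : Cnd) : Prop :=
  Fc t (app5 SN (onm _ γ) (onm _ i) (onm _ δ) (onm _ j) (cnm _ s))

theorem rs_loc {γ i δ j s t} : RS γ i δ j s t ↔ Loc t (QS (((γ, i), (δ, j)), s)) := by
  constructor
  · intro h
    refine (forces_ex.1 h).bind ?_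
    rintro e _ ⟨x, hx⟩
    refine (forces_ex.1 hx).bind ?_
    rintro f hf ⟨y, hy⟩
    refine (forces_ex.1 hy).bind ?_
    rintro g hg ⟨z, h1, h2, h3, h4⟩
    refine ((fc_app down_QS).1 h4).imp ?_
    rintro u hu ⟨⟨⟨⟨γ', i'⟩, δ', j'⟩, s'⟩, h5, h6, h7⟩
    have h8 := opair_inj (feq_trans (feq_symm (feq_mono hu (fc_opair_iff.1 h3))) h6)
    have h9 := opair_inj (feq_trans (feq_symm (feq_mono hu (fc_opair_iff.1 h1))) h8.1)
    have h10 := opair_inj (feq_trans (feq_symm (feq_mono hu (fc_opair_iff.1 h2))) h8.2)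
    obtain rfl := onm_inj h9.1
    obtain rfl := onm_inj h9.2
    obtain rfl := onm_inj h10.1
    obtain rfl := onm_inj h10.2
    obtain rfl := cnm_inj h7
    exact h5
  · intro h
    refine forces_ex.2 (Loc.pure fun e he => ⟨mkOPair (onm _ γ) (onm _ i), ?_⟩)
    refine forces_ex.2 (Loc.pure fun f hf => ⟨mkOPair (onm _ δ) (onm _ j), ?_⟩)
    refine forces_ex.2 (Loc.pure fun g hg => ⟨qnm ((γ, i), (δ, j)), ?_⟩)
    refine ⟨fc_opair_iff.2 (feq_refl _ _), fc_opair_iff.2 (feq_refl _ _),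
      fc_opair_iff.2 (feq_refl _ _), ?_⟩
    refine (fc_app down_QS).2 ((h.mono (hg.trans (hf.trans he))).imp fun u _ hu => ?_)
    exact ⟨_, hu, feq_refl _ _, feq_refl _ _⟩

theorem rs_iff {γ i δ j s t} (h : δ ≤ t.ht) : RS γ i δ j s t ↔ SS t.z γ i δ j s := by
  rw [rs_loc]
  constructor
  · intro h1
    obtain ⟨u, hu, _, h2⟩ := h1.exists
    exact h2.congr (hu.2 _ (h2.lt.le.trans h)).symm (hu.2 _ h).symm
  · intro h1
    exact Loc.pure fun u hu => down_QS (((γ, i), (δ, j)), s) t u hu ⟨h, h1⟩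

theorem rs_mono {γ i δ j s} {t t' : Cnd} (h : RS γ i δ j s t) (ht : t' ≤ t) :
    RS γ i δ j s t' := Forces.mono nf_basic ht h

/-- to prove that a relation is forced, one may extend the condition -/
theorem rs_of {γ i δ j s} {t : Cnd} (ε : Om2)
    (h : ∀ t' ≤ t, ε ≤ t'.ht → RS γ i δ j s t') : RS γ i δ j s t := by
  refine Forces.dense nf_basic fun u hu => ?_
  obtain ⟨v, hv, h1, _⟩ := exists_ext_gt u ε
  exact ⟨v, hv, h v (hv.trans hu) h1.le⟩

theorem rl_app5 {P : Type} {r : Name P → Name P → Prop} (hr : ∀ x, r x x)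
    {S S' a a' b b' c c' d d' e e' : Name P}
    (h : r S S') (ha : r a a') (hb : r b b') (hc : r c c') (hd : r d d') (he : r e e') :
    Fml.Rel r (app5 S a b c d e) (app5 S' a' b' c' d' e') :=
  DF.rel hr (cv (app5 0 1 2 3 4 5) 6) 6 (env [S, a, b, c, d] e) (env [S', a', b', c', d'] e')
    (rel_env (r := r) (.cons h (.cons ha (.cons hb (.cons hc (.cons hd .nil))))) he)


theorem fc_csA (t : Cnd) : Fc t (csA SN (oall Cnd Om1) (oall Cnd Om2) (call Cnd)) := by
  refine (fc_ball_oall ?_).2 fun γ => (fc_ball_oall ?_).2 fun i => (fc_ball_oall ?_).2 fun δ =>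
    (fc_ball_oall ?_).2 fun j => (fc_ball_mkAll ?_).2 fun s => ?main
  case main =>
    refine (forces_imp nf_basic).2 fun u _ h => ?_
    obtain ⟨v, _, h1⟩ := (rs_loc.1 h).exists
    exact onm_mem h1.2.lt u
  all_goals
    intro _ _ _ _
    repeat' first
      | assumption
      | exact feq_refl _ _
      | with_reducible refine rl_app5 (fun x => feq_refl x _) ?_ ?_ ?_ ?_ ?_ ?_
      | with_reducible refine Fml.Rel.app (fun x => feq_refl x _) ?_ ?_ ?_
      | with_reducible refine Fml.Rel.isSubset (fun x => feq_refl x _) ?_ ?_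
      | with_reducible refine Fml.Rel.ball (fun x => feq_refl x _) ?_ (fun _ => ?_)
      | with_reducible refine Fml.Rel.bex (fun x => feq_refl x _) ?_ (fun _ => ?_)
      | with_reducible refine Fml.Rel.imp ?_ ?_
      | with_reducible refine Fml.Rel.and ?_ ?_
      | with_reducible refine Fml.Rel.neg ?_
      | with_reducible refine Fml.Rel.mem ?_ ?_
      | with_reducible refine Fml.Rel.eq ?_ ?_

theorem fc_csB (t : Cnd) : Fc t (csB SN (oall Cnd Om1) (oall Cnd Om2) (call Cnd)) := by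
  refine (fc_ball_oall ?_).2 fun γ => (fc_ball_oall ?_).2 fun i => (fc_ball_oall ?_).2 fun δ =>
    (fc_ball_oall ?_).2 fun j => (fc_ball_oall ?_).2 fun ε => (fc_ball_oall ?_).2 fun k =>
    (fc_ball_mkAll ?_).2 fun s => ?main
  case main =>
    refine (forces_imp nf_basic).2 fun u _ h => ?_
    refine rs_of (max δ ε) fun v hv hε => ?_
    have h1 := (rs_iff ((le_max_left _ _).trans hε)).1 (rs_mono h.1 hv)
    have h2 := (rs_iff ((le_max_right _ _).trans hε)).1 (rs_mono h.2 hv)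
    exact (rs_iff ((le_max_right _ _).trans hε)).2 (h1.trans h2)
  all_goals
    intro _ _ _ _
    repeat' first
      | assumption
      | exact feq_refl _ _
      | with_reducible refine rl_app5 (fun x => feq_refl x _) ?_ ?_ ?_ ?_ ?_ ?_
      | with_reducible refine Fml.Rel.app (fun x => feq_refl x _) ?_ ?_ ?_
      | with_reducible refine Fml.Rel.isSubset (fun x => feq_refl x _) ?_ ?_
      | with_reducible refine Fml.Rel.ball (fun x => feq_refl x _) ?_ (fun _ => ?_)
      | with_reducible refine Fml.Rel.bex (fun x => feq_refl x _) ?_ (fun _ => ?_)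
      | with_reducible refine Fml.Rel.imp ?_ ?_
      | with_reducible refine Fml.Rel.and ?_ ?_
      | with_reducible refine Fml.Rel.neg ?_
      | with_reducible refine Fml.Rel.mem ?_ ?_
      | with_reducible refine Fml.Rel.eq ?_ ?_

theorem fc_csC (t : Cnd) : Fc t (csC SN (oall Cnd Om1) (oall Cnd Om2) (call Cnd)) := by
  refine (fc_ball_oall ?_).2 fun γ => (fc_ball_oall ?_).2 fun i => (fc_ball_oall ?_).2 fun δ =>
    (fc_ball_oall ?_).2 fun j => (fc_ball_oall ?_).2 fun ε => (fc_ball_oall ?_).2 fun k =>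
    (fc_ball_mkAll ?_).2 fun s => ?main
  case main =>
    refine (forces_imp nf_basic).2 fun u _ h => ?_
    refine rs_of (max δ ε) fun v hv hε => ?_
    have h1 := (rs_iff ((le_max_right _ _).trans hε)).1 (rs_mono h.2.1 hv)
    have h2 := (rs_iff ((le_max_right _ _).trans hε)).1 (rs_mono h.2.2 hv)
    exact (rs_iff ((le_max_left _ _).trans hε)).2 (h1.cmp (onm_mem_iff.1 h.1) h2)
  all_goals
    intro _ _ _ _
    repeat' first
      | assumption
      | exact feq_refl _ _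
      | with_reducible refine rl_app5 (fun x => feq_refl x _) ?_ ?_ ?_ ?_ ?_ ?_
      | with_reducible refine Fml.Rel.app (fun x => feq_refl x _) ?_ ?_ ?_
      | with_reducible refine Fml.Rel.isSubset (fun x => feq_refl x _) ?_ ?_
      | with_reducible refine Fml.Rel.ball (fun x => feq_refl x _) ?_ (fun _ => ?_)
      | with_reducible refine Fml.Rel.bex (fun x => feq_refl x _) ?_ (fun _ => ?_)
      | with_reducible refine Fml.Rel.imp ?_ ?_
      | with_reducible refine Fml.Rel.and ?_ ?_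
      | with_reducible refine Fml.Rel.neg ?_
      | with_reducible refine Fml.Rel.mem ?_ ?_
      | with_reducible refine Fml.Rel.eq ?_ ?_

theorem fc_csD (t : Cnd) : Fc t (csD SN (oall Cnd Om1) (oall Cnd Om2) (call Cnd)) := by
  refine (fc_ball_oall ?_).2 fun γ => (fc_ball_oall ?_).2 fun i => (fc_ball_oall ?_).2 fun j =>
    (fc_ball_oall ?_).2 fun ε => (fc_ball_oall ?_).2 fun k =>
    (fc_ball_mkAll ?_).2 fun s => ?main
  case main =>
    refine (forces_imp nf_basic).2 fun u _ h => ?_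
    obtain ⟨v, hv, hε, _⟩ := exists_ext_gt u ε
    have h1 := (rs_iff hε.le).1 (rs_mono h.1 hv)
    have h2 := (rs_iff hε.le).1 (rs_mono h.2 hv)
    rw [h1.uniq h2]
    exact feq_refl _ _
  all_goals
    intro _ _ _ _
    repeat' first
      | assumption
      | exact feq_refl _ _
      | with_reducible refine rl_app5 (fun x => feq_refl x _) ?_ ?_ ?_ ?_ ?_ ?_
      | with_reducible refine Fml.Rel.app (fun x => feq_refl x _) ?_ ?_ ?_
      | with_reducible refine Fml.Rel.isSubset (fun x => feq_refl x _) ?_ ?_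
      | with_reducible refine Fml.Rel.ball (fun x => feq_refl x _) ?_ (fun _ => ?_)
      | with_reducible refine Fml.Rel.bex (fun x => feq_refl x _) ?_ (fun _ => ?_)
      | with_reducible refine Fml.Rel.imp ?_ ?_
      | with_reducible refine Fml.Rel.and ?_ ?_
      | with_reducible refine Fml.Rel.neg ?_
      | with_reducible refine Fml.Rel.mem ?_ ?_
      | with_reducible refine Fml.Rel.eq ?_ ?_

theorem fc_csE (t : Cnd) : Fc t (csE SN (oall Cnd Om1) (oall Cnd Om2) (call Cnd)) := by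
  refine (fc_ball_oall ?_).2 fun δ => (fc_ball_oall ?_).2 fun j => (fc_ball_onm ?_).2 fun γ hγ =>
    (fc_ball_mkAll ?_).2 fun s => (fc_bex_mkAll ?_).2 ?main
  case main =>
    intro u _
    obtain ⟨v, hv, hδ, _⟩ := exists_ext_gt u δ
    obtain ⟨s', hs', i, hi⟩ := SS.exists_pred (z := v.z) (j := j) s hγ
      (v.res γ δ hγ.le hδ.le _ (locIn_self δ (v.z δ) j))
    refine ⟨v, hv, s', cnm_sub.2 hs', ?_⟩
    exact forces_bex.2 (Loc.pure fun w hw => ⟨_, onm_mem_oall i w,
      rs_mono ((rs_iff hδ.le).2 hi) hw⟩)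
  all_goals
    intro _ _ _ _
    repeat' first
      | assumption
      | exact feq_refl _ _
      | with_reducible refine rl_app5 (fun x => feq_refl x _) ?_ ?_ ?_ ?_ ?_ ?_
      | with_reducible refine Fml.Rel.app (fun x => feq_refl x _) ?_ ?_ ?_
      | with_reducible refine Fml.Rel.isSubset (fun x => feq_refl x _) ?_ ?_
      | with_reducible refine Fml.Rel.ball (fun x => feq_refl x _) ?_ (fun _ => ?_)
      | with_reducible refine Fml.Rel.bex (fun x => feq_refl x _) ?_ (fun _ => ?_)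
      | with_reducible refine Fml.Rel.imp ?_ ?_
      | with_reducible refine Fml.Rel.and ?_ ?_
      | with_reducible refine Fml.Rel.neg ?_
      | with_reducible refine Fml.Rel.mem ?_ ?_
      | with_reducible refine Fml.Rel.eq ?_ ?_

theorem fc_csF (t : Cnd) : Fc t (csF SN (oall Cnd Om1) (oall Cnd Om2) (call Cnd)) := by
  refine (fc_ball_oall ?_).2 fun γ => (fc_ball_oall ?_).2 fun i => (fc_ball_oall ?_).2 fun δ =>
    (fc_ball_oall ?_).2 fun j => (fc_ball_mkAll ?_).2 fun s => (fc_ball_mkAll ?_).2 fun s' => ?main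
  case main =>
    refine (forces_imp nf_basic).2 fun u _ h => ?_
    refine rs_of δ fun v hv hδ => ?_
    exact (rs_iff hδ).2 (((rs_iff hδ).1 (rs_mono h.2 hv)).mono (cnm_sub.1 h.1))
  all_goals
    intro _ _ _ _
    repeat' first
      | assumption
      | exact feq_refl _ _
      | with_reducible refine rl_app5 (fun x => feq_refl x _) ?_ ?_ ?_ ?_ ?_ ?_
      | with_reducible refine Fml.Rel.app (fun x => feq_refl x _) ?_ ?_ ?_
      | with_reducible refine Fml.Rel.isSubset (fun x => feq_refl x _) ?_ ?_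
      | with_reducible refine Fml.Rel.ball (fun x => feq_refl x _) ?_ (fun _ => ?_)
      | with_reducible refine Fml.Rel.bex (fun x => feq_refl x _) ?_ (fun _ => ?_)
      | with_reducible refine Fml.Rel.imp ?_ ?_
      | with_reducible refine Fml.Rel.and ?_ ?_
      | with_reducible refine Fml.Rel.neg ?_
      | with_reducible refine Fml.Rel.mem ?_ ?_
      | with_reducible refine Fml.Rel.eq ?_ ?_

theorem fc_csG (t : Cnd) : Fc t (csG SN (oall Cnd Om1) (oall Cnd Om2) (call Cnd)) := by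
  refine (fc_ball_oall ?_).2 fun γ => (fc_ball_oall ?_).2 fun i => (fc_ball_oall ?_).2 fun δ =>
    (fc_ball_oall ?_).2 fun j => (fc_ball_mkAll ?_).2 fun s => ?main
  case main =>
    refine (forces_imp nf_basic).2 fun u _ h => ?_
    refine rs_of δ fun v hv hδ => (rs_iff hδ).2 (SS.reg fun s' hs' => ?_)
    have h1 := (forces_ball nf_basic).1 h (cnm _ s') v hv (fmem_mkAll_of s')
    have h2 := (forces_imp nf_basic).1 h1 v le_rfl (cnm_sub.2 hs')
    obtain ⟨w, hw, x, hx, h3⟩ := (forces_bex.1 h2).exists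
    obtain ⟨w', hw', s'', he⟩ := (fmem_mkAll.1 hx).exists
    have h4 : Fc w' (and (isSubset (cnm _ s') (cnm _ s''))
        (app5 SN (onm _ γ) (onm _ i) (onm _ δ) (onm _ j) (cnm _ s''))) := by
      refine (fc_congr (.and (Fml.Rel.isSubset (fun x => feq_refl x w') (feq_refl _ _) he)
        (rl_app5 (fun x => feq_refl x w') (feq_refl _ _) (feq_refl _ _) (feq_refl _ _)
          (feq_refl _ _) (feq_refl _ _) he)) le_rfl).1 (Forces.mono nf_basic hw' h3)
    have hle : w' ≤ v := hw'.trans hw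
    refine ⟨s'', cnm_sub.1 h4.1, ?_⟩
    have h5 := (rs_iff (hδ.trans hle.1)).1 h4.2
    exact h5.congr (hle.2 _ (h5.lt.le.trans hδ)).symm (hle.2 _ hδ).symm
  all_goals
    intro _ _ _ _
    repeat' first
      | assumption
      | exact feq_refl _ _
      | with_reducible refine rl_app5 (fun x => feq_refl x _) ?_ ?_ ?_ ?_ ?_ ?_
      | with_reducible refine Fml.Rel.app (fun x => feq_refl x _) ?_ ?_ ?_
      | with_reducible refine Fml.Rel.isSubset (fun x => feq_refl x _) ?_ ?_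
      | with_reducible refine Fml.Rel.ball (fun x => feq_refl x _) ?_ (fun _ => ?_)
      | with_reducible refine Fml.Rel.bex (fun x => feq_refl x _) ?_ (fun _ => ?_)
      | with_reducible refine Fml.Rel.imp ?_ ?_
      | with_reducible refine Fml.Rel.and ?_ ?_
      | with_reducible refine Fml.Rel.neg ?_
      | with_reducible refine Fml.Rel.mem ?_ ?_
      | with_reducible refine Fml.Rel.eq ?_ ?_

theorem fc_csH (t : Cnd) : Fc t (csH SN (oall Cnd Om1) (oall Cnd Om2) (call Cnd)) := by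
  intro u _ hcon
  obtain ⟨v0, _, x, hx, h0⟩ := (forces_bex.1 hcon).exists
  obtain ⟨v1, hv1, s, he⟩ := (fmem_mkAll.1 hx).exists
  obtain ⟨v2, hv2, b, hb0⟩ := (forces_ex.1 (Forces.mono nf_basic hv1 h0)).exists
  have hb : Fc v2 (csHb SN (oall Cnd Om1) (oall Cnd Om2) (cnm _ s) b) :=
    (fc_uni (cv (csHb 0 1 2 3 4) 5) 5 (l := [SN, oall Cnd Om1, oall Cnd Om2, x])
      (l' := [SN, oall Cnd Om1, oall Cnd Om2, cnm _ s])
      (.cons (feq_refl _ _) (.cons (feq_refl _ _) (.cons (feq_refl _ _)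
        (.cons (feq_mono hv2 he) .nil)))) (feq_refl b v2) le_rfl).1 hb0
  obtain ⟨hb1, hb2⟩ := hb
  refine kill v2 (bo s) (bo_open s) (bo_ne s) (fun γ i t => Fc t (app b (onm _ γ) (onm _ i)))
    (fun γ i t t' ht h => Forces.mono nf_basic ht h) ?_ ?_
  · intro w hw ε
    have h1 := (forces_ball nf_basic).1 hb1 (onm _ ε) w hw (onm_mem_oall ε w)
    obtain ⟨w1, hw1, y, hy, h2, h3⟩ := (forces_bex.1 h1).exists
    obtain ⟨w2, hw2, γ, hγ⟩ := (fmem_oall.1 hy).exists
    obtain ⟨w3, hw3, i', hi', h4⟩ := (forces_bex.1 (Forces.mono nf_basic hw2 h3)).exists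
    obtain ⟨w4, hw4, i, hi⟩ := (fmem_oall.1 hi').exists
    refine ⟨w4, hw4.trans (hw3.trans (hw2.trans hw1)), γ, ?_, i, ?_⟩
    · by_contra hlt
      rw [not_le] at hlt
      exact h2 w2 hw2 (fmem_congr_left (feq_symm hγ) (onm_mem hlt w2))
    · exact app_congr' (feq_mono (hw4.trans hw3) hγ) hi (Forces.mono nf_basic hw4 h4)
  · intro w hw γ δ i j hγ hδ hi hj
    have h3 := (forces_ball nf_basic).1 hb2 _ w hw (onm_mem_oall γ w)
    have h4 := (forces_ball nf_basic).1 h3 _ w le_rfl (onm_mem_oall δ w)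
    have h5 := (forces_ball nf_basic).1 h4 _ w le_rfl (onm_mem_oall i w)
    have h6 := (forces_ball nf_basic).1 h5 _ w le_rfl (onm_mem_oall j w)
    have h7 := (forces_imp nf_basic).1 h6 w le_rfl ⟨onm_mem hγ w, hi, hj⟩
    exact ((rs_iff hδ).1 h7).eq

theorem fc_isCSys (t : Cnd) : Fc t (isCSys SN (oall Cnd Om1) (oall Cnd Om2) (call Cnd)) :=
  ⟨fc_csA t, fc_csB t, fc_csC t, fc_csD t, fc_csE t, fc_csF t, fc_csG t, fc_csH t⟩

/-- In the extension there is a system of tree relations indexed by Cohen conditions. -/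
theorem holds_isCSys : Holds (extE Cnd)
    (isCSys (π SN) (π (oall Cnd Om1)) (π (oall Cnd Om2)) (π (call Cnd))) :=
  (los (lk_env4 (cv (isCSys 0 1 2 3) 4) _ _ _ _)).2 (T_of_forces fc_isCSys)

theorem holds_cohen : Holds (extE Cnd) (isCohenPoset (π (call Cnd))) :=
  (los (lk_env1 (cv (isCohenPoset 0) 1) _)).2 (T_of_forces (fc_cohen distr_Cnd))

end Pool.Agent.Lib_helper27.Q
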