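import Pool.Agent.Lib_helper27.Q.Comb2

/-!
# Closure and distributivity
-/

namespace Pool.Agent.Lib_helper27.Q

open Set Cardinal

/-- A directed set of conditions without a condition of maximal height, and its limit. -/
theorem exists_sup {ι : Type} (hι : #ι ≤ aleph 1) (f : ι → Om2) :
    ∃ δ, (∀ i, f i ≤ δ) ∧ ∀ γ < δ, ∃ i, γ < f i := by
  obtain ⟨b, hb⟩ := om2_bdd_range hι f
  have hne : {δ | ∀ i, f i ≤ δ}.Nonempty := ⟨b, fun i => (hb i).le⟩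
  refine ⟨(wellFounded_lt (α := Om2)).min _ hne, (wellFounded_lt (α := Om2)).min_mem _ hne, ?_⟩
  intro γ hγ
  by_contra hcon
  push Not at hcon
  exact (wellFounded_lt (α := Om2)).not_lt_min {δ | ∀ i, f i ≤ δ} (x := γ) hcon hγ

open Classical in
/-- some index `i` with `ξ < h i` -/
noncomputable def pick {ι : Type} [Nonempty ι] (h : ι → Om2) (ξ : Om2) : ι :=
  if hξ : ∃ i, ξ < h i then hξ.choose else Classical.arbitrary ι

theorem pick_spec {ι : Type} [Nonempty ι] {h : ι → Om2} {ξ : Om2} (hξ : ∃ i, ξ < h i) :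
    ξ < h (pick h ξ) := by
  unfold pick
  rw [dif_pos hξ]
  exact hξ.choose_spec

/-- The union of a family of names. -/
noncomputable def unionNm {ι : Type} [Nonempty ι] (h : ι → Om2) (x : ι → Nm) : Nm where
  toFun := fun c ξ => x (pick h ξ) c ξ
  continuous_toFun := continuous_pi fun ξ => (continuous_apply ξ).comp (x _).continuous

theorem unionNm_eq {ι : Type} [Nonempty ι] {h : ι → Om2} {x : ι → Nm}
    (hc : ∀ i j, ∀ c, ∀ ξ, ξ < h i → ξ < h j → x i c ξ = x j c ξ) {i : ι} {ξ : Om2} (hξ : ξ < h i)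
    (c : Cs) : unionNm h x c ξ = x i c ξ :=
  hc _ _ c ξ (pick_spec ⟨i, hξ⟩) hξ

/-- Limits of families of pairwise coherent conditions. -/
theorem exists_limit {ι : Type} [Nonempty ι] (hι : #ι ≤ aleph 1) (t : ι → Cnd)
    (hcoh : ∀ i j, ∀ γ, γ ≤ (t i).ht → γ ≤ (t j).ht → (t i).z γ = (t j).z γ)
    (hmax : ∀ i, ∃ j, (t i).ht < (t j).ht) (β : Om1 → Nm)
    (hβ : ∀ j i, LocIn (t i).ht ((t i).z (t i).ht) (β j)) :
    ∃ s : Cnd, (∀ i, s ≤ t i) ∧ (∀ i, (t i).ht < s.ht) ∧ (∀ γ < s.ht, ∃ i, γ < (t i).ht) ∧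
      (∀ x, (∀ U : Set Cs, IsOpen U → U.Nonempty → ∃ V ⊆ U, IsOpen V ∧ V.Nonempty ∧
        ∃ j, EqOn' V s.ht x (β j)) → Top s x) ∧
      (∀ x, Top s x → ∀ U : Set Cs, IsOpen U → U.Nonempty → ∃ V ⊆ U, IsOpen V ∧ V.Nonempty ∧
        ∃ γ < s.ht, ∃ j, ∀ c ∈ V, ∀ ξ < s.ht, γ ≤ ξ → x c ξ = β j c ξ) := by
  classical
  obtain ⟨δ, hδ, hδ'⟩ := exists_sup hι fun i => (t i).ht
  have hlt : ∀ i, (t i).ht < δ := fun i => by
    obtain ⟨j, hj⟩ := hmax i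
    exact hj.trans_le (hδ j)
  have hz : ∀ γ, ∃ w : Om1 → Nm, ∀ i, γ ≤ (t i).ht → (t i).z γ = w := by
    intro γ
    by_cases h : ∃ i, γ ≤ (t i).ht
    · obtain ⟨i, hi⟩ := h
      exact ⟨(t i).z γ, fun j hj => hcoh j i γ hj hi⟩
    · exact ⟨fun _ => ContinuousMap.const _ fun _ => false, fun i hi => (h ⟨i, hi⟩).elim⟩
  choose z hz using hz
  have hL : Lim δ z β := by
    refine ⟨?_, ?_, ?_, ?_, ?_, ?_⟩
    · intro γ hγ
      obtain ⟨i, hi⟩ := hδ' γ hγ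
      exact ⟨_, hi, hlt i⟩
    · intro γ γ' hle hγ' x hx
      obtain ⟨i, hi⟩ := hδ' γ' hγ'
      rw [← hz γ' i hi.le] at hx
      rw [← hz γ i (hle.trans hi.le)]
      exact (t i).res γ γ' hle hi.le x hx
    · intro γ γ' hle hγ' x y hy hx
      obtain ⟨i, hi⟩ := hδ' γ' hγ'
      rw [← hz γ' i hi.le] at hx ⊢
      rw [← hz γ i (hle.trans hi.le)] at hy
      exact (t i).rep γ γ' hle hi.le x y hy hx
    · intro γ hγ ξ hξ x hx
      obtain ⟨i, hi⟩ := hδ' γ hγ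
      rw [← hz γ i hi.le] at hx ⊢
      exact (t i).flp γ hi.le ξ hξ x hx
    · intro j γ hγ
      obtain ⟨i, hi⟩ := hδ' γ hγ
      rw [← hz γ i hi.le]
      exact (t i).res γ _ hi.le le_rfl _ (hβ j i)
    · exact ⟨_, hlt (Classical.arbitrary ι)⟩
  obtain ⟨s, hs1, hs2, hs3⟩ := lim_top hL
  refine ⟨s, ?_, ?_, ?_, ?_, ?_⟩
  · intro i
    refine ⟨hs1 ▸ (hlt i).le, fun γ hγ => ?_⟩
    rw [hs2 γ (hγ.trans_lt (hlt i)), hz γ i hγ]
  · intro i
    rw [hs1]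
    exact hlt i
  · intro γ hγ
    rw [hs1] at hγ
    exact hδ' γ hγ
  · intro x hx
    rw [hs1] at hx
    rw [hs3]
    exact hL.top_br hx
  · intro x hx U hU hne
    rw [hs3] at hx
    obtain ⟨V, hVU, hV, hVne, γ, hγ, i, j, hk⟩ := hx U hU hne
    rw [hs1]
    refine ⟨V, hVU, hV, hVne, γ, hγ, j, fun c hc ξ hξ hγξ => ?_⟩
    rw [hk c hc ξ hξ, glue_ge hγξ]

theorem DCnd.le_of_ht {d e g : DCnd} (h1 : g ≤ d) (h2 : g ≤ e) (h : e.t.ht ≤ d.t.ht) : d ≤ e := by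
  refine ⟨⟨h, fun γ hγ => ?_⟩, fun c ξ hξ => ?_⟩
  · rw [← h1.1.2 γ (hγ.trans h), ← h2.1.2 γ hγ]
  · rw [← h1.2 c ξ (hξ.trans_le h), ← h2.2 c ξ hξ]

theorem dirClosed_DCnd : DirClosed DCnd := by
  classical
  intro S hS hne hdir
  by_cases hmax : ∃ d ∈ S, ∀ e ∈ S, e.t.ht ≤ d.t.ht
  · obtain ⟨d, hd, hd'⟩ := hmax
    refine ⟨d, fun e he => ?_⟩
    obtain ⟨g, _, h1, h2⟩ := hdir d hd e he
    exact DCnd.le_of_ht h1 h2 (hd' e he)
  · push Not at hmax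
    have hne' : Nonempty S := hne.to_subtype
    have hcoh : ∀ i j : S, ∀ c, ∀ ξ, ξ < i.1.t.ht → ξ < j.1.t.ht → i.1.x c ξ = j.1.x c ξ := by
      intro i j c ξ hi hj
      obtain ⟨g, _, h1, h2⟩ := hdir i.1 i.2 j.1 j.2
      rw [← h1.2 c ξ hi, ← h2.2 c ξ hj]
    obtain ⟨s, h1, h2, h3, h4, h5⟩ := exists_limit (ι := S) hS (fun i => i.1.t)
      (fun i j γ hi hj => by
        obtain ⟨g, _, h1, h2⟩ := hdir i.1 i.2 j.1 j.2
        rw [← h1.1.2 γ hi, ← h2.1.2 γ hj])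
      (fun i => by
        obtain ⟨e, he, h⟩ := hmax i.1 i.2
        exact ⟨⟨e, he⟩, h⟩)
      (fun _ => unionNm (fun i : S => i.1.t.ht) fun i => i.1.x)
      (fun _ i => i.1.top.congr fun c ξ hξ => unionNm_eq hcoh hξ c)
    have htop : Top s (unionNm (fun i : S => i.1.t.ht) fun i => i.1.x) := h4 _ fun U hU hne =>
      ⟨U, Subset.rfl, hU, hne, Classical.arbitrary _, fun _ _ _ _ => rfl⟩
    refine ⟨⟨s, _, htop⟩, fun a ha => ⟨h1 ⟨a, ha⟩, fun c ξ hξ => ?_⟩⟩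
    exact unionNm_eq hcoh (i := ⟨a, ha⟩) hξ c

/-- lower bounds of decreasing sequences of length at most `ω₁` -/
theorem DirClosed.chain {D : Type} [Preorder D] (hD : DirClosed D) {ι : Type} [LinearOrder ι]
    [Nonempty ι] (hι : #ι ≤ aleph 1) (f : ι → D) (hf : ∀ i j, i < j → f j ≤ f i) :
    ∃ e, ∀ i, e ≤ f i := by
  obtain ⟨e, he⟩ := hD (range f) (mk_range_le.trans hι) (range_nonempty f) (by
    rintro _ ⟨i, rfl⟩ _ ⟨j, rfl⟩
    rcases lt_trichotomy i j with h | rfl | h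
    · exact ⟨f j, ⟨j, rfl⟩, hf i j h, le_rfl⟩
    · exact ⟨f i, ⟨i, rfl⟩, le_rfl, le_rfl⟩
    · exact ⟨f i, ⟨i, rfl⟩, le_rfl, hf j i h⟩)
  exact ⟨e, fun i => he _ ⟨i, rfl⟩⟩

/-- `<ω₂`-distributivity -/
def Distr (D : Type) [Preorder D] : Prop :=
  ∀ E : Om1 → Set D, (∀ i, ∀ p, ∃ q ≤ p, q ∈ E i) → (∀ i, ∀ p ∈ E i, ∀ q ≤ p, q ∈ E i) →
    ∀ p, ∃ q ≤ p, ∀ i, q ∈ E i

theorem DirClosed.distr {D : Type} [Preorder D] (hD : DirClosed D) : Distr D := by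
  classical
  intro E hE hdown p
  -- recursion
  let step : ∀ i : Om1, (∀ j, j < i → D) → D := fun i g =>
    if h : ∃ e, e ∈ E i ∧ e ≤ p ∧ ∀ j (hj : j < i), e ≤ g j hj then h.choose else p
  let g : Om1 → D := (wellFounded_lt (α := Om1)).fix step
  have hg : ∀ i, g i = step i fun j _ => g j := fun i => (wellFounded_lt (α := Om1)).fix_eq step i
  have key : ∀ i, g i ∈ E i ∧ g i ≤ p ∧ ∀ j < i, g i ≤ g j := by
    intro i
    induction i using (wellFounded_lt (α := Om1)).induction with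
    | _ i ih =>
      have hex : ∃ e, e ∈ E i ∧ e ≤ p ∧ ∀ j (hj : j < i), e ≤ g j := by
        have h1 : ∃ e, e ≤ p ∧ ∀ j (hj : j < i), e ≤ g j := by
          by_cases hne : Nonempty (Iio i)
          · obtain ⟨e, he⟩ := hD.chain (ι := Iio i)
              ((mk_le_of_injective Subtype.val_injective).trans_eq mk_om1) (fun j => g j.1)
              (fun j k hjk => (ih k.1 k.2).2.2 j.1 hjk)
            obtain ⟨j⟩ := hne
            exact ⟨e, (he j).trans (ih j.1 j.2).2.1, fun k hk => he ⟨k, hk⟩⟩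
          · exact ⟨p, le_rfl, fun j hj => (hne ⟨⟨j, hj⟩⟩).elim⟩
        obtain ⟨e, he, he'⟩ := h1
        obtain ⟨e', h2, h3⟩ := hE i e
        exact ⟨e', h3, h2.trans he, fun j hj => h2.trans (he' j hj)⟩
      have : g i = hex.choose := by
        rw [hg]
        exact dif_pos hex
      rw [this]
      exact hex.choose_spec
  obtain ⟨e, he⟩ := hD.chain (ι := Om1) mk_om1.le g fun i j hij => (key j).2.2 i hij
  obtain ⟨i⟩ : Nonempty Om1 := inferInstance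
  exact ⟨e, (he i).trans (key i).2.1, fun i => hdown i _ (key i).1 _ (he i)⟩

theorem distr_Cnd : Distr Cnd := by
  intro E hE hdown p
  obtain ⟨x, hx⟩ := exists_top p
  obtain ⟨d, hd, hd'⟩ := dirClosed_DCnd.distr (fun i => {d : DCnd | d.t ∈ E i})
    (fun i d => by
      obtain ⟨q, hq, hq'⟩ := hE i d.t
      obtain ⟨d', h1, h2⟩ := exists_lift d hq
      exact ⟨d', h1, by change d'.t ∈ E i; rw [h2]; exact hq'⟩)
    (fun i d hd d' hd' => hdown i _ hd _ hd'.1) ⟨p, x, hx⟩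
  exact ⟨d.t, hd.1, hd'⟩

theorem aleph0_le_aleph1 : ℵ₀ ≤ (aleph 1 : Cardinal.{0}) := aleph0_le_aleph 1

theorem mk_nat_le : #ℕ ≤ (aleph 1 : Cardinal.{0}) := by
  rw [mk_nat]
  exact aleph0_le_aleph1

end Pool.Agent.Lib_helper27.Q
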