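import Mathlib

/-!
# The conditions: names for trees

A name (for an element of `2 ^ γ` in the Cohen extension) is a continuous map from the Cantor space
to `Om2 → Bool`, of which only the values below `γ` matter. A condition of height `δ` is, for every
`γ ≤ δ`, a family `z γ : Om1 → Nm`; the names locally equal to members of the family form the
`γ`-th level of a tree of names.
-/

namespace Pool.Agent.Lib_helper27.Q

open Set Cardinal

/-- the Cantor space -/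
abbrev Cs : Type := ℕ → Bool

/-- a well-order of type `ω₁` -/
abbrev Om1 : Type := (aleph 1 : Cardinal.{0}).ord.ToType

/-- a well-order of type `ω₂` -/
abbrev Om2 : Type := (aleph 2 : Cardinal.{0}).ord.ToType

/-- names -/
abbrev Nm : Type := C(Cs, Om2 → Bool)

/-- the names `x` and `y` agree below `γ` on `V` -/
def EqOn' (V : Set Cs) (γ : Om2) (x y : Nm) : Prop := ∀ c ∈ V, ∀ ξ < γ, x c ξ = y c ξ

/-- `x` is, below `γ`, locally equal to a member of the family `z` -/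
def LocIn (γ : Om2) (z : Om1 → Nm) (x : Nm) : Prop :=
  ∀ U : Set Cs, IsOpen U → U.Nonempty → ∃ V ⊆ U, IsOpen V ∧ V.Nonempty ∧ ∃ i, EqOn' V γ x (z i)

/-- `y` below `γ`, `x` from `γ` on -/
noncomputable def glue (γ : Om2) (y x : Nm) : Nm where
  toFun c ξ := if ξ < γ then y c ξ else x c ξ
  continuous_toFun := by
    refine continuous_pi fun ξ => ?_
    by_cases h : ξ < γ
    · simp only [h, if_true]
      exact (continuous_apply ξ).comp y.continuous
    · simp only [h, if_false]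
      exact (continuous_apply ξ).comp x.continuous

/-- change the value at `ξ` -/
noncomputable def flipAt (ξ : Om2) (x : Nm) : Nm where
  toFun c η := if η = ξ then !(x c η) else x c η
  continuous_toFun := by
    refine continuous_pi fun η => ?_
    by_cases h : η = ξ
    · simp only [h, if_true]
      exact (continuous_of_discreteTopology (f := fun b : Bool => !b)).comp
        ((continuous_apply ξ).comp x.continuous)
    · simp only [h, if_false]
      exact (continuous_apply η).comp x.continuous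

/-- A condition. -/
structure Cnd : Type where
  /-- the height -/
  ht : Om2
  /-- the families -/
  z : Om2 → Om1 → Nm
  res : ∀ γ γ', γ ≤ γ' → γ' ≤ ht → ∀ x, LocIn γ' (z γ') x → LocIn γ (z γ) x
  rep : ∀ γ γ', γ ≤ γ' → γ' ≤ ht → ∀ x y, LocIn γ (z γ) y → LocIn γ' (z γ') x →
    LocIn γ' (z γ') (glue γ y x)
  flp : ∀ γ, γ ≤ ht → ∀ ξ < γ, ∀ x, LocIn γ (z γ) x → LocIn γ (z γ) (flipAt ξ x)

instance : Preorder Cnd where
  le t' t := t.ht ≤ t'.ht ∧ ∀ γ ≤ t.ht, t'.z γ = t.z γ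
  le_refl t := ⟨le_rfl, fun _ _ => rfl⟩
  le_trans a b c h1 h2 := ⟨h2.1.trans h1.1, fun γ hγ => (h1.2 γ (hγ.trans h2.1)).trans (h2.2 γ hγ)⟩

/-- `x` is in the top level of `t` -/
def Top (t : Cnd) (x : Nm) : Prop := LocIn t.ht (t.z t.ht) x

/-- `x'` extends `x` (below `γ`) -/
def Ext' (γ : Om2) (x' x : Nm) : Prop := ∀ c, ∀ ξ < γ, x' c ξ = x c ξ

/-- A condition with an element of its top level. -/
structure DCnd : Type where
  /-- the condition -/
  t : Cnd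
  /-- the element -/
  x : Nm
  top : Top t x

instance : Preorder DCnd where
  le d' d := d'.t ≤ d.t ∧ Ext' d.t.ht d'.x d.x
  le_refl d := ⟨le_rfl, fun _ _ _ => rfl⟩
  le_trans a b c h1 h2 := ⟨h1.1.trans h2.1, fun e ξ hξ =>
    (h1.2 e ξ (hξ.trans_le h2.1.1)).trans (h2.2 e ξ hξ)⟩

/-- `<ω₂`-directed closed: every directed set of at most `ℵ₁` conditions has a lower bound. -/
def DirClosed (D : Type) [Preorder D] : Prop :=
  ∀ S : Set D, #S ≤ aleph 1 → S.Nonempty → (∀ a ∈ S, ∀ b ∈ S, ∃ c ∈ S, c ≤ a ∧ c ≤ b) →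
    ∃ e, ∀ a ∈ S, e ≤ a

/-! ### Cardinal arithmetic -/

theorem mk_om1 : #Om1 = aleph 1 := by simp

theorem mk_om2 : #Om2 = aleph 2 := by simp

theorem aleph2_eq : (aleph 2 : Cardinal.{0}) = Order.succ (aleph 1) := by
  rw [succ_aleph, one_add_one_eq_two]

theorem om2_bdd {S : Set Om2} (hS : #S ≤ aleph 1) : ∃ b, ∀ x ∈ S, x < b := by
  have h1 : ¬ IsCofinal S := by
    intro h
    have h2 := Order.cof_le h
    have h4 : (aleph 1 : Cardinal.{0}) < (aleph 2 : Cardinal.{0}).ord.cof := by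
      rw [aleph2_eq, (isRegular_succ (aleph0_le_aleph 1)).cof_ord]
      exact Order.lt_succ _
    rw [← Ordinal.cof_toType] at h4
    exact absurd (h2.trans hS) (not_le.2 h4)
  rw [not_isCofinal_iff] at h1
  obtain ⟨ζ, hζ⟩ := h1
  exact ⟨ζ, fun x hx => hζ x hx⟩

theorem om2_bdd_range {ι : Type} (hι : #ι ≤ aleph 1) (f : ι → Om2) : ∃ b, ∀ i, f i < b := by
  obtain ⟨b, hb⟩ := om2_bdd (S := range f) (mk_range_le.trans hι)
  exact ⟨b, fun i => hb _ ⟨i, rfl⟩⟩

theorem mk_iio_le (γ : Om2) : #(Iio γ) ≤ aleph 1 := by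
  have := mk_Iio_lt (α := Om2) γ (by simp)
  rw [mk_om2] at this
  exact Order.lt_succ_iff.1 (this.trans_eq aleph2_eq)

theorem exists_gt_om2 (γ : Om2) : ∃ δ, γ < δ := by
  obtain ⟨b, hb⟩ := om2_bdd_range (ι := Unit) (by simp [one_le_aleph0.trans (aleph0_le_aleph 1)])
    fun _ => γ
  exact ⟨b, hb ()⟩

instance : NoMaxOrder Om2 := ⟨exists_gt_om2⟩

instance : Nonempty Om1 := by
  rw [← mk_ne_zero_iff, mk_om1]
  exact (aleph_pos 1).ne'

instance : Nonempty Om2 := by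
  rw [← mk_ne_zero_iff, mk_om2]
  exact (aleph_pos 2).ne'

theorem exists_enum {G : Set Nm} (hG : #G ≤ aleph 1) (hne : G.Nonempty) :
    ∃ z : Om1 → Nm, range z = G := by
  have h : #G ≤ #Om1 := hG.trans_eq mk_om1.symm
  rw [Cardinal.le_def] at h
  obtain ⟨e⟩ := h
  obtain ⟨x0, hx0⟩ := hne
  have hN : Nonempty G := ⟨⟨x0, hx0⟩⟩
  refine ⟨fun i => (Function.invFun e i : G), ?_⟩
  ext x
  constructor
  · rintro ⟨i, rfl⟩
    exact (Function.invFun e i).2
  · intro hx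
    exact ⟨e ⟨x, hx⟩, by simp [Function.leftInverse_invFun e.injective (⟨x, hx⟩ : G)]⟩

/-! ### Local membership -/

theorem EqOn'.mono {V W : Set Cs} {γ δ : Om2} {x y : Nm} (h : EqOn' V γ x y) (hW : W ⊆ V)
    (hδ : δ ≤ γ) : EqOn' W δ x y := fun c hc ξ hξ => h c (hW hc) ξ (hξ.trans_le hδ)

theorem EqOn'.symm {V : Set Cs} {γ : Om2} {x y : Nm} (h : EqOn' V γ x y) : EqOn' V γ y x :=
  fun c hc ξ hξ => (h c hc ξ hξ).symm

theorem EqOn'.trans {V : Set Cs} {γ : Om2} {x y w : Nm} (h : EqOn' V γ x y)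
    (h' : EqOn' V γ y w) : EqOn' V γ x w := fun c hc ξ hξ => (h c hc ξ hξ).trans (h' c hc ξ hξ)

theorem locIn_self (γ : Om2) (z : Om1 → Nm) (i : Om1) : LocIn γ z (z i) :=
  fun U hU hne => ⟨U, Subset.rfl, hU, hne, i, fun _ _ _ _ => rfl⟩

theorem LocIn.loc {γ : Om2} {z : Om1 → Nm} {x : Nm}
    (h : ∀ U : Set Cs, IsOpen U → U.Nonempty → ∃ V ⊆ U, IsOpen V ∧ V.Nonempty ∧
      ∃ y, LocIn γ z y ∧ EqOn' V γ x y) : LocIn γ z x := by
  intro U hU hne
  obtain ⟨V, hVU, hV, hVne, y, hy, he⟩ := h U hU hne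
  obtain ⟨W, hWV, hW, hWne, i, hi⟩ := hy V hV hVne
  exact ⟨W, hWV.trans hVU, hW, hWne, i, (he.mono hWV le_rfl).trans hi⟩

theorem LocIn.congr {γ : Om2} {z : Om1 → Nm} {x y : Nm} (hx : LocIn γ z x)
    (h : ∀ c, ∀ ξ < γ, y c ξ = x c ξ) : LocIn γ z y :=
  LocIn.loc fun U hU hne => ⟨U, Subset.rfl, hU, hne, x, hx, fun c _ ξ hξ => h c ξ hξ⟩

@[simp]
theorem glue_lt {γ ξ : Om2} (h : ξ < γ) (y x : Nm) (c : Cs) : glue γ y x c ξ = y c ξ := if_pos h

@[simp]
theorem glue_ge {γ ξ : Om2} (h : γ ≤ ξ) (y x : Nm) (c : Cs) : glue γ y x c ξ = x c ξ :=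
  if_neg (not_lt.2 h)

@[simp]
theorem flipAt_self (ξ : Om2) (x : Nm) (c : Cs) : flipAt ξ x c ξ = !(x c ξ) := if_pos rfl

@[simp]
theorem flipAt_ne {ξ η : Om2} (h : η ≠ ξ) (x : Nm) (c : Cs) : flipAt ξ x c η = x c η := if_neg h

/-- `x` on `e`, `y` outside -/
noncomputable def mix {e : Set Cs} (he : IsClopen e) (x y : Nm) : Nm := by
  classical
  exact
  { toFun := fun c => if c ∈ e then x c else y c
    continuous_toFun := by
      refine Continuous.if ?_ x.continuous y.continuous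
      intro c hc
      have : frontier {c | c ∈ e} = ∅ := he.frontier_eq
      rw [this] at hc
      exact hc.elim }

theorem mix_mem {e : Set Cs} (he : IsClopen e) (x y : Nm) {c : Cs} (hc : c ∈ e) :
    mix he x y c = x c := if_pos hc

theorem mix_not_mem {e : Set Cs} (he : IsClopen e) (x y : Nm) {c : Cs} (hc : c ∉ e) :
    mix he x y c = y c := if_neg hc

theorem LocIn.mix {γ : Om2} {z : Om1 → Nm} {e : Set Cs} (he : IsClopen e) {x y : Nm}
    (hx : LocIn γ z x) (hy : LocIn γ z y) : LocIn γ z (mix he x y) := by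
  refine LocIn.loc fun U hU hne => ?_
  by_cases h : (U ∩ e).Nonempty
  · exact ⟨U ∩ e, inter_subset_left, hU.inter he.isOpen, h, x, hx, fun c hc ξ _ => by
      rw [mix_mem he x y hc.2]⟩
  · refine ⟨U, Subset.rfl, hU, hne, y, hy, fun c hc ξ _ => ?_⟩
    rw [mix_not_mem he x y fun hce => h ⟨c, hc, hce⟩]

/-! ### Existence of conditions -/

/-- Hypothesis under which a family of levels is extended by a top level. -/
structure Lim (δ : Om2) (z : Om2 → Om1 → Nm) (β : Om1 → Nm) : Prop where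
  lim : ∀ γ < δ, ∃ γ', γ < γ' ∧ γ' < δ
  res : ∀ γ γ', γ ≤ γ' → γ' < δ → ∀ x, LocIn γ' (z γ') x → LocIn γ (z γ) x
  rep : ∀ γ γ', γ ≤ γ' → γ' < δ → ∀ x y, LocIn γ (z γ) y → LocIn γ' (z γ') x →
    LocIn γ' (z γ') (glue γ y x)
  flp : ∀ γ, γ < δ → ∀ ξ < γ, ∀ x, LocIn γ (z γ) x → LocIn γ (z γ) (flipAt ξ x)
  br : ∀ j, ∀ γ < δ, LocIn γ (z γ) (β j)
  ne : ∃ γ, γ < δ

theorem lim_top {δ : Om2} {z : Om2 → Om1 → Nm} {β : Om1 → Nm} (h : Lim δ z β) :
    ∃ t : Cnd, t.ht = δ ∧ (∀ γ < δ, t.z γ = z γ) ∧ ∀ x, Top t x ↔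
      ∀ U : Set Cs, IsOpen U → U.Nonempty → ∃ V ⊆ U, IsOpen V ∧ V.Nonempty ∧
        ∃ γ < δ, ∃ i j, EqOn' V δ x (glue γ (z γ i) (β j)) := by
  classical
  let F : Iio δ × Om1 × Om1 → Nm := fun p => glue p.1.1 (z p.1.1 p.2.1) (β p.2.2)
  have hcard : #(range F) ≤ aleph 1 := by
    refine mk_range_le.trans ?_
    rw [mk_prod, mk_prod, lift_id, lift_id, lift_id, mk_om1]
    have := aleph0_le_aleph 1
    rw [mul_eq_self this]
    exact (mul_le_mul' (mk_iio_le δ) le_rfl).trans (mul_eq_self this).le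
  have hne : (range F).Nonempty := by
    obtain ⟨γ, hγ⟩ := h.ne
    obtain ⟨i⟩ : Nonempty Om1 := inferInstance
    exact ⟨_, ⟨⟨γ, hγ⟩, i, i⟩, rfl⟩
  obtain ⟨w, hw⟩ := exists_enum hcard hne
  -- membership in the new top level
  have key : ∀ x, LocIn δ w x ↔ ∀ U : Set Cs, IsOpen U → U.Nonempty → ∃ V ⊆ U, IsOpen V ∧
      V.Nonempty ∧ ∃ γ < δ, ∃ i j, EqOn' V δ x (glue γ (z γ i) (β j)) := by
    intro x
    constructor
    · intro hx U hU hne
      obtain ⟨V, hVU, hV, hVne, k, hk⟩ := hx U hU hne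
      have : w k ∈ range F := hw ▸ ⟨k, rfl⟩
      obtain ⟨⟨⟨γ, hγ⟩, i, j⟩, hF⟩ := this
      refine ⟨V, hVU, hV, hVne, γ, hγ, i, j, ?_⟩
      rw [← hF] at hk
      exact hk
    · intro hx U hU hne
      obtain ⟨V, hVU, hV, hVne, γ, hγ, i, j, hk⟩ := hx U hU hne
      have : F (⟨γ, hγ⟩, i, j) ∈ range w := hw ▸ ⟨_, rfl⟩
      obtain ⟨k, hk'⟩ := this
      refine ⟨V, hVU, hV, hVne, k, ?_⟩
      rw [hk']
      exact hk
  have hin : ∀ γ < δ, ∀ i j, ∀ γ' < δ, LocIn γ' (z γ') (glue γ (z γ i) (β j)) := by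
    intro γ hγ i j γ' hγ'
    rcases le_total γ γ' with hle | hle
    · exact h.rep γ γ' hle hγ' _ _ (locIn_self _ _ _) (h.br j γ' hγ')
    · refine (h.res γ' γ hle hγ _ (locIn_self _ _ i)).congr fun c ξ hξ => ?_
      rw [glue_lt (hξ.trans_le hle)]
  let z' : Om2 → Om1 → Nm := fun γ => if γ < δ then z γ else w
  have hz : ∀ γ, γ < δ → z' γ = z γ := fun γ hγ => if_pos hγ
  have hz' : z' δ = w := if_neg (lt_irrefl δ)
  refine ⟨⟨δ, z', ?_, ?_, ?_⟩, rfl, hz, fun x => ?_⟩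
  · intro γ γ' hle hle' x hx
    rcases hle'.lt_or_eq with hlt | rfl
    · rw [hz γ' hlt] at hx
      rw [hz γ (hle.trans_lt hlt)]
      exact h.res γ γ' hle hlt x hx
    · rcases hle.lt_or_eq with hlt | rfl
      · rw [hz' ] at hx
        rw [hz γ hlt]
        refine LocIn.loc fun U hU hne => ?_
        obtain ⟨V, hVU, hV, hVne, γ1, hγ1, i, j, hk⟩ := (key x).1 hx U hU hne
        exact ⟨V, hVU, hV, hVne, _, hin γ1 hγ1 i j γ hlt, hk.mono Subset.rfl hlt.le⟩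
      · exact hx
  · intro γ γ' hle hle' x y hy hx
    rcases hle'.lt_or_eq with hlt | rfl
    · rw [hz γ' hlt] at hx ⊢
      rw [hz γ (hle.trans_lt hlt)] at hy
      exact h.rep γ γ' hle hlt x y hy hx
    · rcases hle.lt_or_eq with hlt | rfl
      · rw [hz'] at hx ⊢
        rw [hz γ hlt] at hy
        rw [key]
        intro U hU hne
        obtain ⟨V, hVU, hV, hVne, γ1, hγ1, i, j, hk⟩ := (key x).1 hx U hU hne
        have hm : max γ γ1 < γ' := max_lt hlt hγ1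
        obtain ⟨W, hWV, hW, hWne, i', hi'⟩ :=
          h.rep γ (max γ γ1) (le_max_left _ _) hm _ y hy (hin γ1 hγ1 i j _ hm) V hV hVne
        refine ⟨W, hWV.trans hVU, hW, hWne, max γ γ1, hm, i', j, ?_⟩
        intro c hc ξ hξ
        rcases lt_or_ge ξ (max γ γ1) with h1 | h1
        · rw [glue_lt h1, ← hi' c hc ξ h1]
          rcases lt_or_ge ξ γ with h2 | h2
          · rw [glue_lt h2, glue_lt h2]
          · rw [glue_ge h2, glue_ge h2]
            exact hk c (hWV hc) ξ hξ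
        · rw [glue_ge h1, glue_ge ((le_max_left _ _).trans h1), hk c (hWV hc) ξ hξ,
            glue_ge ((le_max_right _ _).trans h1)]
      · refine LocIn.congr (x := y) hy fun c ξ hξ => ?_
        rw [glue_lt hξ]
  · intro γ hle ξ hξ x hx
    rcases hle.lt_or_eq with hlt | rfl
    · rw [hz γ hlt] at hx ⊢
      exact h.flp γ hlt ξ hξ x hx
    · rw [hz'] at hx ⊢
      rw [key]
      intro U hU hne
      obtain ⟨V, hVU, hV, hVne, γ1, hγ1, i, j, hk⟩ := (key x).1 hx U hU hne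
      obtain ⟨ξ', hξ', hξ''⟩ := h.lim ξ hξ
      have hm : max ξ' γ1 < γ := max_lt hξ'' hγ1
      have hξm : ξ < max ξ' γ1 := lt_of_lt_of_le hξ' (le_max_left _ _)
      obtain ⟨W, hWV, hW, hWne, i', hi'⟩ :=
        h.flp (max ξ' γ1) hm ξ hξm _ (hin γ1 hγ1 i j _ hm) V hV hVne
      refine ⟨W, hWV.trans hVU, hW, hWne, max ξ' γ1, hm, i', j, ?_⟩
      intro c hc η hη
      rcases lt_or_ge η (max ξ' γ1) with h1 | h1
      · rw [glue_lt h1, ← hi' c hc η h1]
        by_cases h2 : η = ξ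
        · subst h2
          rw [flipAt_self, flipAt_self, hk c (hWV hc) η hη]
        · rw [flipAt_ne h2, flipAt_ne h2, hk c (hWV hc) η hη]
      · rw [glue_ge h1, flipAt_ne (hξm.trans_le h1).ne', hk c (hWV hc) η hη,
          glue_ge ((le_max_right _ _).trans h1)]
  · change LocIn δ (z' δ) x ↔ _
    rw [hz', key]

theorem Lim.top_br {δ : Om2} {z : Om2 → Om1 → Nm} {β : Om1 → Nm} (h : Lim δ z β) {x : Nm}
    (hx : ∀ U : Set Cs, IsOpen U → U.Nonempty → ∃ V ⊆ U, IsOpen V ∧ V.Nonempty ∧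
      ∃ j, EqOn' V δ x (β j)) :
      ∀ U : Set Cs, IsOpen U → U.Nonempty → ∃ V ⊆ U, IsOpen V ∧ V.Nonempty ∧
        ∃ γ < δ, ∃ i j, EqOn' V δ x (glue γ (z γ i) (β j)) := by
  intro U hU hne
  obtain ⟨V, hVU, hV, hVne, j, hj⟩ := hx U hU hne
  obtain ⟨γ, hγ⟩ := h.ne
  obtain ⟨W, hWV, hW, hWne, i, hi⟩ := h.br j γ hγ V hV hVne
  refine ⟨W, hWV.trans hVU, hW, hWne, γ, hγ, i, j, ?_⟩
  intro c hc ξ hξ
  rcases lt_or_ge ξ γ with h1 | h1
  · rw [glue_lt h1, ← hi c hc ξ h1, hj c (hWV hc) ξ hξ]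
  · rw [glue_ge h1, hj c (hWV hc) ξ hξ]

end Pool.Agent.Lib_helper27.Q
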