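import Pool.Agent.Lib_helper27.Q.Comb

/-!
# Extending conditions
-/

namespace Pool.Agent.Lib_helper27.Q

open Set Cardinal

theorem exists_bot : ∃ b : Om2, ∀ x, b ≤ x := by
  obtain ⟨x⟩ : Nonempty Om2 := inferInstance
  refine ⟨(wellFounded_lt (α := Om2)).min univ ⟨x, trivial⟩, fun y => ?_⟩
  exact not_lt.1 ((wellFounded_lt (α := Om2)).not_lt_min univ (x := y) trivial)

theorem locIn_bot {γ : Om2} (hγ : ∀ x, γ ≤ x) (z : Om1 → Nm) (x : Nm) : LocIn γ z x := by
  obtain ⟨i⟩ : Nonempty Om1 := inferInstance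
  exact (locIn_self γ z i).congr fun c ξ hξ => absurd hξ (not_lt.2 (hγ ξ))

instance : Nonempty Cnd := by
  obtain ⟨b, hb⟩ := exists_bot
  refine ⟨⟨b, fun _ _ => ContinuousMap.const _ fun _ => false, ?_, ?_, ?_⟩⟩
  · intro γ γ' hle hle' x _
    exact locIn_bot (fun y => (hle.trans hle').trans (hb y)) _ _
  · intro γ γ' hle hle' x y _ _
    exact locIn_bot (fun y => hle'.trans (hb y)) _ _
  · intro γ hle ξ hξ x _
    exact locIn_bot (fun y => hle.trans (hb y)) _ _

/-- characteristic function of a finite set -/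
noncomputable def ind (F : Finset Om2) : Nm := ContinuousMap.const _ fun ξ => decide (ξ ∈ F)

theorem ind_apply (F : Finset Om2) (c : Cs) (ξ : Om2) : ind F c ξ = decide (ξ ∈ F) := rfl

theorem exists_ext_ht (t : Cnd) (δ : Om2) (hδ : t.ht ≤ δ) : ∃ t' ≤ t, t'.ht = δ := by
  classical
  have h1 : ∀ γ : Om2, ∃ w : Om1 → Nm, range w = range fun p : Om1 × Finset (Iio γ) =>
      glue t.ht (t.z t.ht p.1) (ind (p.2.map (Function.Embedding.subtype _))) := by
    intro γ
    refine exists_enum ?_ ?_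
    · refine mk_range_le.trans ?_
      rw [mk_prod, lift_id, lift_id, mk_om1]
      have h := aleph0_le_aleph 1
      have h2 : #(Finset (Iio γ)) ≤ aleph 1 := by
        rcases finite_or_infinite (Iio γ) with hf | hi
        · have : Finite (Finset (Iio γ)) := inferInstance
          exact (lt_aleph0_of_finite _).le.trans h
        · rw [mk_finset_of_infinite]
          exact mk_iio_le γ
      exact (mul_le_mul' le_rfl h2).trans (mul_eq_self h).le
    · obtain ⟨i⟩ : Nonempty Om1 := inferInstance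
      exact ⟨_, (i, ∅), rfl⟩
  choose w hw using h1
  have key : ∀ γ x, LocIn γ (w γ) x ↔ ∀ U : Set Cs, IsOpen U → U.Nonempty → ∃ V ⊆ U, IsOpen V ∧
      V.Nonempty ∧ ∃ i, ∃ F : Finset Om2, EqOn' V γ x (glue t.ht (t.z t.ht i) (ind F)) := by
    intro γ x
    constructor
    · intro hx U hU hne
      obtain ⟨V, hVU, hV, hVne, k, hk⟩ := hx U hU hne
      have : w γ k ∈ range (w γ) := ⟨k, rfl⟩
      rw [hw] at this
      obtain ⟨⟨i, F⟩, hF⟩ := this
      rw [← hF] at hk
      exact ⟨V, hVU, hV, hVne, i, _, hk⟩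
    · intro hx U hU hne
      obtain ⟨V, hVU, hV, hVne, i, F, hk⟩ := hx U hU hne
      have : glue t.ht (t.z t.ht i) (ind ((F.subtype (· < γ)).map (Function.Embedding.subtype _))) ∈
          range (w γ) := by
        rw [hw]
        exact ⟨(i, F.subtype (· < γ)), rfl⟩
      obtain ⟨k, hk'⟩ := this
      refine ⟨V, hVU, hV, hVne, k, ?_⟩
      rw [hk']
      intro c hc ξ hξ
      rw [hk c hc ξ hξ]
      rcases lt_or_ge ξ t.ht with h2 | h2
      · rw [glue_lt h2, glue_lt h2]
      · rw [glue_ge h2, glue_ge h2, ind_apply, ind_apply]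
        congr 1
        simp [hξ]
  let z' : Om2 → Om1 → Nm := fun γ => if γ ≤ t.ht then t.z γ else w γ
  have hz : ∀ γ, γ ≤ t.ht → z' γ = t.z γ := fun γ hγ => if_pos hγ
  have hz' : ∀ γ, t.ht < γ → z' γ = w γ := fun γ hγ => if_neg (not_le.2 hγ)
  refine ⟨⟨δ, z', ?_, ?_, ?_⟩, ⟨hδ, hz⟩, rfl⟩
  · intro γ γ' hle _ x hx
    rcases le_or_gt γ' t.ht with h | h
    · rw [hz γ' h] at hx
      rw [hz γ (hle.trans h)]
      exact t.res γ γ' hle h x hx
    · rw [hz' γ' h, key] at hx
      rcases le_or_gt γ t.ht with h' | h'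
      · rw [hz γ h']
        refine LocIn.loc fun U hU hne => ?_
        obtain ⟨V, hVU, hV, hVne, i, F, hk⟩ := hx U hU hne
        refine ⟨V, hVU, hV, hVne, _, t.res γ t.ht h' le_rfl _ (locIn_self _ _ i), ?_⟩
        intro c hc ξ hξ
        rw [hk c hc ξ (hξ.trans_le hle), glue_lt (hξ.trans_le h')]
      · rw [hz' γ h', key]
        intro U hU hne
        obtain ⟨V, hVU, hV, hVne, i, F, hk⟩ := hx U hU hne
        exact ⟨V, hVU, hV, hVne, i, F, hk.mono Subset.rfl hle⟩
  · intro γ γ' hle _ x y hy hx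
    rcases le_or_gt γ' t.ht with h | h
    · rw [hz γ' h] at hx ⊢
      rw [hz γ (hle.trans h)] at hy
      exact t.rep γ γ' hle h x y hy hx
    · rw [hz' γ' h, key] at hx ⊢
      rcases le_or_gt γ t.ht with h' | h'
      · rw [hz γ h'] at hy
        intro U hU hne
        obtain ⟨V, hVU, hV, hVne, i, F, hk⟩ := hx U hU hne
        obtain ⟨W, hWV, hW, hWne, i', hi'⟩ :=
          t.rep γ t.ht h' le_rfl _ y hy (locIn_self _ _ i) V hV hVne
        refine ⟨W, hWV.trans hVU, hW, hWne, i', F, ?_⟩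
        intro c hc ξ hξ
        rcases lt_or_ge ξ t.ht with h1 | h1
        · rw [glue_lt h1, ← hi' c hc ξ h1]
          rcases lt_or_ge ξ γ with h2 | h2
          · rw [glue_lt h2, glue_lt h2]
          · rw [glue_ge h2, glue_ge h2, hk c (hWV hc) ξ hξ, glue_lt h1]
        · rw [glue_ge h1, glue_ge (h'.trans h1), hk c (hWV hc) ξ hξ, glue_ge h1]
      · rw [hz' γ h', key] at hy
        intro U hU hne
        obtain ⟨V, hVU, hV, hVne, i, F, hk⟩ := hx U hU hne
        obtain ⟨W, hWV, hW, hWne, j, F', hk'⟩ := hy V hV hVne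
        refine ⟨W, hWV.trans hVU, hW, hWne, j,
          F'.filter (· < γ) ∪ F.filter (γ ≤ ·), ?_⟩
        intro c hc ξ hξ
        rcases lt_or_ge ξ t.ht with h1 | h1
        · rw [glue_lt h1, glue_lt (h1.trans h'), hk' c hc ξ (h1.trans h'), glue_lt h1]
        · rw [glue_ge h1, ind_apply]
          rcases lt_or_ge ξ γ with h2 | h2
          · rw [glue_lt h2, hk' c hc ξ h2, glue_ge h1, ind_apply]
            simp [h2]
          · rw [glue_ge h2, hk c (hWV hc) ξ hξ, glue_ge h1, ind_apply]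
            simp [h2]
  · intro γ _ ξ hξ x hx
    rcases le_or_gt γ t.ht with h | h
    · rw [hz γ h] at hx ⊢
      exact t.flp γ h ξ hξ x hx
    · rw [hz' γ h, key] at hx ⊢
      intro U hU hne
      obtain ⟨V, hVU, hV, hVne, i, F, hk⟩ := hx U hU hne
      rcases lt_or_ge ξ t.ht with h' | h'
      · obtain ⟨W, hWV, hW, hWne, i', hi'⟩ := t.flp t.ht le_rfl ξ h' _ (locIn_self _ _ i) V hV hVne
        refine ⟨W, hWV.trans hVU, hW, hWne, i', F, ?_⟩
        intro c hc η hη
        rcases lt_or_ge η t.ht with h1 | h1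
        · rw [glue_lt h1, ← hi' c hc η h1]
          by_cases h2 : η = ξ
          · subst h2
            rw [flipAt_self, flipAt_self, hk c (hWV hc) η hη, glue_lt h1]
          · rw [flipAt_ne h2, flipAt_ne h2, hk c (hWV hc) η hη, glue_lt h1]
        · rw [glue_ge h1, flipAt_ne (h'.trans_le h1).ne', hk c (hWV hc) η hη, glue_ge h1]
      · refine ⟨V, hVU, hV, hVne, i, symmDiff F {ξ}, ?_⟩
        intro c hc η hη
        rcases lt_or_ge η t.ht with h1 | h1
        · rw [glue_lt h1, flipAt_ne (h1.trans_le h').ne, hk c hc η hη, glue_lt h1]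
        · rw [glue_ge h1, ind_apply]
          by_cases h2 : η = ξ
          · subst h2
            rw [flipAt_self, hk c hc η hη, glue_ge h1, ind_apply]
            by_cases h3 : η ∈ F <;> simp [h3, Finset.mem_symmDiff]
          · rw [flipAt_ne h2, hk c hc η hη, glue_ge h1, ind_apply]
            simp [h2, Finset.mem_symmDiff]

theorem exists_ext_gt (t : Cnd) (δ : Om2) : ∃ t' ≤ t, δ < t'.ht ∧ t.ht < t'.ht := by
  obtain ⟨ε, hε⟩ := exists_gt (max δ t.ht)
  obtain ⟨t', h1, h2⟩ := exists_ext_ht t ε ((le_max_right _ _).trans hε.le)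
  exact ⟨t', h1, h2 ▸ (le_max_left _ _).trans_lt hε, h2 ▸ (le_max_right _ _).trans_lt hε⟩

/-- the condition `t'` with an element of its top level extending `x` -/
theorem Top.lift {t t' : Cnd} {x : Nm} (hx : Top t x) (h : t' ≤ t) (y : Nm) (hy : Top t' y) :
    Top t' (glue t.ht x y) := by
  refine t'.rep _ _ h.1 le_rfl _ _ ?_ hy
  rw [h.2 _ le_rfl]
  exact hx

theorem ext'_glue (γ : Om2) (x y : Nm) : Ext' γ (glue γ x y) x := fun c ξ hξ => by rw [glue_lt hξ]

theorem exists_top (t : Cnd) : ∃ x, Top t x := by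
  obtain ⟨i⟩ : Nonempty Om1 := inferInstance
  exact ⟨_, locIn_self _ _ i⟩

theorem exists_lift (d : DCnd) {t' : Cnd} (h : t' ≤ d.t) : ∃ d' : DCnd, d' ≤ d ∧ d'.t = t' := by
  obtain ⟨y, hy⟩ := exists_top t'
  exact ⟨⟨t', _, d.top.lift h y hy⟩, ⟨h, ext'_glue _ _ _⟩, rfl⟩

instance : Nonempty DCnd := by
  obtain ⟨t⟩ : Nonempty Cnd := inferInstance
  obtain ⟨x, hx⟩ := exists_top t
  exact ⟨⟨t, x, hx⟩⟩

end Pool.Agent.Lib_helper27.Q
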