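import Pool.Agent.Lib_helper27.Q.Clo

/-!
# The fusion argument
-/

namespace Pool.Agent.Lib_helper27.Q

open Set Cardinal

/-- `B γ i t x`: the condition `(t, x)` decides that the branch passes through `i` at level `γ`. -/
structure BD (t0 : Cnd) (x0 : Nm) (B : Om2 → Om1 → Cnd → Nm → Prop) : Prop where
  top0 : Top t0 x0
  mono : ∀ {γ i t x t' x'}, B γ i t x → t' ≤ t → Top t' x' → Ext' t.ht x' x → B γ i t' x'
  tot : ∀ {t x}, t ≤ t0 → Top t x → Ext' t0.ht x x0 → ∀ γ, ∃ t' ≤ t, ∃ x', Top t' x' ∧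
    Ext' t.ht x' x ∧ ∃ i, B γ i t' x'
  split : ∀ {t x}, t ≤ t0 → Top t x → Ext' t0.ht x x0 → ∃ t' ≤ t, ∃ x1 x2, Top t' x1 ∧ Top t' x2 ∧
    Ext' t.ht x1 x ∧ Ext' t.ht x2 x ∧ ∃ γ i j, i ≠ j ∧ B γ i t' x1 ∧ B γ j t' x2

/-- the two names decide the branch differently -/
def Diff (B : Om2 → Om1 → Cnd → Nm → Prop) (t : Cnd) (x y : Nm) : Prop :=
  ∃ γ i j, i ≠ j ∧ B γ i t x ∧ B γ j t y

theorem Ext'.refl (γ : Om2) (x : Nm) : Ext' γ x x := fun _ _ _ => rfl

theorem Ext'.trans {γ δ : Om2} {x y w : Nm} (h : Ext' δ x y) (h' : Ext' γ y w) (hγ : γ ≤ δ) :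
    Ext' γ x w := fun c ξ hξ => (h c ξ (hξ.trans_le hγ)).trans (h' c ξ hξ)

section

variable {t0 : Cnd} {x0 : Nm} {B : Om2 → Om1 → Cnd → Nm → Prop} (hB : BD t0 x0 B)

theorem Diff.symm {t : Cnd} {x y : Nm} (h : Diff B t x y) : Diff B t y x := by
  obtain ⟨γ, i, j, h1, h2, h3⟩ := h
  exact ⟨γ, j, i, h1.symm, h3, h2⟩

include hB in
theorem Diff.mono {t t' : Cnd} {x y x' y' : Nm} (h : Diff B t x y) (ht : t' ≤ t)
    (hx : Top t' x') (hy : Top t' y') (hx' : Ext' t.ht x' x) (hy' : Ext' t.ht y' y) :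
    Diff B t' x' y' := by
  obtain ⟨γ, i, j, h1, h2, h3⟩ := h
  exact ⟨γ, i, j, h1, hB.mono h2 ht hx hx', hB.mono h3 ht hy hy'⟩

/-- the branch depends on the part `e` -/
def Dep (B : Om2 → Om1 → Cnd → Nm → Prop) (e : Set Cs) (t : Cnd) (x : Nm) : Prop :=
  ∃ t' ≤ t, ∃ x1 x2, Top t' x1 ∧ Top t' x2 ∧ Ext' t.ht x1 x ∧ Ext' t.ht x2 x ∧
    (∀ c ∉ e, ∀ ξ < t'.ht, x1 c ξ = x2 c ξ) ∧ Diff B t' x1 x2

/-- the branch depends on `e`, hereditarily -/
def Good (B : Om2 → Om1 → Cnd → Nm → Prop) (e : Set Cs) (t : Cnd) (x : Nm) : Prop :=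
  ∀ t' ≤ t, ∀ x', Top t' x' → Ext' t.ht x' x → Dep B e t' x'

theorem Good.mono {e : Set Cs} {t t' : Cnd} {x x' : Nm} (h : Good B e t x) (ht : t' ≤ t)
    (hx : Ext' t.ht x' x) : Good B e t' x' :=
  fun t'' ht'' x'' h1 h2 => h t'' (ht''.trans ht) x'' h1 (h2.trans hx ht.1)

include hB in
theorem good_split {e0 e1 : Set Cs} (h0 : IsClopen e0) {t : Cnd} {x : Nm} (ht : t ≤ t0) (hx : Top t x) (hx0 : Ext' t0.ht x x0) (hg : Good B (e0 ∪ e1) t x) :
    ∃ t' ≤ t, ∃ x', Top t' x' ∧ Ext' t.ht x' x ∧ (Good B e0 t' x' ∨ Good B e1 t' x') := by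
  by_contra hcon
  push Not at hcon
  obtain ⟨h1, _⟩ := hcon t le_rfl x hx (Ext'.refl _ _)
  unfold Good at h1
  push Not at h1
  obtain ⟨t1, ht1, x1, hx1, he1, hn1⟩ := h1
  obtain ⟨_, h2⟩ := hcon t1 ht1 x1 hx1 he1
  unfold Good at h2
  push Not at h2
  obtain ⟨t2, ht2, x2, hx2, he2, hn2⟩ := h2
  obtain ⟨t3, ht3, y0, y1, hy0, hy1, hey0, hey1, hoff, γ, i0, i1, hi, hb0, hb1⟩ :=
    hg t2 (ht2.trans ht1) x2 hx2 (he2.trans he1 ht1.1)
  -- `y0` outside `e1`, `y1` on `e1`: written as a mixture along `e0`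
  have hmtop : Top t3 (mix h0 y0 y1) := LocIn.mix h0 hy0 hy1
  have hm0 : ∀ c ∈ e0, mix h0 y0 y1 c = y0 c := fun c hc => mix_mem h0 _ _ hc
  have hm1 : ∀ c, c ∉ e0 → mix h0 y0 y1 c = y1 c := fun c hc => mix_not_mem h0 _ _ hc
  have hmext : Ext' t2.ht (mix h0 y0 y1) x2 := by
    intro c ξ hξ
    by_cases hc : c ∈ e0
    · rw [hm0 c hc, hey0 c ξ hξ]
    · rw [hm1 c hc, hey1 c ξ hξ]
  have ht3t0 : t3 ≤ t0 := ht3.trans (ht2.trans (ht1.trans ht))
  have hle12 : t1.ht ≤ t2.ht := ht2.1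
  obtain ⟨t4, ht4, τ, hτ, heτ, i', hb'⟩ := hB.tot ht3t0 hmtop
    (hmext.trans (he2.trans (he1.trans hx0 ht.1) (ht.1.trans ht1.1))
      ((ht.1.trans ht1.1).trans hle12)) γ
  have hk0 : Top t4 (glue t3.ht y0 τ) := hy0.lift ht4 τ hτ
  have hk1 : Top t4 (glue t3.ht y1 τ) := hy1.lift ht4 τ hτ
  have hB0 : B γ i0 t4 (glue t3.ht y0 τ) := hB.mono hb0 ht4 hk0 (ext'_glue _ _ _)
  have hB1 : B γ i1 t4 (glue t3.ht y1 τ) := hB.mono hb1 ht4 hk1 (ext'_glue _ _ _)
  have heτ2 : Ext' t2.ht τ x2 := heτ.trans hmext ht3.1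
  have hg0 : Ext' t2.ht (glue t3.ht y0 τ) x2 := (ext'_glue t3.ht y0 τ).trans hey0 ht3.1
  have hg1 : Ext' t2.ht (glue t3.ht y1 τ) x2 := (ext'_glue t3.ht y1 τ).trans hey1 ht3.1
  by_cases hi0 : i' = i0
  · -- then `i' ≠ i1`: dependence on `e0`
    refine hn1 ⟨t4, (ht4.trans ht3).trans ht2, τ, glue t3.ht y1 τ, hτ, hk1,
      heτ2.trans he2 hle12, hg1.trans he2 hle12, ?_, γ, i', i1, ?_, hb', hB1⟩
    · intro c hc ξ hξ
      rcases lt_or_ge ξ t3.ht with h | h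
      · rw [glue_lt h, heτ c ξ h, hm1 c hc]
      · rw [glue_ge h]
    · rw [hi0]
      exact hi
  · -- dependence on `e1`
    refine hn2 ⟨t4, ht4.trans ht3, glue t3.ht y0 τ, τ, hk0, hτ, hg0, heτ2, ?_,
      γ, i0, i', Ne.symm hi0, hB0, hb'⟩
    intro c hc ξ hξ
    rcases lt_or_ge ξ t3.ht with h | h
    · rw [glue_lt h, heτ c ξ h]
      by_cases hc0 : c ∈ e0
      · rw [hm0 c hc0]
      · rw [hm1 c hc0, hoff c (fun hcu => hcu.elim hc0 hc) ξ h]
    · rw [glue_ge h]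

/-- cylinders -/
def cyl (r : Cs) (n : ℕ) : Set Cs := {c | ∀ k < n, c k = r k}

theorem isClopen_cyl (r : Cs) (n : ℕ) : IsClopen (cyl r n) := by
  have : cyl r n = ⋂ k ∈ Finset.range n, {c : Cs | c k = r k} := by
    ext c
    simp [cyl]
  rw [this]
  refine isClopen_biInter_finset fun k _ => ?_
  exact (isClopen_discrete ({r k} : Set Bool)).preimage (continuous_apply k)

theorem cyl_congr {r r' : Cs} {n : ℕ} (h : ∀ k < n, r k = r' k) : cyl r n = cyl r' n := by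
  ext c
  exact forall_congr' fun k => forall_congr' fun hk => by rw [h k hk]

theorem cyl_anti (r : Cs) {m n : ℕ} (h : m ≤ n) : cyl r n ⊆ cyl r m :=
  fun _ hc k hk => hc k (hk.trans_le h)

/-- stages of the search for the real `r` -/
structure GSt (t0 : Cnd) (x0 : Nm) (B : Om2 → Om1 → Cnd → Nm → Prop) (n : ℕ) : Type where
  d : DCnd
  r : Cs
  le : d.t ≤ t0
  ext : Ext' t0.ht d.x x0
  good : Good B (cyl r n) d.t d.x

include hB in
theorem exists_real : ∃ t ≤ t0, ∃ x, Top t x ∧ Ext' t0.ht x x0 ∧ ∃ r : Cs, ∀ n,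
    Good B (cyl r n) t x := by
  classical
  have step : ∀ n, ∀ s : GSt t0 x0 B n, ∃ s' : GSt t0 x0 B (n + 1), s'.d ≤ s.d ∧
      ∀ k < n, s'.r k = s.r k := by
    intro n s
    have hu : cyl s.r n = cyl (Function.update s.r n true) (n + 1) ∪
        cyl (Function.update s.r n false) (n + 1) := by
      ext c
      constructor
      · intro hc
        cases hcn : c n
        · right
          intro k hk
          rcases Nat.lt_succ_iff_lt_or_eq.1 hk with h | rfl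
          · rw [Function.update_of_ne h.ne]; exact hc k h
          · rw [Function.update_self]; exact hcn
        · left
          intro k hk
          rcases Nat.lt_succ_iff_lt_or_eq.1 hk with h | rfl
          · rw [Function.update_of_ne h.ne]; exact hc k h
          · rw [Function.update_self]; exact hcn
      · rintro (hc | hc)
        · intro k hk
          have := hc k (hk.trans (Nat.lt_succ_self n))
          rwa [Function.update_of_ne hk.ne] at this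
        · intro k hk
          have := hc k (hk.trans (Nat.lt_succ_self n))
          rwa [Function.update_of_ne hk.ne] at this
    have hg := s.good
    rw [hu] at hg
    obtain ⟨t', ht', x', hx', he', h⟩ := good_split hB (isClopen_cyl _ _) s.le s.d.top s.ext hg
    rcases h with h | h
    · exact ⟨⟨⟨t', x', hx'⟩, _, ht'.trans s.le, he'.trans s.ext s.le.1, h⟩, ⟨ht', he'⟩,
        fun k hk => Function.update_of_ne hk.ne _ _⟩
    · exact ⟨⟨⟨t', x', hx'⟩, _, ht'.trans s.le, he'.trans s.ext s.le.1, h⟩, ⟨ht', he'⟩,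
        fun k hk => Function.update_of_ne hk.ne _ _⟩
  choose nx hnx1 hnx2 using step
  have start : GSt t0 x0 B 0 := by
    refine ⟨⟨t0, x0, hB.top0⟩, fun _ => false, le_rfl, Ext'.refl _ _, ?_⟩
    intro t' ht' x' hx' he'
    obtain ⟨t1, ht1, x1, x2, h1, h2, h3, h4, h5⟩ := hB.split ht' hx' he'
    refine ⟨t1, ht1, x1, x2, h1, h2, h3, h4, ?_, h5⟩
    intro c hc
    exact (hc fun k hk => absurd hk (Nat.not_lt_zero k)).elim
  let S : ∀ n, GSt t0 x0 B n := fun n => Nat.rec start (fun n s => nx n s) n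
  have hS : ∀ n, S (n + 1) = nx n (S n) := fun n => rfl
  have hle : ∀ m n, m ≤ n → (S n).d ≤ (S m).d := by
    intro m n hmn
    induction n, hmn using Nat.le_induction with
    | base => exact le_rfl
    | succ n _ ih => exact (hS n ▸ hnx1 n (S n)).trans ih
  have hr : ∀ m n, m ≤ n → ∀ k < m, (S n).r k = (S m).r k := by
    intro m n hmn k hk
    induction n, hmn using Nat.le_induction with
    | base => rfl
    | succ n hmn ih => rw [hS n, hnx2 n (S n) k (hk.trans_le hmn), ih]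
  obtain ⟨d, hd⟩ := dirClosed_DCnd.chain (ι := ℕ) mk_nat_le (fun n => (S n).d)
    fun i j hij => hle i j hij.le
  refine ⟨d.t, (hd 0).1.trans (S 0).le, d.x, d.top, (hd 0).2.trans (S 0).ext (S 0).le.1,
    fun k => (S (k + 1)).r k, fun n => ?_⟩
  rw [cyl_congr (r' := (S n).r) fun k hk => (hr (k + 1) n hk k (Nat.lt_succ_self k)).symm]
  exact (S n).good.mono (hd n).1 (hd n).2

end

end Pool.Agent.Lib_helper27.Q
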