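import Pool.Agent.Lib_helper27.Q.Clo
import Pool.Agent.Lib_helper27.Q.Uni
import Pool.Agent.Lib_helper27.V.Chk

/-!
# Distributive forcing preserves `ω₁` and `ω₂`
-/

set_option linter.unusedSectionVars false

namespace Pool.Agent.Lib_helper27.Q

open Fml V Cardinal

section

variable {P : Type} [Preorder P]

theorem Distr.family (hP : Distr P) {Γ : Type} [Nonempty Γ] (hΓ : #Γ ≤ aleph 1) (E : Γ → Set P)
    (h1 : ∀ i, ∀ p, ∃ q ≤ p, q ∈ E i) (h2 : ∀ i, ∀ p ∈ E i, ∀ q ≤ p, q ∈ E i) (p : P) :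
    ∃ q ≤ p, ∀ i, q ∈ E i := by
  have h : #Γ ≤ #Om1 := hΓ.trans_eq mk_om1.symm
  rw [Cardinal.le_def] at h
  obtain ⟨e⟩ := h
  obtain ⟨q, hq, hq'⟩ := hP (fun i => E (Function.invFun e i)) (fun i => h1 _) (fun i => h2 _) p
  refine ⟨q, hq, fun i => ?_⟩
  have := hq' (e i)
  rwa [Function.leftInverse_invFun e.injective i] at this

variable {Γ Λ : Type} [LinearOrder Γ] [WellFoundedLT Γ] [LinearOrder Λ] [WellFoundedLT Λ]

theorem fc_hartogs (hP : Distr P) [Nonempty Γ] (hΓ : #Γ ≤ aleph 1)
    (hseg : ∀ x : Λ, ∃ e : {y : Λ // y < x} → Γ, Function.Injective e)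
    (hno : ∀ e : Λ → Γ, ¬ Function.Injective e) (p : P) :
    Fc p (isHartogs (oall P Γ) (oall P Λ)) := by
  classical
  refine ⟨oall_ord p, ?_, ?_⟩
  · intro q hq hex
    obtain ⟨q', hq', f, hf⟩ := (forces_ex.1 hex).exists
    obtain ⟨r, hr, hr'⟩ := hP.family hΓ (fun i : Γ => {r : P |
      (∃ x : Λ, Fc r (app f (onm P x) (onm P i))) ∨
        ∀ s ≤ r, ∀ x : Λ, ¬ Fc s (app f (onm P x) (onm P i))})
      (fun i s => by
        by_cases h : ∃ s' ≤ s, ∃ x : Λ, Fc s' (app f (onm P x) (onm P i))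
        · obtain ⟨s', h1, h2⟩ := h
          exact ⟨s', h1, Or.inl h2⟩
        · push Not at h
          exact ⟨s, le_rfl, Or.inr h⟩)
      (fun i s hs s' hs' => by
        rcases hs with ⟨x, hx⟩ | h
        · exact Or.inl ⟨x, Forces.mono nf_basic hs' hx⟩
        · exact Or.inr fun t ht => h t (ht.trans hs')) q'
    have hfr := Forces.mono nf_basic hr hf
    have key : ∀ x : Λ, ∃ i : Γ, Fc r (app f (onm P x) (onm P i)) := by
      intro x
      obtain ⟨s, hs, y, hy, hy'⟩ := (func_total hfr.1 (onm_mem_oall x r)).exists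
      obtain ⟨t, ht, i, hi⟩ := (fmem_oall.1 hy).exists
      have h1 : Fc t (app f (onm P x) (onm P i)) :=
        app_congr' (feq_refl _ _) hi (Forces.mono nf_basic ht hy')
      refine ⟨i, ?_⟩
      rcases hr' i with ⟨x', hx'⟩ | h
      · have h2 := inj_single (Forces.mono nf_basic (ht.trans hs) hfr)
          (Forces.mono nf_basic (ht.trans hs) hx') h1
        rw [← onm_inj h2]
        exact hx'
      · exact (h t (ht.trans hs) x h1).elim
    choose e he using key
    refine hno e fun x x' hxx => ?_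
    have h1 := he x
    rw [hxx] at h1
    exact onm_inj (inj_single hfr h1 (he x'))
  · refine (forces_ball nf_basic).2 fun c q hq hc => ?_
    refine forces_ex.2 ?_
    refine (fmem_oall.1 hc).imp ?_
    rintro r hr ⟨x, hx⟩
    obtain ⟨e, he⟩ := hseg x
    have hQ : Down (P := P) (fun (_ : {y : Λ // y < x}) _ => True) := down_true
    have hfun : Fc r (isFunc (mkFn {y : Λ // y < x} (fun y => onm P y.1) (fun y => onm P (e y))
        fun _ _ => True) (onm P x) (oall P Γ)) := by
      refine fc_isFunc hQ ?_ ?_ ?_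
      · intro y s _ _
        exact ⟨onm_mem y.2 s, onm_mem_oall _ s⟩
      · intro z s hs hz
        refine (fmem_onm.1 hz).imp ?_
        rintro t _ ⟨y, hy, he'⟩
        exact ⟨⟨y, hy⟩, trivial, he'⟩
      · intro y y' s _ _ _ h
        rw [Subtype.ext (onm_inj h)]
        exact feq_refl _ _
    refine ⟨mkFn {y : Λ // y < x} (fun y => onm P y.1) (fun y => onm P (e y))
        fun _ _ => True, ?_⟩
    have hinj := fc_isInj hQ hfun (by
      intro y y' s _ _ _ h
      rw [he (onm_inj h)]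
      exact feq_refl _ _)
    exact (fc_uni (cv (Fml.isInj 0 1 2) 3) 3
      (l := [mkFn {y : Λ // y < x} (fun y => onm P y.1) (fun y => onm P (e y))
        fun _ _ => True, onm P x])
      (l' := [mkFn {y : Λ // y < x} (fun y => onm P y.1) (fun y => onm P (e y))
        fun _ _ => True, c])
      (.cons (feq_refl _ _) (.cons (feq_symm hx) .nil)) (feq_refl (oall P Γ) r) le_rfl).1 hinj

theorem hart1 (hP : Distr P) (p : P) : Fc p (isHartogs (oall P ℕ) (oall P Om1)) := by
  refine fc_hartogs hP mk_nat_le ?_ ?_ p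
  · intro x
    have h := mk_Iio_lt (α := Om1) x (by simp)
    rw [mk_om1] at h
    have h1 : (aleph 1 : Cardinal.{0}) = Order.succ ℵ₀ := by simp
    have h2 : #{y : Om1 // y < x} ≤ #ℕ := by
      rw [mk_nat]
      exact Order.lt_succ_iff.1 (h.trans_eq h1)
    rw [Cardinal.le_def] at h2
    obtain ⟨e⟩ := h2
    exact ⟨e, e.injective⟩
  · intro e he
    have := mk_le_of_injective he
    rw [mk_om1, mk_nat] at this
    simp at this

theorem hart2 (hP : Distr P) (p : P) : Fc p (isHartogs (oall P Om1) (oall P Om2)) := by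
  refine fc_hartogs hP mk_om1.le ?_ ?_ p
  · intro x
    have h2 : #{y : Om2 // y < x} ≤ #Om1 := by
      rw [mk_om1]
      exact mk_iio_le x
    rw [Cardinal.le_def] at h2
    obtain ⟨e⟩ := h2
    exact ⟨e, e.injective⟩
  · intro e he
    have := mk_le_of_injective he
    rw [mk_om1, mk_om2, aleph2_eq] at this
    exact absurd this (not_le.2 (Order.lt_succ _))

end

end Pool.Agent.Lib_helper27.Q
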