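import Pool.Agent.Lib_helper27.Q.CStmt
import Pool.Agent.Lib_helper27.Q.Norm
import Pool.Agent.Lib_helper27.Final
import Pool.Agent.Lib_helper27.Q.Uni

/-!
# A system of tree relations gives a forced Aronszajn tree
-/

set_option linter.unusedSectionVars false
set_option linter.unusedVariables false
set_option linter.unusedTactic false
set_option linter.unreachableTactic false

namespace Pool.Agent.Lib_helper27

universe u v w v'

open Fml

namespace Sys

variable {P : Type w} [Preorder P] {U : Type v} {A : AtomForce P U} {M : Type v'}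
  {E : M → M → Prop} {chk : M → U} (hS : Sys A E chk)

include hS

theorem forces_ball_chk {a : M} {ψ : U → Fml U}
    (hψ : ∀ (p : P) (x y : U), A.eq p x y → Fml.Rel (fun a b => A.eq p a b) (ψ x) (ψ y)) {p : P} :
    Forces A p (ball (chk a) ψ) ↔ ∀ x, E x a → Forces A p (ψ (chk x)) := by
  rw [forces_ball hS.toBasic]
  constructor
  · intro h1 x hx
    exact h1 (chk x) p le_rfl (hS.mem_chk_of hx)
  · intro h1 x q hq hx
    refine Forces.dense hS.toBasic ?_
    refine (hS.mem_chk.1 hx).imp ?_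
    rintro r hr ⟨b, hb, he⟩
    exact (Forces.congr hS.toBasic (hψ r _ _ he) le_rfl).2
      (Forces.mono hS.toBasic (hr.trans hq) (h1 b hb))

theorem forces_bex_chk {a : M} {ψ : U → Fml U}
    (hψ : ∀ (p : P) (x y : U), A.eq p x y → Fml.Rel (fun a b => A.eq p a b) (ψ x) (ψ y)) {p : P} :
    Forces A p (bex (chk a) ψ) ↔ Loc p fun r => ∃ x, E x a ∧ Forces A r (ψ (chk x)) := by
  rw [forces_bex]
  constructor
  · intro h
    refine h.bind ?_
    rintro q _ ⟨x, hx, hx'⟩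
    refine (hS.mem_chk.1 hx).imp ?_
    rintro r hr ⟨b, hb, he⟩
    exact ⟨b, hb, (Forces.congr hS.toBasic (hψ r _ _ he) le_rfl).1
      (Forces.mono hS.toBasic hr hx')⟩
  · intro h
    refine h.imp ?_
    rintro r _ ⟨b, hb, h⟩
    exact ⟨_, hS.mem_chk_of hb, h⟩

end Sys

namespace ST

variable {M : Type u} [SetStr M] [ZFC M]

theorem holds_app5 {S γ i δ j p : M} : Holds (EE M) (app5 S γ i δ j p) ↔
    opair (opair (opair γ i) (opair δ j)) p ∈ S := by
  unfold app5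
  simp only [holds_ex, holds_and, holds_opair, holds_app]
  constructor
  · rintro ⟨x, y, z, rfl, rfl, rfl, h⟩
    exact h
  · intro h
    exact ⟨_, _, _, rfl, rfl, rfl, h⟩

/-- relation -/
abbrev R5 (S γ i δ j p : M) : Prop := opair (opair (opair γ i) (opair δ j)) p ∈ S

/-- the content of `isCSys` -/
structure CSysM (S K L C : M) : Prop where
  a : ∀ γ, γ ∈ L → ∀ i, i ∈ K → ∀ δ, δ ∈ L → ∀ j, j ∈ K → ∀ p, p ∈ C → R5 S γ i δ j p → γ ∈ δ
  b : ∀ γ, γ ∈ L → ∀ i, i ∈ K → ∀ δ, δ ∈ L → ∀ j, j ∈ K → ∀ ε, ε ∈ L → ∀ k, k ∈ K →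
    ∀ p, p ∈ C → R5 S γ i δ j p ∧ R5 S δ j ε k p → R5 S γ i ε k p
  c : ∀ γ, γ ∈ L → ∀ i, i ∈ K → ∀ δ, δ ∈ L → ∀ j, j ∈ K → ∀ ε, ε ∈ L → ∀ k, k ∈ K →
    ∀ p, p ∈ C → γ ∈ δ ∧ R5 S γ i ε k p ∧ R5 S δ j ε k p → R5 S γ i δ j p
  d : ∀ γ, γ ∈ L → ∀ i, i ∈ K → ∀ j, j ∈ K → ∀ ε, ε ∈ L → ∀ k, k ∈ K →
    ∀ p, p ∈ C → R5 S γ i ε k p ∧ R5 S γ j ε k p → i = j
  e : ∀ δ, δ ∈ L → ∀ j, j ∈ K → ∀ γ, γ ∈ δ → ∀ p, p ∈ C → ∃ q, q ∈ C ∧
    (∀ z, z ∈ p → z ∈ q) ∧ ∃ i, i ∈ K ∧ R5 S γ i δ j q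
  f : ∀ γ, γ ∈ L → ∀ i, i ∈ K → ∀ δ, δ ∈ L → ∀ j, j ∈ K → ∀ p, p ∈ C → ∀ q, q ∈ C →
    (∀ z, z ∈ p → z ∈ q) ∧ R5 S γ i δ j p → R5 S γ i δ j q
  g : ∀ γ, γ ∈ L → ∀ i, i ∈ K → ∀ δ, δ ∈ L → ∀ j, j ∈ K → ∀ p, p ∈ C →
    (∀ q, q ∈ C → (∀ z, z ∈ p → z ∈ q) → ∃ r, r ∈ C ∧ (∀ z, z ∈ q → z ∈ r) ∧ R5 S γ i δ j r) →
      R5 S γ i δ j p
  h : ¬ ∃ p, p ∈ C ∧ ∃ b : M, (∀ ε, ε ∈ L → ∃ γ, γ ∈ L ∧ ¬ γ ∈ ε ∧ ∃ i, i ∈ K ∧ opair γ i ∈ b) ∧
    ∀ γ, γ ∈ L → ∀ δ, δ ∈ L → ∀ i, i ∈ K → ∀ j, j ∈ K →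
      γ ∈ δ ∧ opair γ i ∈ b ∧ opair δ j ∈ b → R5 S γ i δ j p

theorem holds_isCSys {S K L C : M} (h : Holds (EE M) (isCSys S K L C)) : CSysM S K L C := by
  obtain ⟨h1, h2, h3, h4, h5, h6, h7, h8⟩ := h
  unfold csA at h1
  unfold csB at h2
  unfold csC at h3
  unfold csD at h4
  unfold csE at h5
  unfold csF at h6
  unfold csG at h7
  unfold csH csHb at h8
  simp only [holds_ball, holds_bex, holds_imp, holds_and, holds_app5, holds_mem, holds_eq,
    holds_isSubset, holds_ex, holds_neg, holds_app, mem_def] at h1 h2 h3 h4 h5 h6 h7 h8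
  exact ⟨h1, h2, h3, h4, h5, h6, h7, h8⟩

section names

variable (S K L C : M)

/-- the nodes -/
noncomputable def TN : M := prod L K

/-- the name of the tree order -/
noncomputable def RN : M := comp fun v => ∃ z r, v = opair (chk z) r ∧
  z ∈ prod (prod L K) (prod L K) ∧ r ∈ C ∧ opair z r ∈ S

/-- the height function -/
noncomputable def HN : M := comp fun v => ∃ γ i, v = opair (opair γ i) γ ∧ γ ∈ L ∧ i ∈ K

variable {S K L C}

theorem mem_RN {v : M} : v ∈ RN S K L C ↔ ∃ z r, v = opair (chk z) r ∧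
    z ∈ prod (prod L K) (prod L K) ∧ r ∈ C ∧ opair z r ∈ S := by
  refine mem_comp (small_of_subset (by fun_prop)
    (image (fun w : M => opair (chk (fstp w)) (sndp w)) S) ?_)
  rintro v ⟨z, r, rfl, _, _, h⟩
  refine (mem_image (by fun_prop)).2 ⟨_, h, ?_⟩
  simp only [fstp_opair, sndp_opair]

theorem mem_HN {v : M} : v ∈ HN K L ↔ ∃ γ i, v = opair (opair γ i) γ ∧ γ ∈ L ∧ i ∈ K := by
  refine mem_comp (small_of_subset (by fun_prop) (prod (prod L K) L) ?_)
  rintro v ⟨γ, i, rfl, hγ, hi⟩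
  exact opair_mem_prod.2 ⟨opair_mem_prod.2 ⟨hγ, hi⟩, hγ⟩

theorem opair_mem_HN {z δ : M} : opair z δ ∈ HN K L ↔ z ∈ prod L K ∧ δ = fstp z := by
  rw [mem_HN]
  constructor
  · rintro ⟨γ, i, he, hγ, hi⟩
    obtain ⟨rfl, rfl⟩ := opair_inj.1 he
    exact ⟨opair_mem_prod.2 ⟨hγ, hi⟩, by simp only [fstp_opair]⟩
  · rintro ⟨hz, rfl⟩
    obtain ⟨γ, hγ, i, hi, rfl⟩ := mem_prod.1 hz
    exact ⟨γ, i, by simp only [fstp_opair], hγ, hi⟩

theorem holds_func_HN : Holds (EE M) (isFunc (HN K L) (prod L K) L) := by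
  refine holds_isFunc.2 ⟨?_, ?_, ?_⟩
  · intro z hz
    obtain ⟨γ, i, rfl, hγ, hi⟩ := mem_HN.1 hz
    exact ⟨_, opair_mem_prod.2 ⟨hγ, hi⟩, _, hγ, rfl⟩
  · intro x hx
    obtain ⟨γ, hγ, i, hi, rfl⟩ := mem_prod.1 hx
    exact ⟨γ, hγ, mem_HN.2 ⟨γ, i, rfl, hγ, hi⟩⟩
  · rintro x y y' ⟨h1, h2⟩
    rw [opair_mem_HN] at h1 h2
    rw [h1.2, h2.2]

end names

/-- relation between nodes -/
abbrev Rn (S x y p : M) : Prop := opair (opair x y) p ∈ S

/-- the same, in terms of nodes -/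
structure NSys (S K L C : M) : Prop where
  a : ∀ x y p, x ∈ prod L K → y ∈ prod L K → p ∈ C → Rn S x y p → fstp x ∈ fstp y
  b : ∀ x y z p, x ∈ prod L K → y ∈ prod L K → z ∈ prod L K → p ∈ C → Rn S x y p → Rn S y z p →
    Rn S x z p
  c : ∀ x y z p, x ∈ prod L K → y ∈ prod L K → z ∈ prod L K → p ∈ C → fstp x ∈ fstp y →
    Rn S x z p → Rn S y z p → Rn S x y p
  d : ∀ x y z p, x ∈ prod L K → y ∈ prod L K → z ∈ prod L K → p ∈ C → fstp x = fstp y →
    Rn S x z p → Rn S y z p → x = y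
  e : ∀ y γ p, y ∈ prod L K → γ ∈ fstp y → p ∈ C → ∃ q, q ∈ C ∧ le' q p ∧ ∃ x, x ∈ prod L K ∧
    fstp x = γ ∧ Rn S x y q
  f : ∀ x y p q, x ∈ prod L K → y ∈ prod L K → p ∈ C → q ∈ C → le' q p → Rn S x y p → Rn S x y q
  g : ∀ x y p, x ∈ prod L K → y ∈ prod L K → p ∈ C → (∀ q, q ∈ C → le' q p → ∃ r, r ∈ C ∧
    le' r q ∧ Rn S x y r) → Rn S x y p
  h : ∀ p b : M, p ∈ C → (∀ x, x ∈ b → x ∈ prod L K) →
    (∀ x y, x ∈ b → y ∈ b → fstp x ∈ fstp y → Rn S x y p) →
      ∃ ε, ε ∈ L ∧ ∀ x, x ∈ b → fstp x ∈ ε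

theorem CSysM.nsys {S K L C : M} (hL : IsOrd L) (h : CSysM S K L C) : NSys S K L C where
  a := by
    intro x y p hx hy hp hxy
    obtain ⟨γ, hγ, i, hi, rfl⟩ := mem_prod.1 hx
    obtain ⟨δ, hδ, j, hj, rfl⟩ := mem_prod.1 hy
    simp only [fstp_opair]
    exact h.a γ hγ i hi δ hδ j hj p hp hxy
  b := by
    intro x y z p hx hy hz hp hxy hyz
    obtain ⟨γ, hγ, i, hi, rfl⟩ := mem_prod.1 hx
    obtain ⟨δ, hδ, j, hj, rfl⟩ := mem_prod.1 hy
    obtain ⟨ε, hε, k, hk, rfl⟩ := mem_prod.1 hz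
    exact h.b γ hγ i hi δ hδ j hj ε hε k hk p hp ⟨hxy, hyz⟩
  c := by
    intro x y z p hx hy hz hp hlt hxz hyz
    obtain ⟨γ, hγ, i, hi, rfl⟩ := mem_prod.1 hx
    obtain ⟨δ, hδ, j, hj, rfl⟩ := mem_prod.1 hy
    obtain ⟨ε, hε, k, hk, rfl⟩ := mem_prod.1 hz
    simp only [fstp_opair] at hlt
    exact h.c γ hγ i hi δ hδ j hj ε hε k hk p hp ⟨hlt, hxz, hyz⟩
  d := by
    intro x y z p hx hy hz hp hlt hxz hyz
    obtain ⟨γ, hγ, i, hi, rfl⟩ := mem_prod.1 hx
    obtain ⟨δ, hδ, j, hj, rfl⟩ := mem_prod.1 hy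
    obtain ⟨ε, hε, k, hk, rfl⟩ := mem_prod.1 hz
    simp only [fstp_opair] at hlt
    subst hlt
    rw [h.d γ hγ i hi j hj ε hε k hk p hp ⟨hxz, hyz⟩]
  e := by
    intro y γ p hy hγ hp
    obtain ⟨δ, hδ, j, hj, rfl⟩ := mem_prod.1 hy
    simp only [fstp_opair] at hγ
    obtain ⟨q, hq, hle, i, hi, hR⟩ := h.e δ hδ j hj γ hγ p hp
    exact ⟨q, hq, hle, opair γ i, opair_mem_prod.2 ⟨hL.trans hδ hγ, hi⟩, by simp, hR⟩
  f := by
    intro x y p q hx hy hp hq hle hxy
    obtain ⟨γ, hγ, i, hi, rfl⟩ := mem_prod.1 hx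
    obtain ⟨δ, hδ, j, hj, rfl⟩ := mem_prod.1 hy
    exact h.f γ hγ i hi δ hδ j hj p hp q hq ⟨hle, hxy⟩
  g := by
    intro x y p hx hy hp hd
    obtain ⟨γ, hγ, i, hi, rfl⟩ := mem_prod.1 hx
    obtain ⟨δ, hδ, j, hj, rfl⟩ := mem_prod.1 hy
    exact h.g γ hγ i hi δ hδ j hj p hp hd
  h := by
    intro p b hp hb hlin
    by_contra hcon
    push Not at hcon
    refine h.h ⟨p, hp, b, ?_, ?_⟩
    · intro ε hε
      obtain ⟨x, hx, hx'⟩ := hcon ε hε
      obtain ⟨γ, hγ, i, hi, rfl⟩ := mem_prod.1 (hb x hx)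
      simp only [fstp_opair] at hx'
      exact ⟨γ, hγ, hx', i, hi, hx⟩
    · rintro γ hγ δ hδ i hi j hj ⟨h1, h2, h3⟩
      exact hlin _ _ h2 h3 (by simpa only [fstp_opair] using h1)

section forcing

variable {C : M} {A : AtomForce (Cond (EE M) C) M} (hA : IsForcingRelation (EE M) C A)
  (hC : ∀ p, p ∈ C ↔ IsFPF p) {S K L : M} (hN : NSys S K L C)

include hA hC hN

theorem mem_RN_mono {x : M} {p : Cond (EE M) C} (h : A.mem p x (RN S K L C)) :
    Loc p fun r => ∃ z, z ∈ prod (prod L K) (prod L K) ∧ A.eq r x (chk z) ∧ opair z r.1 ∈ S := by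
  intro q hq
  obtain ⟨r, hr, τ, t, hτ, ht, he⟩ := (A_mem_iff hA).1 h q hq
  obtain ⟨z, t', h1, hz, ht', h2⟩ := mem_RN.1 hτ
  obtain ⟨rfl, h3⟩ := opair_inj.1 h1
  obtain ⟨x', hx', y', hy', rfl⟩ := mem_prod.1 hz
  refine ⟨r, hr, _, hz, he, ?_⟩
  rw [← h3] at h2
  exact hN.f x' y' t.1 r.1 hx' hy' t.2 r.2 ht h2

theorem app_RN_inv {x y : M} {p : Cond (EE M) C} (h : Forces A p (app (RN S K L C) x y)) :
    Loc p fun r => ∃ a b, a ∈ prod L K ∧ b ∈ prod L K ∧ A.eq r x (chk a) ∧ A.eq r y (chk b) ∧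
      Rn S a b r.1 := by
  have hS := frc_sys hA (empty_mem_C hC)
  refine (forces_bex.1 h).bind ?_
  rintro q _ ⟨z, hz, hz'⟩
  refine (mem_RN_mono hA hC hN hz).bind ?_
  rintro r hr ⟨z', hz1, hz2, hz3⟩
  have h1 := opair_congr hS.toBasic hz2 (hS.eq_refl r _) (hS.eq_refl r _)
    (Forces.mono hS.toBasic hr hz')
  refine (hS.opair_chk_inv h1).imp ?_
  rintro s hs ⟨a, b, hab, ha, hb⟩
  rw [holds_opair] at hab
  subst hab
  obtain ⟨ha1, hb1⟩ := opair_mem_prod.1 hz1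
  exact ⟨a, b, ha1, hb1, ha, hb, hN.f a b r.1 s.1 ha1 hb1 r.2 s.2 hs hz3⟩

theorem app_RN {x y : M} (hx : x ∈ prod L K) (hy : y ∈ prod L K) {p : Cond (EE M) C} :
    Forces A p (app (RN S K L C) (chk x) (chk y)) ↔ Rn S x y p.1 := by
  have hS := frc_sys hA (empty_mem_C hC)
  constructor
  · intro h
    refine hN.g x y p.1 hx hy p.2 fun q hq hqp => ?_
    obtain ⟨r, hr, a, b, _, _, ha, hb, h1⟩ := app_RN_inv hA hC hN h ⟨q, hq⟩ hqp
    rw [hS.chk_eq ha, hS.chk_eq hb]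
    exact ⟨r.1, r.2, hr, h1⟩
  · intro h
    refine forces_bex.2 (Loc.pure fun r hr => ⟨chk (opair x y), ?_, ?_⟩)
    · refine frc_mem_of hA (s := p) ?_ hr
      exact mem_RN.2 ⟨_, _, rfl, opair_mem_prod.2 ⟨hx, hy⟩, p.2, h⟩
    · exact (hS.abs_isOPair _ _ _ r).2 (holds_opair.2 rfl)

theorem app_HN {z d : M} (hz : z ∈ prod L K) {p : Cond (EE M) C} :
    Forces A p (app (chk (HN K L)) (chk z) d) ↔ A.eq p d (chk (fstp z)) := by
  have hS := frc_sys hA (empty_mem_C hC)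
  constructor
  · intro h
    refine hS.eq_dense ((hS.app_chk_inv h).imp ?_)
    rintro r _ ⟨a, b, hab, ha, hb⟩
    rw [holds_app, opair_mem_HN] at hab
    rw [hS.chk_eq ha, ← hab.2]
    exact hb
  · intro h
    have h1 : Forces A p (app (chk (HN K L)) (chk z) (chk (fstp z))) :=
      (hS.abs_app _ _ _ p).2 (holds_app.2 (opair_mem_HN.2 ⟨hz, rfl⟩))
    exact app_congr hS.toBasic (hS.eq_refl p _) (hS.eq_symm h) h1

theorem fc_tree (hL : IsOrd L) (p : Cond (EE M) C) :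
    Forces A p (isTree (chk (prod L K)) (RN S K L C)) := by
  have hS := frc_sys hA (empty_mem_C hC)
  have hB := hS.toBasic
  refine ⟨?_, ?_, ?_, ?_⟩
  · refine (forces_ball hB).2 fun z q hq hz => ?_
    refine forces_bex.2 ((mem_RN_mono hA hC hN hz).imp ?_)
    rintro r hr ⟨z', hz1, hz2, hz3⟩
    obtain ⟨x, hx, y, hy, rfl⟩ := mem_prod.1 hz1
    refine ⟨chk x, hS.mem_chk_of hx, forces_bex.2 (Loc.pure fun s hs => ⟨chk y,
      hS.mem_chk_of hy, ?_⟩)⟩
    exact opair_congr hB (hS.eq_symm (hS.eq_mono hs hz2)) (hS.eq_refl s _) (hS.eq_refl s _)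
      ((hS.abs_isOPair _ _ _ s).2 (holds_opair.2 rfl))
  · refine (hS.forces_ball_chk ?_).2 fun x hx q _ hxx => ?_
    · exact fun p x y h => .neg (Fml.Rel.app (hS.eq_refl p) (hS.eq_refl p _) h h)
    · exact mem_irrefl _ (hN.a x x q.1 hx hx q.2 ((app_RN hA hC hN hx hx).1 hxx))
  · refine (hS.forces_ball_chk ?_).2 fun x hx => (hS.forces_ball_chk ?_).2 fun y hy =>
      (hS.forces_ball_chk ?_).2 fun z hz => ?main
    case main =>
      refine (forces_imp hB).2 fun q _ h => ?_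
      rw [app_RN hA hC hN hx hz]
      exact hN.b x y z q.1 hx hy hz q.2 ((app_RN hA hC hN hx hy).1 h.1)
        ((app_RN hA hC hN hy hz).1 h.2)
    all_goals
      intro _ _ _ _
      repeat' first
        | assumption
        | exact hS.eq_refl _ _
        | with_reducible refine Fml.Rel.app (fun x => hS.eq_refl _ x) ?_ ?_ ?_
        | with_reducible refine Fml.Rel.ball (fun x => hS.eq_refl _ x) ?_ (fun _ => ?_)
        | with_reducible refine Fml.Rel.imp ?_ ?_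
        | with_reducible refine Fml.Rel.and ?_ ?_
  · have hcmp : ∀ (q : Cond (EE M) C) x y z, x ∈ prod L K → y ∈ prod L K → z ∈ prod L K →
        Rn S x z q.1 → Rn S y z q.1 → Rn S x y q.1 ∨ x = y ∨ Rn S y x q.1 := by
      intro q x y z hx hy hz hxz hyz
      obtain ⟨γ, hγ, i, hi, rfl⟩ := mem_prod.1 hx
      obtain ⟨δ, hδ, j, hj, rfl⟩ := mem_prod.1 hy
      rcases hL.tri hγ hδ with h | h | h
      · exact Or.inl (hN.c _ _ z q.1 hx hy hz q.2 (by simpa only [fstp_opair] using h) hxz hyz)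
      · exact Or.inr (Or.inl (hN.d _ _ z q.1 hx hy hz q.2 (by simpa only [fstp_opair] using h)
          hxz hyz))
      · exact Or.inr (Or.inr (hN.c _ _ z q.1 hy hx hz q.2 (by simpa only [fstp_opair] using h)
          hyz hxz))
    refine (hS.forces_ball_chk ?_).2 fun z hz => ⟨?_, ?_⟩
    · intro p x y h
      refine .and (Fml.Rel.ball (hS.eq_refl p) (hS.eq_refl p _) fun a =>
        Fml.Rel.ball (hS.eq_refl p) (hS.eq_refl p _) fun b => .imp (.and ?_ ?_)
          (.or ?_ (.or ?_ ?_))) (.all fun B => .imp (.and (Fml.Rel.ball (hS.eq_refl p)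
          (hS.eq_refl p _) fun a => .and ?_ ?_) (.ex fun a => ?_)) ?_)
      all_goals
        repeat' first
          | assumption
          | exact hS.eq_refl _ _
          | with_reducible refine Fml.Rel.app (fun x => hS.eq_refl _ x) ?_ ?_ ?_
          | with_reducible refine Fml.Rel.ball (fun x => hS.eq_refl _ x) ?_ (fun _ => ?_)
          | with_reducible refine Fml.Rel.bex (fun x => hS.eq_refl _ x) ?_ (fun _ => ?_)
          | with_reducible refine Fml.Rel.imp ?_ ?_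
          | with_reducible refine Fml.Rel.or ?_ ?_
          | with_reducible refine Fml.Rel.and ?_ ?_
          | with_reducible refine Fml.Rel.mem ?_ ?_
          | with_reducible refine Fml.Rel.eq ?_ ?_
    · refine (hS.forces_ball_chk ?_).2 fun x hx => (hS.forces_ball_chk ?_).2 fun y hy => ?main
      case main =>
        refine (forces_imp hB).2 fun q _ h => ?_
        rcases hcmp q x y z hx hy hz ((app_RN hA hC hN hx hz).1 h.1)
          ((app_RN hA hC hN hy hz).1 h.2) with h1 | h1 | h1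
        · exact forces_or.2 (Loc.pure fun r hr => Or.inl (Forces.mono hB hr
            ((app_RN hA hC hN hx hy).2 h1)))
        · subst h1
          exact forces_or.2 (Loc.pure fun r hr => Or.inr (forces_or.2 (Loc.pure fun s hs =>
            Or.inl (hS.eq_refl s _))))
        · exact forces_or.2 (Loc.pure fun r hr => Or.inr (forces_or.2 (Loc.pure fun s hs =>
            Or.inr (Forces.mono hB (hs.trans hr) ((app_RN hA hC hN hy hx).2 h1)))))
      all_goals
        intro _ _ _ _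
        repeat' first
          | assumption
          | exact hS.eq_refl _ _
          | with_reducible refine Fml.Rel.app (fun x => hS.eq_refl _ x) ?_ ?_ ?_
          | with_reducible refine Fml.Rel.ball (fun x => hS.eq_refl _ x) ?_ (fun _ => ?_)
          | with_reducible refine Fml.Rel.imp ?_ ?_
          | with_reducible refine Fml.Rel.or ?_ ?_
          | with_reducible refine Fml.Rel.and ?_ ?_
          | with_reducible refine Fml.Rel.eq ?_ ?_
    · intro B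
      refine (forces_imp hB).2 fun q _ ⟨h1, h2⟩ => forces_bex.2 fun q' hq' => ?_
      -- the minimal level
      have hd := dbl_fmem0 hA
      have h1' : ∀ (r : Cond (EE M) C) (y : M), r ≤ q → A.mem r y B → Loc r fun s =>
          ∃ a, a ∈ prod L K ∧ A.eq s y (chk a) ∧ fmem A s.1 (chk a) B ∧ Rn S a z s.1 := by
        intro r y hr hy
        obtain ⟨h3, h4⟩ := (forces_ball hB).1 h1 y r hr hy
        refine (hS.mem_chk.1 h3).imp ?_
        rintro s hs ⟨a, ha, he⟩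
        refine ⟨a, ha, he, fmem_coe.2 (hS.mem_congr he (hS.eq_refl s _) (hS.mem_mono hs hy)), ?_⟩
        refine (app_RN hA hC hN ha hz).1 (app_congr hB he (hS.eq_refl s _) ?_)
        exact Forces.mono hB hs h4
      obtain ⟨r0, hr0, y0, hy0⟩ := (forces_ex.1 h2) q' hq'
      obtain ⟨r1, hr1, a0, ha0, _, hm0, _⟩ := (h1' r0 y0 (hr0.trans hq') hy0).exists
      have hlev : ∀ a, a ∈ prod L K → fstp a ∈ L := by
        intro a ha
        obtain ⟨γ, hγ, i, hi, rfl⟩ := mem_prod.1 ha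
        simpa only [fstp_opair] using hγ
      obtain ⟨γ, hγ, ⟨r, hr, hrq, x, hx, hxγ, hxB⟩, hmin⟩ := exists_least_of_mem (M := M)
        (Φ := fun γ => ∃ r, r ∈ C ∧ le' r q'.1 ∧ ∃ x, x ∈ prod L K ∧ fstp x = γ ∧
          fmem A r (chk x) B) (by fun_prop) (hlev a0 ha0)
        ⟨r1.1, r1.2, hr1.trans hr0, a0, ha0, rfl, hm0⟩
      have hrq' : (⟨r, hr⟩ : Cond (EE M) C) ≤ q := le_trans (b := q') hrq hq'
      have hxB' : A.mem (⟨r, hr⟩ : Cond (EE M) C) (chk x) B := by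
        obtain ⟨h3, h4⟩ := hxB
        exact h4
      refine ⟨⟨r, hr⟩, hrq, chk x, hxB', ?_⟩
      refine (forces_ball hB).2 fun y s hs hy => forces_or.2 ?_
      refine (h1' s y (hs.trans hrq') hy).bind ?_
      rintro s1 hs1 ⟨b, hb, heb, hbB, hbz⟩
      have hxs1 : A.mem s1 (chk x) B := hS.mem_mono (hs1.trans hs) hxB'
      refine (h1' s1 (chk x) (hs1.trans (hs.trans hrq')) hxs1).imp ?_
      rintro s2 hs2 ⟨x', hx', hex, _, hxz⟩
      obtain rfl := hS.chk_eq hex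
      have hbz' := hN.f b z s1.1 s2.1 hb hz s1.2 s2.2 hs2 hbz
      have heb' := hS.eq_mono hs2 heb
      rcases hcmp s2 x b z hx hb hz hxz hbz' with h3 | h3 | h3
      · right
        exact app_congr hB (hS.eq_refl s2 _) (hS.eq_symm heb') ((app_RN hA hC hN hx hb).2 h3)
      · left
        subst h3
        exact hS.eq_symm heb'
      · exfalso
        have h4 := hN.a b x s2.1 hb hx s2.2 h3
        rw [hxγ] at h4
        have hle : s1 ≤ q' := (hs1.trans hs).trans hrq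
        exact hmin (fstp b) (hlev b hb) h4 ⟨s1.1, s1.2, hle, b, hb, rfl, hbB⟩

theorem fc_height (hL : IsOrd L) (hK : ∃ i, i ∈ K) (p : Cond (EE M) C) :
    Forces A p (isHeight (chk (prod L K)) (RN S K L C) (chk L) (chk (HN K L))) := by
  have hS := frc_sys hA (empty_mem_C hC)
  have hB := hS.toBasic
  refine ⟨hS.forces_isFunc_chk holds_func_HN, ?_, ?_⟩
  · refine (hS.forces_ball_chk ?_).2 fun z hz => ?_
    · intro p x y h
      refine .all fun d => .imp ?_ (.all fun c => .iff ?_ (Fml.Rel.bex (hS.eq_refl p)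
        (hS.eq_refl p _) fun s => .and ?_ ?_))
      all_goals
        repeat' first
          | assumption
          | exact hS.eq_refl _ _
          | with_reducible refine Fml.Rel.app (fun x => hS.eq_refl _ x) ?_ ?_ ?_
          | with_reducible refine Fml.Rel.mem ?_ ?_
    · intro d
      refine (forces_imp hB).2 fun q _ hd c => (forces_iff hB).2 fun r hr => ?_
      have hd' : A.eq r d (chk (fstp z)) := (app_HN hA hC hN hz).1 (Forces.mono hB hr hd)
      constructor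
      · intro hc
        have hc' : A.mem r c (chk (fstp z)) := hS.mem_congr (hS.eq_refl r c) hd' hc
        refine forces_bex.2 ((hS.mem_chk.1 hc').bind ?_)
        rintro s hs ⟨γ, hγ, he⟩ s' hs'
        obtain ⟨u, hu, hus, x, hx, hxγ, hR⟩ := hN.e z γ s'.1 hz hγ s'.2
        refine ⟨⟨u, hu⟩, hus, chk x, hS.mem_chk_of hx, (app_RN hA hC hN hx hz).2 hR, ?_⟩
        refine (app_HN hA hC hN hx).2 ?_
        rw [hxγ]
        exact hS.eq_mono (le_trans (b := s') hus hs') he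
      · intro h
        refine hS.mem_dense ((forces_bex.1 h).bind ?_)
        rintro s hs ⟨x, hx, hR, hc⟩
        refine (hS.mem_chk.1 hx).imp ?_
        rintro u hu ⟨a, ha, he⟩
        have h1 : Rn S a z u.1 := (app_RN hA hC hN ha hz).1
          (app_congr hB he (hS.eq_refl u _) (Forces.mono hB hu hR))
        have h2 : A.eq u c (chk (fstp a)) := (app_HN hA hC hN ha).1
          (app_congr hB he (hS.eq_refl u _) (Forces.mono hB hu hc))
        exact hS.mem_congr (hS.eq_symm h2) (hS.eq_symm (hS.eq_mono (hu.trans hs) hd'))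
          (hS.mem_chk_of (hN.a a z u.1 ha hz u.2 h1))
  · obtain ⟨i, hi⟩ := hK
    refine (hS.forces_ball_chk ?_).2 fun γ hγ => ?_
    · intro p x y h
      exact Fml.Rel.bex (hS.eq_refl p) (hS.eq_refl p _) fun t =>
        Fml.Rel.app (fun x => hS.eq_refl _ x) (hS.eq_refl p _) (hS.eq_refl p _) h
    · have hγi : opair γ i ∈ prod L K := opair_mem_prod.2 ⟨hγ, hi⟩
      refine forces_bex.2 (Loc.pure fun r _ => ⟨chk (opair γ i), hS.mem_chk_of hγi, ?_⟩)
      refine (app_HN hA hC hN hγi).2 ?_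
      rw [fstp_opair]
      exact hS.eq_refl r _

theorem fc_levels (p : Cond (EE M) C) : Forces A p (ball (chk L) fun a =>
    levelInj (chk (prod L K)) (chk (HN K L)) (chk K) a) := by
  have hS := frc_sys hA (empty_mem_C hC)
  have hB := hS.toBasic
  refine (hS.forces_ball_chk ?_).2 fun γ hγ => ?_
  · intro p x y h
    exact DF.rel (r := fun x y => A.eq p x y) (hS.eq_refl p) (cv (levelInj 0 1 2 3) 4) 4
      (env [chk (prod L K), chk (HN K L), chk K] x) (env [chk (prod L K), chk (HN K L), chk K] y)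
      (V.rel_env (r := fun x y => A.eq p x y) (.cons (hS.eq_refl _ _) (.cons (hS.eq_refl _ _)
        (.cons (hS.eq_refl _ _) .nil))) h)
  · refine forces_ex.2 (Loc.pure fun q _ => ⟨chk (prod (upair γ γ) K), ?_, ?_⟩)
    · intro t
      refine (forces_iff hB).2 fun r _ => ?_
      have key : ∀ z, z ∈ prod (upair γ γ) K ↔ z ∈ prod L K ∧ fstp z = γ := by
        intro z
        constructor
        · intro hz
          obtain ⟨a, ha, i, hi, rfl⟩ := mem_prod.1 hz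
          have ha' : a = γ := by simpa using ha
          subst ha'
          exact ⟨opair_mem_prod.2 ⟨hγ, hi⟩, by simp⟩
        · rintro ⟨hz, he⟩
          obtain ⟨a, ha, i, hi, rfl⟩ := mem_prod.1 hz
          rw [fstp_opair] at he
          subst he
          exact opair_mem_prod.2 ⟨by simp, hi⟩
      constructor
      · intro ht
        refine ⟨hS.mem_dense ((hS.mem_chk.1 ht).imp ?_), Forces.dense hB
          ((hS.mem_chk.1 ht).imp ?_)⟩
        · rintro s _ ⟨z, hz, he⟩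
          exact hS.mem_congr (hS.eq_symm he) (hS.eq_refl s _) (hS.mem_chk_of ((key z).1 hz).1)
        · rintro s _ ⟨z, hz, he⟩
          obtain ⟨h1, h2⟩ := (key z).1 hz
          refine app_congr hB (hS.eq_symm he) (hS.eq_refl s _) ((app_HN hA hC hN h1).2 ?_)
          rw [h2]
          exact hS.eq_refl s _
      · rintro ⟨h1, h2⟩
        refine hS.mem_dense ((hS.mem_chk.1 h1).imp ?_)
        rintro s hs ⟨z, hz, he⟩
        have h3 := (app_HN hA hC hN hz).1 (app_congr hB he (hS.eq_refl s _)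
          (Forces.mono hB hs h2))
        exact hS.mem_congr (hS.eq_symm he) (hS.eq_refl s _)
          (hS.mem_chk_of ((key z).2 ⟨hz, (hS.chk_eq h3).symm⟩))
    · obtain ⟨f, hf⟩ : Inj (prod (upair γ γ) K) K := by
        refine Inj.of_fun (φ := fun z => sndp z) (by fun_prop) ?_ ?_
        · intro z hz
          obtain ⟨a, ha, i, hi, rfl⟩ := mem_prod.1 hz
          simpa only [sndp_opair] using hi
        · intro z hz z' hz' he
          obtain ⟨a, ha, i, hi, rfl⟩ := mem_prod.1 hz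
          obtain ⟨a', ha', i', hi', rfl⟩ := mem_prod.1 hz'
          have e1 : a = γ := by simpa using ha
          have e2 : a' = γ := by simpa using ha'
          simp only [sndp_opair] at he
          rw [e1, e2, he]
      exact forces_ex.2 (Loc.pure fun r _ => ⟨chk f, hS.forces_isInj_chk (holds_isInj.2 hf)⟩)

theorem fc_noBranch (hK : Hart omega K) (hL : Hart K L) (p : Cond (EE M) C) :
    Forces A p (neg (ex fun B => isCofBranch (chk (prod L K)) (RN S K L C) (chk L)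
      (chk (HN K L)) B)) := by
  have hS := frc_sys hA (empty_mem_C hC)
  have hB := hS.toBasic
  intro q _ hcon
  obtain ⟨q0, hq0, B, hBr⟩ := (forces_ex.1 hcon).exists
  obtain ⟨b1, b2, b3⟩ := hBr
  have hd := dbl_fmem0 hA
  -- some condition decides unboundedly many nodes
  have hex : ∀ γ, γ ∈ L → ∃ r, r ∈ C ∧ (le' r q0.1 ∧ ∃ x, x ∈ prod L K ∧ fstp x = γ ∧
      fmem A r (chk x) B) := by
    intro γ hγ
    have h1 := (forces_ball hB).1 b3 (chk γ) q0 le_rfl (hS.mem_chk_of hγ)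
    obtain ⟨r, hr, t, ht, ht'⟩ := (forces_bex.1 h1).exists
    have h2 := hS.forces_isSubset.1 b1 t r hr ht
    obtain ⟨s, hs, x, hx, he⟩ := (hS.mem_chk.1 h2).exists
    have h3 := (app_HN hA hC hN hx).1 (app_congr hB he (hS.eq_refl s _)
      (Forces.mono hB hs ht'))
    exact ⟨s.1, s.2, hs.trans hr, x, hx, (hS.chk_eq h3).symm,
      fmem_coe.2 (hS.mem_congr he (hS.eq_refl s _) (hS.mem_mono hs ht))⟩
  have hgood : ∃ r, r ∈ C ∧ le' r q0.1 ∧ ∀ ε, ε ∈ L → ∃ x, x ∈ prod L K ∧ ¬ fstp x ∈ ε ∧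
      fmem A r (chk x) B := by
    by_contra hcon
    refine hL.2.1 (inj_union hK.infOrd ((cohen_inj hC).trans (Inj.of_subset hK.infOrd.2))
      (R := fun r γ => le' r q0.1 ∧ ∃ x, x ∈ prod L K ∧ fstp x = γ ∧ fmem A r (chk x) B)
      (by fun_prop) hex ?_)
    intro r hr Y hY
    by_cases hrq : le' r q0.1
    · push Not at hcon
      obtain ⟨ε, hε, h1⟩ := hcon r hr hrq
      refine (Inj.of_subset (b := ε) fun γ hγ => ?_).trans (hL.2.2 ε hε)
      obtain ⟨_, _, x, hx, hxγ, hxB⟩ := (hY γ).1 hγ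
      by_contra hne
      exact h1 x hx (hxγ.symm ▸ hne) hxB
    · refine Inj.of_subset fun γ hγ => ?_
      exact (hrq ((hY γ).1 hγ).2.1).elim
  obtain ⟨r, hr, hrq, hunb⟩ := hgood
  obtain ⟨b, hb⟩ := small_sep (M := M) (D := fun x => fmem A r (chk x) B) (by fun_prop) (prod L K)
  obtain ⟨ε, hε, hε'⟩ := hN.h r b hr (fun x hx => ((hb x).1 hx).1) (by
    intro x y hx hy hlt
    obtain ⟨hx1, h3, hx2⟩ := (hb x).1 hx
    obtain ⟨hy1, _, hy2⟩ := (hb y).1 hy
    refine (app_RN hA hC hN (p := ⟨r, hr⟩) hx1 hy1).1 (Forces.dense hB ?_)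
    have h4 := (forces_ball hB).1 b2 (chk x) ⟨r, hr⟩ hrq hx2
    have h5 := (forces_ball hB).1 h4 (chk y) ⟨r, hr⟩ le_rfl hy2
    refine (forces_or.1 h5).bind ?_
    rintro s _ (h6 | h6)
    · exact Loc.pure fun u hu => Forces.mono hB hu h6
    · refine (forces_or.1 h6).imp ?_
      rintro u _ (h7 | h7)
      · obtain rfl := hS.chk_eq h7
        exact (mem_irrefl _ hlt).elim
      · exact (mem_asymm hlt (hN.a y x u.1 hy1 hx1 u.2
          ((app_RN hA hC hN hy1 hx1).1 h7))).elim)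
  obtain ⟨x, hx, hx1, hx2⟩ := hunb ε hε
  exact hx1 (hε' x ((hb x).2 ⟨hx, hx2⟩))

omit hN in
theorem fc_hart {a b : M} (ha : InfOrd a) (hab : Hart a b) (p : Cond (EE M) C) :
    Forces A p (isHartogs (chk a) (chk b)) := by
  have hS := frc_sys hA (empty_mem_C hC)
  have hB := hS.toBasic
  refine ⟨(hS.abs_isOrd b p).2 (holds_isOrd.2 hab.1), ?_, ?_⟩
  · intro q _ hcon
    obtain ⟨r, _, f, hf⟩ := (forces_ex.1 hcon).exists
    obtain ⟨g, hg⟩ := (descend hA hC).desc (holds_isOmega.2 rfl) (holds_isOrd.2 ha.1) ha.2 hf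
    exact hab.2.1 ⟨g, holds_isInj.1 hg⟩
  · refine (hS.forces_ball_chk ?_).2 fun c hc => ?_
    · intro p x y h
      exact .ex fun f => Fml.Rel.isInj (hS.eq_refl p) (hS.eq_refl p _) h (hS.eq_refl p _)
    · obtain ⟨f, hf⟩ := hab.2.2 c hc
      exact forces_ex.2 (Loc.pure fun r _ => ⟨chk f, hS.forces_isInj_chk (holds_isInj.2 hf)⟩)

/-- Cohen forcing adds an `ω₂`-Aronszajn tree, if there is a system of tree relations. -/
theorem fc_aronszajn (hK : Hart omega K) (hL : Hart K L) (p : Cond (EE M) C) :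
    Forces A p aronszajn := by
  have hS := frc_sys hA (empty_mem_C hC)
  refine forces_ex.2 (Loc.pure fun p1 _ => ⟨chk omega, ?_⟩)
  refine forces_ex.2 (Loc.pure fun p2 _ => ⟨chk K, ?_⟩)
  refine forces_ex.2 (Loc.pure fun p3 _ => ⟨chk L, (hS.abs_isOmega _ p3).2 (holds_isOmega.2 rfl),
    fc_hart hA hC infOrd_omega hK p3, fc_hart hA hC hK.infOrd hL p3, ?_⟩)
  refine forces_ex.2 (Loc.pure fun p4 _ => ⟨chk (prod L K), ?_⟩)
  refine forces_ex.2 (Loc.pure fun p5 _ => ⟨RN S K L C, ?_⟩)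
  refine forces_ex.2 (Loc.pure fun p6 _ => ⟨chk (HN K L), ?_⟩)
  exact ⟨fc_tree hA hC hN hL.1 p6, fc_height hA hC hN hL.1 ⟨_, hK.infOrd.2 _ empty_mem_omega⟩ p6,
    fc_levels hA hC hN p6, fc_noBranch hA hC hN hK hL p6⟩

end forcing

end ST

end Pool.Agent.Lib_helper27
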