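import Pool.Agent.Lib_helper27.Q.CSys
import Pool.Agent.Lib_helper27.Q.Int
import Pool.Agent.Lib_helper27.Exist

/-!
# The main theorem
-/

namespace Pool.Agent.Lib_helper27.Q

open Fml V Cardinal Pool.Agent.Lib_helper27.ST

theorem main (h1 : aleph 2 ≤ (2 : Cardinal.{0}) ^ ℵ₀)
    (h2 : ∀ (D : Type) [Preorder D], DirClosed D → ∀ p : D, Fc p TP2) :
    ∃ (M : Type 1) (E : M → M → Prop), IsModelOfZFC E ∧ Holds E TP2 ∧
      (∃! C : M, Holds E (isCohenPoset C)) ∧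
      ∀ C : M, Holds E (isCohenPoset C) →
        (∃! A : AtomForce (Cond E C) M, IsForcingRelation E C A) ∧
        ∀ A : AtomForce (Cond E C) M, IsForcingRelation E C A →
          ∀ p : Cond E C, Forces A p aronszajn := by
  obtain ⟨hC, hA⟩ := Pool.Agent.Lib_helper27.main (extE Cnd) ext_zfc
  refine ⟨Ext Cnd, extE Cnd, ext_zfc, holds_tp2 h1 h2, hC, fun C hC' =>
    ⟨(hA C hC').1, fun A hA' p => ?_⟩⟩
  have e1 := holds_cohen
  obtain rfl := hC.unique hC' e1
  have hK : Hart (omega : Ext Cnd) (π (oall Cnd Om1)) := hart_om1 distr_Cnd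
  have hL : Hart (π (oall Cnd Om1) : Ext Cnd) (π (oall Cnd Om2)) := hart_om2 distr_Cnd
  have hc : CSysM (π SN : Ext Cnd) (π (oall Cnd Om1)) (π (oall Cnd Om2)) (π (call Cnd)) :=
    ST.holds_isCSys Q.holds_isCSys
  exact fc_aronszajn hA' (fun p => ST.holds_isCohenPoset.1 hC' p) (hc.nsys hL.1) hK hL p

end Pool.Agent.Lib_helper27.Q
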