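import Pool.Agent.Lib_helper27.Fml

/-!
# The tree property at `ω₂`: the formulas
-/

namespace Pool.Agent.Lib_helper27.Fml

universe v

variable {U : Type v}

/-- the `a`-th level of the tree `T` with height function `h` injects into `K` -/
def levelInj (T h K a : U) : Fml U :=
  ex fun S => and (all fun t => iff (mem t S) (and (mem t T) (app h t a)))
    (ex fun f => isInj f S K)

/-- `(T, R)` is a tree of height `L` with height function `h`, all its levels inject into `K`, and it
has no cofinal branch -/
def isAronszajn (K L T R h : U) : Fml U :=
  and (isTree T R) (and (isHeight T R L h) (and (ball L fun a => levelInj T h K a)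
    (neg (ex fun B => isCofBranch T R L h B))))

/-- there is an `ω₂`-Aronszajn tree -/
def aronszajn : Fml U :=
  ex fun W => ex fun K => ex fun L => and (isOmega W) (and (isHartogs W K) (and (isHartogs K L)
    (ex fun T => ex fun R => ex fun h => isAronszajn K L T R h)))

/-- the tree property at `ω₂` -/
def TP2 : Fml U := neg aronszajn

/-! ### Tree relations on `L × K` -/

/-- `((γ, i), (δ, j)) ∈ S` -/
def app4 (S γ i δ j : U) : Fml U :=
  ex fun x => ex fun y => and (isOPair x γ i) (and (isOPair y δ j) (app S x y))

/-- `S` is a tree relation on `L × K` -/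
def isSys (S K L : U) : Fml U :=
  and (ball L fun γ => ball K fun i => ball L fun δ => ball K fun j =>
      imp (app4 S γ i δ j) (mem γ δ))
    (and (ball L fun γ => ball K fun i => ball L fun δ => ball K fun j => ball L fun ε =>
      ball K fun k => imp (and (app4 S γ i δ j) (app4 S δ j ε k)) (app4 S γ i ε k))
    (and (ball L fun γ => ball K fun i => ball L fun δ => ball K fun j => ball L fun ε =>
      ball K fun k => imp (and (mem γ δ) (and (app4 S γ i ε k) (app4 S δ j ε k))) (app4 S γ i δ j))
    (and (ball L fun γ => ball K fun i => ball K fun j => ball L fun ε =>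
      ball K fun k => imp (and (app4 S γ i ε k) (app4 S γ j ε k)) (eq i j))
      (ball L fun δ => bex K fun j => ball δ fun γ => bex K fun i => app4 S γ i δ j))))

/-- `b : L → K` is a branch of `S` -/
def isBr (S K L b : U) : Fml U :=
  and (isFunc b L K) (ball L fun γ => ball L fun δ => ball K fun i => ball K fun j =>
    imp (and (mem γ δ) (and (app b γ i) (app b δ j))) (app4 S γ i δ j))

end Pool.Agent.Lib_helper27.Fml
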