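import Pool.Agent.Lib_helper27.Q.Hart
import Pool.Agent.Lib_helper27.Q.Stmt

/-!
# What it means to force that a name is a tree relation, or a branch of one
-/

set_option linter.unusedSectionVars false
set_option linter.unusedTactic false
set_option linter.unreachableTactic false

namespace Pool.Agent.Lib_helper27.Q

open Fml V Cardinal

section

variable {P : Type} [Preorder P] {Ω : Type} [LinearOrder Ω] [WellFoundedLT Ω]

theorem fc_ball_oall {φ : Name P → Fml (Name P)} (hφ : Congr1 φ) {p : P} :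
    Fc p (ball (oall P Ω) φ) ↔ ∀ y : Ω, Fc p (φ (onm P y)) := by
  constructor
  · intro h y
    exact (forces_ball nf_basic).1 h (onm P y) p le_rfl (onm_mem_oall y p)
  · intro h
    refine (forces_ball nf_basic).2 fun x q hq hx => ?_
    refine Forces.dense nf_basic ?_
    refine (fmem_oall.1 hx).imp ?_
    rintro r hr ⟨y, he⟩
    exact (fc_congr (hφ r x _ he) le_rfl).2 (Forces.mono nf_basic (hr.trans hq) (h y))

theorem fc_ball_onm {φ : Name P → Fml (Name P)} (hφ : Congr1 φ) {p : P} {x : Ω} :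
    Fc p (ball (onm P x) φ) ↔ ∀ y, y < x → Fc p (φ (onm P y)) := by
  constructor
  · intro h y hy
    exact (forces_ball nf_basic).1 h (onm P y) p le_rfl (onm_mem hy p)
  · intro h
    refine (forces_ball nf_basic).2 fun z q hq hz => ?_
    refine Forces.dense nf_basic ?_
    refine (fmem_onm.1 hz).imp ?_
    rintro r hr ⟨y, hy, he⟩
    exact (fc_congr (hφ r z _ he) le_rfl).2 (Forces.mono nf_basic (hr.trans hq) (h y hy))

theorem fc_bex_oall {φ : Name P → Fml (Name P)} (hφ : Congr1 φ) {p : P} :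
    Fc p (bex (oall P Ω) φ) ↔ Loc p fun r => ∃ y : Ω, Fc r (φ (onm P y)) := by
  rw [Fc, forces_bex]
  constructor
  · intro h
    refine h.bind ?_
    rintro q _ ⟨x, hx, hx'⟩
    refine (fmem_oall.1 hx).imp ?_
    rintro r hr ⟨y, he⟩
    exact ⟨y, (fc_congr (hφ r x _ he) le_rfl).1 (Forces.mono nf_basic hr hx')⟩
  · intro h
    refine h.imp ?_
    rintro r _ ⟨y, hy⟩
    exact ⟨_, onm_mem_oall y r, hy⟩

theorem rl_app4 {r : Name P → Name P → Prop} (hr : ∀ x, r x x) {S S' a a' b b' c c' d d' : Name P}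
    (h : r S S') (ha : r a a') (hb : r b b') (hc : r c c') (hd : r d d') :
    Fml.Rel r (app4 S a b c d) (app4 S' a' b' c' d') :=
  DF.rel hr (cv (app4 0 1 2 3 4) 5) 5 (env [S, a, b, c] d) (env [S', a', b', c'] d')
    (rel_env (.cons h (.cons ha (.cons hb (.cons hc .nil)))) hd)

/-- `q` forces that `(γ, i)` is below `(δ, j)` -/
def RR (S : Name P) (γ : Om2) (i : Om1) (δ : Om2) (j : Om1) (q : P) : Prop :=
  Fc q (app4 S (onm P γ) (onm P i) (onm P δ) (onm P j))

/-- a forced tree relation -/
structure SysF (S : Name P) (p : P) : Prop where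
  s1 : ∀ q ≤ p, ∀ γ i δ j, RR S γ i δ j q → γ < δ
  s2 : ∀ q ≤ p, ∀ γ i δ j ε k, RR S γ i δ j q → RR S δ j ε k q → RR S γ i ε k q
  s3 : ∀ q ≤ p, ∀ γ i δ j ε k, γ < δ → RR S γ i ε k q → RR S δ j ε k q → RR S γ i δ j q
  s4 : ∀ q ≤ p, ∀ γ i j ε k, RR S γ i ε k q → RR S γ j ε k q → i = j
  s5 : ∀ δ, Loc p fun r => ∃ j, ∀ γ < δ, Loc r fun s => ∃ i, RR S γ i δ j s

theorem fc_isSys {S : Name P} {p : P} :
    Fc p (isSys S (oall P Om1) (oall P Om2)) ↔ SysF S p := by
  have e1 : Fc p (ball (oall P Om2) fun γ => ball (oall P Om1) fun i => ball (oall P Om2) fun δ =>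
      ball (oall P Om1) fun j => imp (app4 S γ i δ j) (mem γ δ)) ↔
      ∀ γ : Om2, ∀ i : Om1, ∀ δ : Om2, ∀ j : Om1,
        Fc p (imp (app4 S (onm P γ) (onm P i) (onm P δ) (onm P j)) (mem (onm P γ) (onm P δ))) := by
    refine (fc_ball_oall ?_).trans (forall_congr' fun γ => (fc_ball_oall ?_).trans
      (forall_congr' fun i => (fc_ball_oall ?_).trans (forall_congr' fun δ => fc_ball_oall ?_)))
    all_goals
      intro _ _ _ _
      repeat' first
        | assumption
        | exact feq_refl _ _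
        | with_reducible refine rl_app4 (fun x => feq_refl x _) ?_ ?_ ?_ ?_ ?_
        | with_reducible refine Fml.Rel.ball (fun x => feq_refl x _) ?_ (fun _ => ?_)
        | with_reducible refine Fml.Rel.imp ?_ ?_
        | with_reducible refine Fml.Rel.and ?_ ?_
        | with_reducible refine Fml.Rel.mem ?_ ?_
        | with_reducible refine Fml.Rel.eq ?_ ?_
  have e2 : Fc p (ball (oall P Om2) fun γ => ball (oall P Om1) fun i => ball (oall P Om2) fun δ =>
      ball (oall P Om1) fun j => ball (oall P Om2) fun ε => ball (oall P Om1) fun k =>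
        imp (and (app4 S γ i δ j) (app4 S δ j ε k)) (app4 S γ i ε k)) ↔
      ∀ γ : Om2, ∀ i : Om1, ∀ δ : Om2, ∀ j : Om1, ∀ ε : Om2, ∀ k : Om1,
        Fc p (imp (and (app4 S (onm P γ) (onm P i) (onm P δ) (onm P j))
          (app4 S (onm P δ) (onm P j) (onm P ε) (onm P k)))
            (app4 S (onm P γ) (onm P i) (onm P ε) (onm P k))) := by
    refine (fc_ball_oall ?_).trans (forall_congr' fun γ => (fc_ball_oall ?_).trans
      (forall_congr' fun i => (fc_ball_oall ?_).trans (forall_congr' fun δ =>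
      (fc_ball_oall ?_).trans (forall_congr' fun j => (fc_ball_oall ?_).trans
      (forall_congr' fun ε => fc_ball_oall ?_)))))
    all_goals
      intro _ _ _ _
      repeat' first
        | assumption
        | exact feq_refl _ _
        | with_reducible refine rl_app4 (fun x => feq_refl x _) ?_ ?_ ?_ ?_ ?_
        | with_reducible refine Fml.Rel.ball (fun x => feq_refl x _) ?_ (fun _ => ?_)
        | with_reducible refine Fml.Rel.imp ?_ ?_
        | with_reducible refine Fml.Rel.and ?_ ?_
        | with_reducible refine Fml.Rel.mem ?_ ?_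
        | with_reducible refine Fml.Rel.eq ?_ ?_
  have e3 : Fc p (ball (oall P Om2) fun γ => ball (oall P Om1) fun i => ball (oall P Om2) fun δ =>
      ball (oall P Om1) fun j => ball (oall P Om2) fun ε => ball (oall P Om1) fun k =>
        imp (and (mem γ δ) (and (app4 S γ i ε k) (app4 S δ j ε k))) (app4 S γ i δ j)) ↔
      ∀ γ : Om2, ∀ i : Om1, ∀ δ : Om2, ∀ j : Om1, ∀ ε : Om2, ∀ k : Om1,
        Fc p (imp (and (mem (onm P γ) (onm P δ))
          (and (app4 S (onm P γ) (onm P i) (onm P ε) (onm P k))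
          (app4 S (onm P δ) (onm P j) (onm P ε) (onm P k))))
            (app4 S (onm P γ) (onm P i) (onm P δ) (onm P j))) := by
    refine (fc_ball_oall ?_).trans (forall_congr' fun γ => (fc_ball_oall ?_).trans
      (forall_congr' fun i => (fc_ball_oall ?_).trans (forall_congr' fun δ =>
      (fc_ball_oall ?_).trans (forall_congr' fun j => (fc_ball_oall ?_).trans
      (forall_congr' fun ε => fc_ball_oall ?_)))))
    all_goals
      intro _ _ _ _
      repeat' first
        | assumption
        | exact feq_refl _ _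
        | with_reducible refine rl_app4 (fun x => feq_refl x _) ?_ ?_ ?_ ?_ ?_
        | with_reducible refine Fml.Rel.ball (fun x => feq_refl x _) ?_ (fun _ => ?_)
        | with_reducible refine Fml.Rel.imp ?_ ?_
        | with_reducible refine Fml.Rel.and ?_ ?_
        | with_reducible refine Fml.Rel.mem ?_ ?_
        | with_reducible refine Fml.Rel.eq ?_ ?_
  have e4 : Fc p (ball (oall P Om2) fun γ => ball (oall P Om1) fun i => ball (oall P Om1) fun j =>
      ball (oall P Om2) fun ε => ball (oall P Om1) fun k =>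
        imp (and (app4 S γ i ε k) (app4 S γ j ε k)) (eq i j)) ↔
      ∀ γ : Om2, ∀ i : Om1, ∀ j : Om1, ∀ ε : Om2, ∀ k : Om1,
        Fc p (imp (and (app4 S (onm P γ) (onm P i) (onm P ε) (onm P k))
          (app4 S (onm P γ) (onm P j) (onm P ε) (onm P k)))
            (eq (onm P i) (onm P j))) := by
    refine (fc_ball_oall ?_).trans (forall_congr' fun γ => (fc_ball_oall ?_).trans
      (forall_congr' fun i => (fc_ball_oall ?_).trans (forall_congr' fun δ =>
      (fc_ball_oall ?_).trans (forall_congr' fun j => fc_ball_oall ?_))))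
    all_goals
      intro _ _ _ _
      repeat' first
        | assumption
        | exact feq_refl _ _
        | with_reducible refine rl_app4 (fun x => feq_refl x _) ?_ ?_ ?_ ?_ ?_
        | with_reducible refine Fml.Rel.ball (fun x => feq_refl x _) ?_ (fun _ => ?_)
        | with_reducible refine Fml.Rel.imp ?_ ?_
        | with_reducible refine Fml.Rel.and ?_ ?_
        | with_reducible refine Fml.Rel.mem ?_ ?_
        | with_reducible refine Fml.Rel.eq ?_ ?_
  have e5 : Fc p (ball (oall P Om2) fun δ => bex (oall P Om1) fun j => ball δ fun γ =>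
      bex (oall P Om1) fun i => app4 S γ i δ j) ↔
      ∀ δ : Om2, Loc p fun r => ∃ j : Om1, ∀ γ : Om2, γ < δ → Loc r fun s => ∃ i : Om1,
        Fc s (app4 S (onm P γ) (onm P i) (onm P δ) (onm P j)) := by
    refine (fc_ball_oall ?_).trans (forall_congr' fun δ => (fc_bex_oall ?_).trans ?_)
    rotate_left 2
    · have key : ∀ (r : P) (j : Om1), Fc r (ball (onm P δ) fun γ =>
          bex (oall P Om1) fun i => app4 S γ i (onm P δ) (onm P j)) ↔ ∀ γ : Om2, γ < δ →
          Loc r fun s => ∃ i : Om1, Fc s (app4 S (onm P γ) (onm P i) (onm P δ) (onm P j)) := by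
        intro r j
        refine (fc_ball_onm ?_).trans (forall_congr' fun γ => imp_congr_right fun hγ =>
          fc_bex_oall ?_)
        all_goals
          intro _ _ _ _
          repeat' first
            | assumption
            | exact feq_refl _ _
            | with_reducible refine rl_app4 (fun x => feq_refl x _) ?_ ?_ ?_ ?_ ?_
            | with_reducible refine Fml.Rel.ball (fun x => feq_refl x _) ?_ (fun _ => ?_)
            | with_reducible refine Fml.Rel.bex (fun x => feq_refl x _) ?_ (fun _ => ?_)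
      simp only [key]
    all_goals
      intro _ _ _ _
      repeat' first
        | assumption
        | exact feq_refl _ _
        | with_reducible refine rl_app4 (fun x => feq_refl x _) ?_ ?_ ?_ ?_ ?_
        | with_reducible refine Fml.Rel.ball (fun x => feq_refl x _) ?_ (fun _ => ?_)
        | with_reducible refine Fml.Rel.bex (fun x => feq_refl x _) ?_ (fun _ => ?_)
  constructor
  · rintro ⟨h1, h2, h3, h4, h5⟩
    refine ⟨?_, ?_, ?_, ?_, e5.1 h5⟩
    · intro q hq γ i δ j h
      exact onm_mem_iff.1 ((forces_imp nf_basic).1 (e1.1 h1 γ i δ j) q hq h)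
    · intro q hq γ i δ j ε k h h'
      exact (forces_imp nf_basic).1 (e2.1 h2 γ i δ j ε k) q hq ⟨h, h'⟩
    · intro q hq γ i δ j ε k hγ h h'
      exact (forces_imp nf_basic).1 (e3.1 h3 γ i δ j ε k) q hq ⟨onm_mem hγ q, h, h'⟩
    · intro q hq γ i j ε k h h'
      exact onm_inj ((forces_imp nf_basic).1 (e4.1 h4 γ i j ε k) q hq ⟨h, h'⟩)
  · rintro ⟨h1, h2, h3, h4, h5⟩
    refine ⟨e1.2 ?_, e2.2 ?_, e3.2 ?_, e4.2 ?_, e5.2 h5⟩
    · exact fun γ i δ j => (forces_imp nf_basic).2 fun q hq h => onm_mem (h1 q hq γ i δ j h) q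
    · exact fun γ i δ j ε k => (forces_imp nf_basic).2 fun q hq h =>
        h2 q hq γ i δ j ε k h.1 h.2
    · exact fun γ i δ j ε k => (forces_imp nf_basic).2 fun q hq h =>
        h3 q hq γ i δ j ε k (onm_mem_iff.1 h.1) h.2.1 h.2.2
    · intro γ i j ε k
      refine (forces_imp nf_basic).2 fun q hq h => ?_
      rw [h4 q hq γ i j ε k h.1 h.2]
      exact feq_refl _ q

/-- `q` forces that `b` takes the value `i` at `γ` -/
def BB (b : Name P) (γ : Om2) (i : Om1) (q : P) : Prop := Fc q (app b (onm P γ) (onm P i))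

/-- a forced branch -/
structure BrF (S b : Name P) (p : P) : Prop where
  tot : ∀ γ, Loc p fun r => ∃ i, BB b γ i r
  uniq : ∀ q ≤ p, ∀ γ i j, BB b γ i q → BB b γ j q → i = j
  coh : ∀ q ≤ p, ∀ γ i δ j, γ < δ → BB b γ i q → BB b δ j q → RR S γ i δ j q

theorem fc_isBr {S b : Name P} {p : P} (h : Fc p (isBr S (oall P Om1) (oall P Om2) b)) :
    BrF S b p := by
  obtain ⟨h1, h2⟩ := h
  refine ⟨?_, ?_, ?_⟩
  · intro γ
    refine (func_total h1 (onm_mem_oall γ p)).bind ?_
    rintro q hq ⟨y, hy, hy'⟩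
    refine (fmem_oall.1 hy).imp ?_
    rintro r hr ⟨i, he⟩
    exact ⟨i, app_congr' (feq_refl _ _) he (Forces.mono nf_basic hr hy')⟩
  · intro q hq γ i j hi hj
    exact onm_inj (func_single (Forces.mono nf_basic hq h1) hi hj)
  · intro q hq γ i δ j hγ hi hj
    have h3 := (forces_ball nf_basic).1 h2 _ q hq (onm_mem_oall γ q)
    have h4 := (forces_ball nf_basic).1 h3 _ q le_rfl (onm_mem_oall δ q)
    have h5 := (forces_ball nf_basic).1 h4 _ q le_rfl (onm_mem_oall i q)
    have h6 := (forces_ball nf_basic).1 h5 _ q le_rfl (onm_mem_oall j q)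
    exact (forces_imp nf_basic).1 h6 q le_rfl ⟨onm_mem hγ q, hi, hj⟩

/-- the name of a branch -/
noncomputable def brName (Q : Om2 × Om1 → P → Prop) : Name P :=
  mkFn (Om2 × Om1) (fun x => onm P x.1) (fun x => onm P x.2) Q

theorem bb_brName {Q : Om2 × Om1 → P → Prop} (hQ : Down Q) {γ : Om2} {i : Om1} {p : P} :
    BB (brName Q) γ i p ↔ Loc p (Q (γ, i)) := by
  refine (fc_app hQ).trans ⟨fun h => h.imp ?_, fun h => h.imp ?_⟩
  · rintro q _ ⟨⟨γ', i'⟩, h1, h2, h3⟩
    rw [onm_inj h2, onm_inj h3]
    exact h1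
  · intro q _ h
    exact ⟨_, h, feq_refl _ _, feq_refl _ _⟩

theorem fc_isBr_of {S : Name P} {Q : Om2 × Om1 → P → Prop} (hQ : Down Q) {p : P}
    (h1 : ∀ γ, Loc p fun r => ∃ i, Q (γ, i) r)
    (h2 : ∀ q ≤ p, ∀ γ i j, Q (γ, i) q → Q (γ, j) q → i = j)
    (h3 : ∀ q ≤ p, ∀ γ i δ j, γ < δ → Q (γ, i) q → Q (δ, j) q → RR S γ i δ j q) :
    Fc p (isBr S (oall P Om1) (oall P Om2) (brName Q)) := by
  refine ⟨fc_isFunc hQ ?_ ?_ ?_, ?_⟩
  · intro x r _ _
    exact ⟨onm_mem_oall _ r, onm_mem_oall _ r⟩
  · intro x q hq hx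
    refine (fmem_oall.1 hx).bind ?_
    rintro r hr ⟨γ, he⟩
    refine ((h1 γ).mono (hr.trans hq)).imp ?_
    rintro s hs ⟨i, hi⟩
    exact ⟨(γ, i), hi, feq_mono hs he⟩
  · rintro ⟨γ, i⟩ ⟨γ', j⟩ r hr hi hj he
    obtain rfl := onm_inj he
    rw [h2 r hr γ i j hi hj]
    exact feq_refl _ r
  · have key : ∀ q ≤ p, ∀ γ i δ j, γ < δ → BB (brName Q) γ i q → BB (brName Q) δ j q →
        RR S γ i δ j q := by
      intro q hq γ i δ j hγ hi hj
      rw [bb_brName hQ] at hi hj
      refine Forces.dense nf_basic ?_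
      refine hi.bind fun r hr h4 => (hj.mono hr).imp fun s hs h5 => ?_
      exact h3 s (hs.trans (hr.trans hq)) γ i δ j hγ (hQ _ _ _ hs h4) h5
    have e : Fc p (ball (oall P Om2) fun γ => ball (oall P Om2) fun δ => ball (oall P Om1) fun i =>
        ball (oall P Om1) fun j => imp (and (mem γ δ) (and (app (brName Q) γ i)
        (app (brName Q) δ j))) (app4 S γ i δ j)) ↔ ∀ γ δ : Om2, ∀ i j : Om1,
        Fc p (imp (and (mem (onm P γ) (onm P δ)) (and (app (brName Q) (onm P γ) (onm P i))
        (app (brName Q) (onm P δ) (onm P j)))) (app4 S (onm P γ) (onm P i) (onm P δ)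
        (onm P j))) := by
      refine (fc_ball_oall ?_).trans (forall_congr' fun γ => (fc_ball_oall ?_).trans
        (forall_congr' fun i => (fc_ball_oall ?_).trans (forall_congr' fun δ => fc_ball_oall ?_)))
      all_goals
        intro _ _ _ _
        repeat' first
          | assumption
          | exact feq_refl _ _
          | with_reducible refine rl_app4 (fun x => feq_refl x _) ?_ ?_ ?_ ?_ ?_
          | with_reducible refine Fml.Rel.app (fun x => feq_refl x _) ?_ ?_ ?_
          | with_reducible refine Fml.Rel.ball (fun x => feq_refl x _) ?_ (fun _ => ?_)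
          | with_reducible refine Fml.Rel.imp ?_ ?_
          | with_reducible refine Fml.Rel.and ?_ ?_
          | with_reducible refine Fml.Rel.mem ?_ ?_
    refine e.2 fun γ δ i j => (forces_imp nf_basic).2 fun q hq h => ?_
    exact key q hq γ i δ j (onm_mem_iff.1 h.1) h.2.1 h.2.2

end

end Pool.Agent.Lib_helper27.Q
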